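import Pool.Agent.V11222.KM.Fun2

/-!
Order operations with respect to a basis.
-/

set_option autoImplicit false

namespace Pool.Agent.V11222.KM

open Set Filter Topology MeasureTheory Metric
open scoped ENNReal

/-- `g` applied to the coordinates with respect to the basis `b` of the points `x_1, …, x_m`. -/
noncomputable def app {n m : ℕ} (b : Module.Basis (Fin n) ℝ (E n)) (g : (Fin m → ℝ) → ℝ)
    (x : Fin m → E n) : E n :=
  ∑ i, g (fun l => b.repr (x l) i) • b i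

theorem repr_app {n m : ℕ} (b : Module.Basis (Fin n) ℝ (E n)) (g : (Fin m → ℝ) → ℝ)
    (x : Fin m → E n) (i : Fin n) : b.repr (app b g x) i = g (fun l => b.repr (x l) i) := by
  rw [app, map_sum]
  simp only [map_smul, Module.Basis.repr_self, Finsupp.coe_finsetSum, Finset.sum_apply,
    Finsupp.smul_apply, smul_eq_mul]
  rw [Finset.sum_eq_single i]
  · simp
  · intro j _ hji
    simp [hji]
  · intro h; exact absurd (Finset.mem_univ _) h

theorem app_smul {n m : ℕ} (b : Module.Basis (Fin n) ℝ (E n)) {g : (Fin m → ℝ) → ℝ}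
    (hg : V11160.OP.OrderOp g) {s : ℝ} (hs : 0 ≤ s) (x : Fin m → E n) :
    app b g (fun l => s • x l) = s • app b g x := by
  apply b.repr.injective
  ext i
  rw [repr_app, map_smul, Finsupp.smul_apply, repr_app, smul_eq_mul]
  have h := hg (fun t => s * t) (fun a c hac => mul_le_mul_of_nonneg_left hac hs)
    (fun l => b.repr (x l) i)
  rw [← h]
  congr 1
  funext l
  rw [map_smul, Finsupp.smul_apply, smul_eq_mul]

/-- The operation at the point `p` of `S`, for points of `S` at distance at most `r` from `p`. -/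
def ClAt {n : ℕ} (b : Module.Basis (Fin n) ℝ (E n)) (r : ℝ) (S : Set (E n)) (p : E n) : Prop :=
  ∃ (m : ℕ) (g : (Fin m → ℝ) → ℝ), V11160.OP.OrderOp g ∧ (¬ ∃ j, ∀ x, g x = x j) ∧
    ∀ x : Fin m → E n, (∀ l, x l ∈ S ∧ ‖x l - p‖ ≤ r) → app b g x ∈ S

theorem exists_L {m : ℕ} (b : Module.Basis (Fin (m + 1)) ℝ (E (m + 1))) :
    ∃ L : E (m + 1) ≃L[ℝ] (Fin (m + 1) → ℝ), (∀ x l, |L x l| ≤ ‖x‖ / 2) ∧
      ∃ τ : ℝ, 0 < τ ∧ τ ≤ 1 ∧ ∀ ρ r : ℝ, 0 < ρ → ρ ≤ τ * r → ∀ (S : Set (E (m + 1)))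
        (z : Fin (m + 1) → ℤ) (p : E (m + 1)), p ∈ S → (∀ l, ⌊L p l / ρ⌋ = z l) → ClAt b r S p →
        Cl ({y | L.symm y ∈ S} ∩ {y | ∀ l, ⌊y l / ρ⌋ = z l}) := by
  obtain ⟨L0, hL0⟩ : ∃ L : E (m + 1) ≃L[ℝ] (Fin (m + 1) → ℝ), ∀ x i, L x i = b.repr x i :=
    ⟨b.equivFun.toContinuousLinearEquiv, fun x i => by simp⟩
  obtain ⟨Λ, hΛ0, hΛ⟩ := L0.toContinuousLinearMap.bound
  obtain ⟨s, hs⟩ : ∃ s : ℝ, s = (2 * Λ)⁻¹ := ⟨_, rfl⟩
  have hs0 : 0 < s := by rw [hs]; positivity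
  obtain ⟨L, hL⟩ : ∃ L : E (m + 1) ≃L[ℝ] (Fin (m + 1) → ℝ), ∀ x i, L x i = s * b.repr x i := by
    refine ⟨L0.trans (ContinuousLinearEquiv.smulLeft (Units.mk0 s hs0.ne')), fun x i => ?_⟩
    rw [← hL0]; rfl
  obtain ⟨Λ', hΛ'0, hΛ'⟩ := L.symm.toContinuousLinearMap.bound
  refine ⟨L, fun x l => ?_, 1 / (Λ' + 1), by positivity, ?_, fun ρ r hρ0 hρ S z p hpS hpz hcl => ?_⟩
  · rw [hL, abs_mul, abs_of_pos hs0, ← hL0]
    have h1 : |L0 x l| ≤ Λ * ‖x‖ := (norm_le_pi_norm (L0 x) l).trans (hΛ x)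
    calc s * |L0 x l| ≤ s * (Λ * ‖x‖) := mul_le_mul_of_nonneg_left h1 hs0.le
      _ = ‖x‖ / 2 := by rw [hs]; field_simp
  · rw [div_le_one (by positivity)]; linarith
  · obtain ⟨k, g, hg, hnt, hcl⟩ := hcl
    refine cl_of_op hg hnt fun y hy => ⟨?_, fun i => ?_⟩
    · have hdist : ∀ l, ‖L.symm (y l) - p‖ ≤ r := by
        intro l
        have h0 : L.symm (y l) - p = L.symm (y l - L p) := by
          rw [map_sub, L.symm_apply_apply]
        rw [h0]
        refine (hΛ' _).trans ?_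
        have h1 : ‖y l - L p‖ ≤ ρ := by
          rw [pi_norm_le_iff_of_nonneg hρ0.le]
          intro i
          have e1 := (hy l).2 i
          have e2 := hpz i
          have f1 := Int.floor_le (y l i / ρ)
          have f2 := (Int.lt_floor_add_one (y l i / ρ)).le
          have g1 := Int.floor_le (L p i / ρ)
          have g2 := (Int.lt_floor_add_one (L p i / ρ)).le
          rw [e1] at f1 f2
          rw [e2] at g1 g2
          rw [le_div_iff₀ hρ0] at f1 g1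
          rw [div_le_iff₀ hρ0] at f2 g2
          rw [Pi.sub_apply, Real.norm_eq_abs, abs_le]
          constructor <;> linarith
        have hr : 0 ≤ r := by
          by_contra hcon
          push Not at hcon
          have : 1 / (Λ' + 1) * r < 0 := mul_neg_of_pos_of_neg (by positivity) hcon
          linarith
        calc Λ' * ‖y l - L p‖ ≤ Λ' * (1 / (Λ' + 1) * r) :=
              mul_le_mul_of_nonneg_left (h1.trans hρ) hΛ'0.le
          _ = r * (Λ' / (Λ' + 1)) := by ring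
          _ ≤ r * 1 := by
            refine mul_le_mul_of_nonneg_left ?_ hr
            rw [div_le_one (by positivity)]; linarith
          _ = r := mul_one r
      have h1 := hcl (fun l => L.symm (y l)) fun l => ⟨(hy l).1, hdist l⟩
      have h2 : L (app b g fun l => L.symm (y l)) = fun i => g (fun l => y l i) := by
        funext i
        rw [hL, repr_app]
        have h4 := hg (fun t => s * t) (fun a c hac => mul_le_mul_of_nonneg_left hac hs0.le)
          (fun l => b.repr (L.symm (y l)) i)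
        rw [← h4]
        congr 1
        funext l
        rw [← hL, L.apply_symm_apply]
      show L.symm (fun i => g (fun l => y l i)) ∈ S
      rw [← h2, L.symm_apply_apply]
      exact h1
    · have hconst : ∀ c : ℝ, g (fun _ => c) = c := fun c => hg (fun _ => c) monotone_const fun _ => 0
      have h1 := hg (fun t => ((⌊t / ρ⌋ : ℤ) : ℝ)) (by
        intro a c hac
        have h2 : ⌊a / ρ⌋ ≤ ⌊c / ρ⌋ := Int.floor_le_floor (div_le_div_of_nonneg_right hac hρ0.le)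
        show ((⌊a / ρ⌋ : ℤ) : ℝ) ≤ ((⌊c / ρ⌋ : ℤ) : ℝ)
        exact_mod_cast h2) (fun l => y l i)
      have h3 : (fun l => ((⌊y l i / ρ⌋ : ℤ) : ℝ)) = fun _ => ((z i : ℤ) : ℝ) := by
        funext l
        rw [(hy l).2 i]
      rw [h3, hconst] at h1
      exact_mod_cast h1.symm

theorem cl_empty {ι : Type} : Cl (∅ : Set (ι → ℝ)) := Or.inl fun x hx => absurd hx (notMem_empty x)

theorem lcl_of {m : ℕ} {b : Module.Basis (Fin (m + 1)) ℝ (E (m + 1))}
    {L : E (m + 1) ≃L[ℝ] (Fin (m + 1) → ℝ)} {τ : ℝ}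
    (h : ∀ ρ r : ℝ, 0 < ρ → ρ ≤ τ * r → ∀ (S : Set (E (m + 1)))
        (z : Fin (m + 1) → ℤ) (p : E (m + 1)), p ∈ S → (∀ l, ⌊L p l / ρ⌋ = z l) → ClAt b r S p →
        Cl ({y | L.symm y ∈ S} ∩ {y | ∀ l, ⌊y l / ρ⌋ = z l})) {r : ℝ} (hτr : 0 < τ * r)
    {S : Set (E (m + 1))} (hS : ∀ p ∈ S, ClAt b r S p) : LCl (τ * r) {y | L.symm y ∈ S} := by
  intro z
  rcases ({y | L.symm y ∈ S} ∩ {y : Fin (m + 1) → ℝ | ∀ l, ⌊y l / (τ * r)⌋ = z l}).eq_empty_or_nonempty
    with hemp | ⟨p, hpS, hpz⟩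
  · rw [hemp]; exact cl_empty
  · refine h (τ * r) r hτr le_rfl S z (L.symm p) hpS (fun l => ?_) (hS _ hpS)
    rw [L.apply_symm_apply]; exact hpz l

/-- Sets which are locally closed under order operations and which meet lines in positive length,
for a set of directions which is not null. -/
theorem thick (m : ℕ) (b : Module.Basis (Fin (m + 1)) ℝ (E (m + 1))) (S : Set (E (m + 1)))
    (hS : MeasurableSet S) (hcl : ∀ p ∈ S, ∃ r : ℝ, 0 < r ∧ ClAt b r S p)
    (Ω : Set (sphere (0 : E (m + 1)) 1)) (hΩ : (volume : Measure (E (m + 1))).toSphere Ω ≠ 0)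
    (h : ∀ e ∈ Ω, ∃ a : E (m + 1), volume {t : ℝ | a + t • (e : E (m + 1)) ∈ S} ≠ 0) :
    0 < volume S := by
  obtain ⟨C, hC1, hC⟩ := restricted m
  obtain ⟨L, hL, τ, hτ, hτ1, hLcl⟩ := exists_L b
  obtain ⟨c, hc, hres⟩ := hC L hL
  -- the good cubes
  obtain ⟨Q, hQ⟩ : ∃ Q : ℕ × (Fin (m + 1) → ℤ) → Set (E (m + 1)),
      Q = fun i => {x | ∀ l, ⌊L x l / (1 / ((i.1 : ℝ) + 1))⌋ = i.2 l} := ⟨_, rfl⟩
  obtain ⟨G, hG⟩ : ∃ G : Set (ℕ × (Fin (m + 1) → ℤ)), G = {i | Cl {y | L.symm y ∈ S ∩ Q i}} :=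
    ⟨_, rfl⟩
  have hsplit : ∀ i : ℕ × (Fin (m + 1) → ℤ), {y | L.symm y ∈ S ∩ Q i} = {y | L.symm y ∈ S} ∩
      {y | ∀ l, ⌊y l / (1 / ((i.1 : ℝ) + 1))⌋ = i.2 l} := by
    intro i
    ext y
    rw [hQ]
    show L.symm y ∈ S ∧ (∀ l, ⌊L (L.symm y) l / (1 / ((i.1 : ℝ) + 1))⌋ = i.2 l) ↔
      L.symm y ∈ S ∧ ∀ l, ⌊y l / (1 / ((i.1 : ℝ) + 1))⌋ = i.2 l
    rw [L.apply_symm_apply]
  have hcov : S ⊆ ⋃ i ∈ G, S ∩ Q i := by
    intro p hp
    obtain ⟨r, hr, hcp⟩ := hcl p hp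
    obtain ⟨k, hk⟩ := exists_nat_one_div_lt (show 0 < τ * r by positivity)
    refine mem_iUnion₂.2 ⟨(k, fun l => ⌊L p l / (1 / ((k : ℝ) + 1))⌋), ?_, hp, ?_⟩
    · rw [hG]
      show Cl _
      rw [hsplit]
      exact hLcl (1 / ((k : ℝ) + 1)) r (by positivity) hk.le S _ p hp (fun l => rfl) hcp
    · rw [hQ]; exact fun l => rfl
  have hQm : ∀ i, MeasurableSet (Q i) := by
    intro i
    rw [hQ]
    have : {x : E (m + 1) | ∀ l, ⌊L x l / (1 / ((i.1 : ℝ) + 1))⌋ = i.2 l} =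
        ⋂ l, {x | ⌊L x l / (1 / ((i.1 : ℝ) + 1))⌋ = i.2 l} := by
      ext x; simp
    show MeasurableSet {x : E (m + 1) | ∀ l, ⌊L x l / (1 / ((i.1 : ℝ) + 1))⌋ = i.2 l}
    rw [this]
    refine MeasurableSet.iInter fun l => ?_
    have hm : Measurable fun x : E (m + 1) => ⌊L x l / (1 / ((i.1 : ℝ) + 1))⌋ := by
      refine Int.measurable_floor.comp ?_
      exact ((measurable_pi_apply l).comp L.continuous.measurable).div_const _
    exact hm (measurableSet_singleton (i.2 l))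
  have hQb : ∀ i, ∃ R : ℝ, 1 ≤ R ∧ Q i ⊆ closedBall 0 R := by
    intro i
    obtain ⟨Λ', hΛ'0, hΛ'⟩ := L.symm.toContinuousLinearMap.bound
    obtain ⟨M, hM⟩ : ∃ M : ℝ, M = ∑ l, (|(i.2 l : ℝ)| + 1) := ⟨_, rfl⟩
    have hM0 : 0 ≤ M := by rw [hM]; positivity
    refine ⟨Λ' * M + 1, by nlinarith [mul_nonneg hΛ'0.le hM0], fun x hx => ?_⟩
    rw [hQ] at hx
    rw [mem_closedBall_zero_iff]
    have h1 : ‖L x‖ ≤ M := by
      rw [pi_norm_le_iff_of_nonneg hM0]
      intro l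
      have e0 := hx l
      obtain ⟨ρ, hρ⟩ : ∃ ρ : ℝ, ρ = 1 / ((i.1 : ℝ) + 1) := ⟨_, rfl⟩
      have hρ0 : 0 < ρ := by rw [hρ]; positivity
      have hρ1 : ρ ≤ 1 := by
        rw [hρ, div_le_one (by positivity)]
        have : (0 : ℝ) ≤ (i.1 : ℝ) := Nat.cast_nonneg _
        linarith
      change ⌊L x l / (1 / ((i.1 : ℝ) + 1))⌋ = i.2 l at e0
      rw [← hρ] at e0
      have e1 := Int.floor_le (L x l / ρ)
      have e2 := (Int.lt_floor_add_one (L x l / ρ)).le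
      rw [e0] at e1 e2
      rw [le_div_iff₀ hρ0] at e1
      rw [div_le_iff₀ hρ0] at e2
      have e3 : |(i.2 l : ℝ)| + 1 ≤ M := by
        rw [hM]
        exact Finset.single_le_sum (f := fun l => |(i.2 l : ℝ)| + 1)
          (fun l _ => by positivity) (Finset.mem_univ l)
      have e4 := neg_abs_le (i.2 l : ℝ)
      have e5 := le_abs_self (i.2 l : ℝ)
      have e6 : |(i.2 l : ℝ)| * ρ ≤ |(i.2 l : ℝ)| := mul_le_of_le_one_right (abs_nonneg _) hρ1
      rw [Real.norm_eq_abs, abs_le]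
      constructor <;> nlinarith
    calc ‖x‖ = ‖L.symm (L x)‖ := by rw [L.symm_apply_apply]
      _ ≤ Λ' * ‖L x‖ := hΛ' _
      _ ≤ Λ' * M := mul_le_mul_of_nonneg_left h1 hΛ'0.le
      _ ≤ Λ' * M + 1 := by linarith
  -- the directions
  obtain ⟨D, hD⟩ : ∃ D : (ℕ × (Fin (m + 1) → ℤ)) × ℕ → Set (sphere (0 : E (m + 1)) 1),
      D = fun j => {e : sphere (0 : E (m + 1)) 1 | j.1 ∈ G ∧ ∃ a : E (m + 1),
        1 / ((j.2 : ℝ) + 1) ≤ volume.real {t : ℝ | t ∈ Icc (-(1 / 2) : ℝ) (1 / 2) ∧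
          a + t • (e : E (m + 1)) ∈ S ∩ Q j.1}} := ⟨_, rfl⟩
  have hDcov : Ω ⊆ ⋃ j, D j := by
    intro e he
    obtain ⟨a, ha⟩ := h e he
    -- the line is covered by unit segments
    have h1 : {t : ℝ | a + t • (e : E (m + 1)) ∈ S} ⊆ ⋃ z : ℤ, ⋃ i ∈ G,
        {t : ℝ | t - z ∈ Icc (-(1 / 2) : ℝ) (1 / 2) ∧ a + t • (e : E (m + 1)) ∈ S ∩ Q i} := by
      intro t ht
      obtain ⟨i, hi, hiQ⟩ := mem_iUnion₂.1 (hcov ht)
      refine mem_iUnion.2 ⟨⌊t + 1 / 2⌋, mem_iUnion₂.2 ⟨i, hi, ?_, hiQ⟩⟩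
      have e1 := Int.floor_le (t + 1 / 2)
      have e2 := (Int.lt_floor_add_one (t + 1 / 2)).le
      constructor <;> linarith
    have h2 : ∃ z : ℤ, ∃ i ∈ G, volume {t : ℝ | t - z ∈ Icc (-(1 / 2) : ℝ) (1 / 2) ∧
          a + t • (e : E (m + 1)) ∈ S ∩ Q i} ≠ 0 := by
      by_contra hcon
      push Not at hcon
      apply ha
      refine measure_mono_null h1 ?_
      rw [measure_iUnion_null_iff]
      intro z
      rw [measure_biUnion_null_iff (Set.to_countable G)]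
      intro i hi
      exact hcon z i hi
    obtain ⟨z, i, hi, hne⟩ := h2
    obtain ⟨T, hT⟩ : ∃ T : Set ℝ, T = {t : ℝ | t ∈ Icc (-(1 / 2) : ℝ) (1 / 2) ∧
          (a + (z : ℝ) • (e : E (m + 1))) + t • (e : E (m + 1)) ∈ S ∩ Q i} := ⟨_, rfl⟩
    have h3 : {t : ℝ | t - z ∈ Icc (-(1 / 2) : ℝ) (1 / 2) ∧
          a + t • (e : E (m + 1)) ∈ S ∩ Q i} = (fun t : ℝ => t + (-(z : ℝ))) ⁻¹' T := by
      ext t
      rw [hT]
      have : a + (z : ℝ) • (e : E (m + 1)) + (t + -(z : ℝ)) • (e : E (m + 1)) =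
          a + t • (e : E (m + 1)) := by rw [add_smul, neg_smul]; abel
      show _ ∧ _ ↔ _ ∧ _
      rw [this, sub_eq_add_neg]
    rw [h3, measure_preimage_add_right] at hne
    have hTf : volume T ≠ ∞ := by
      refine ne_top_of_le_ne_top isCompact_Icc.measure_ne_top (measure_mono
        (?_ : T ⊆ Icc (-(1 / 2) : ℝ) (1 / 2)))
      rw [hT]; exact fun t ht => ht.1
    have hpos : 0 < volume.real T := by
      rw [measureReal_def]; exact ENNReal.toReal_pos hne hTf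
    obtain ⟨k, hk⟩ := exists_nat_one_div_lt hpos
    refine mem_iUnion.2 ⟨(i, k), ?_⟩
    rw [hD]
    refine ⟨hi, a + (z : ℝ) • (e : E (m + 1)), ?_⟩
    rw [hT] at hk
    exact hk.le
  have hex : ∃ j, (volume : Measure (E (m + 1))).toSphere (D j) ≠ 0 := by
    by_contra hcon
    push Not at hcon
    exact hΩ (measure_mono_null hDcov (measure_iUnion_null_iff.2 hcon))
  obtain ⟨⟨i, k⟩, hj⟩ := hex
  have hne : (D (i, k)).Nonempty := by
    rw [nonempty_iff_ne_empty]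
    intro h0
    rw [h0, measure_empty] at hj
    exact hj rfl
  have hiG : i ∈ G := by
    obtain ⟨e, he⟩ := hne
    rw [hD] at he
    exact he.1
  obtain ⟨R, hR1, hR⟩ := hQb i
  have hR0 : 0 < R := by linarith
  have hk1 : 1 / ((k : ℝ) + 1) ≤ 1 := by
    rw [div_le_one (by positivity)]
    have : (0 : ℝ) ≤ (k : ℝ) := Nat.cast_nonneg _
    linarith
  have hfin := hres R hR1 (S ∩ Q i) (hS.inter (hQm i)) (inter_subset_right.trans hR)
    (by rw [hG] at hiG; exact hiG) (D (i, k)) (1 / ((k : ℝ) + 1)) (by positivity) hk1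
    (by intro e he; rw [hD] at he; exact he.2)
  have hpos : 0 < (volume : Measure (E (m + 1))).toSphere.real (D (i, k)) := by
    rw [measureReal_def]; exact ENNReal.toReal_pos hj (measure_ne_top _ _)
  have h5 : 0 < volume.real (S ∩ Q i) := lt_of_lt_of_le (by positivity) hfin
  rw [measureReal_def] at h5
  exact (ENNReal.toReal_pos_iff.1 h5).1.trans_le (measure_mono inter_subset_left)

theorem dim_of_vol {n : ℕ} {S : Set (E n)} (hS : 0 < volume S) : dimH S = n := by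
  have hle : dimH S ≤ n := by
    have h1 := dimH_mono (subset_univ S)
    have h2 : dimH (univ : Set (E n)) = n := by
      rw [Real.dimH_univ_eq_finrank]; simp
    rwa [h2] at h1
  refine le_antisymm hle ?_
  obtain ⟨D, hD, hDvol⟩ := lin_vol (EuclideanSpace.equiv (Fin n) ℝ)
  have h1 : volume {y : Fin n → ℝ | (EuclideanSpace.equiv (Fin n) ℝ).symm y ∈ S} ≠ 0 := by
    rw [hDvol]
    exact mul_ne_zero (ENNReal.ofReal_pos.2 hD).ne' hS.ne'
  have h2 : {y : Fin n → ℝ | (EuclideanSpace.equiv (Fin n) ℝ).symm y ∈ S} =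
      (EuclideanSpace.equiv (Fin n) ℝ) '' S := by
    ext y
    constructor
    · intro hy
      exact ⟨_, hy, (EuclideanSpace.equiv (Fin n) ℝ).apply_symm_apply y⟩
    · rintro ⟨x, hx, rfl⟩
      show (EuclideanSpace.equiv (Fin n) ℝ).symm ((EuclideanSpace.equiv (Fin n) ℝ) x) ∈ S
      rw [ContinuousLinearEquiv.symm_apply_apply]; exact hx
  rw [h2] at h1
  rw [← (EuclideanSpace.equiv (Fin n) ℝ).dimH_image S]
  have h3 : (Measure.hausdorffMeasure (n : ℝ) : Measure (Fin n → ℝ))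
      ((EuclideanSpace.equiv (Fin n) ℝ) '' S) ≠ 0 := by
    have := hausdorffMeasure_pi_real (ι := Fin n)
    rw [Fintype.card_fin] at this
    rw [this]; exact h1
  exact le_dimH_of_hausdorffMeasure_ne_zero (d := (n : NNReal)) (by simpa using h3)

end Pool.Agent.V11222.KM
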