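import Pool.Agent.V11222.KM.Basis
import Pool.Agent.H742R2.Kk.Sphere

/-!
Boxes dual to the caps of the paraboloid.
-/

set_option autoImplicit false

namespace Pool.Agent.V11222.KM

open Set Filter Topology MeasureTheory Metric
open scoped ENNReal

/-- boxes -/
def bx {d : ℕ} (A B : ℝ) (e : E (d + 1)) (f : Fin d → E (d + 1)) (a : E (d + 1)) :
    Set (E (d + 1)) :=
  {y | |inner ℝ e (y - a)| ≤ A ∧ ∀ j, |inner ℝ (f j) (y - a)| ≤ B}

theorem measurableSet_bx {d : ℕ} (A B : ℝ) (e : E (d + 1)) (f : Fin d → E (d + 1)) (a : E (d + 1)) :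
    MeasurableSet (bx A B e f a) := by
  have h1 : bx A B e f a = {y | |inner ℝ e (y - a)| ≤ A} ∩ ⋂ j, {y | |inner ℝ (f j) (y - a)| ≤ B} := by
    ext y
    simp [bx]
  rw [h1]
  apply MeasurableSet.inter
  · have h0 : Measurable fun y : E (d + 1) => |(inner ℝ e (y - a) : ℝ)| := by fun_prop
    exact measurableSet_le h0 measurable_const
  · apply MeasurableSet.iInter
    intro j
    have h0 : Measurable fun y : E (d + 1) => |(inner ℝ (f j) (y - a) : ℝ)| := by fun_prop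
    exact measurableSet_le h0 measurable_const

/-- The volume of a box (proof by helper4, `V114/KakCx/Box.lean`). -/
theorem vol_bx {d : ℕ} {A B : ℝ} {e : E (d + 1)} {f : Fin d → E (d + 1)}
    (h : Orthonormal ℝ (Fin.cons e f : Fin (d + 1) → E (d + 1))) (a : E (d + 1)) :
    volume (bx A B e f a) = ENNReal.ofReal (2 * A) * ENNReal.ofReal (2 * B) ^ d := by
  classical
  have hcard : Fintype.card (Fin (d + 1)) = Module.finrank ℝ (E (d + 1)) := by
    rw [finrank_euclideanSpace]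
  let bs : OrthonormalBasis (Fin (d + 1)) ℝ (E (d + 1)) :=
    OrthonormalBasis.mk h (by
      rw [h.linearIndependent.span_eq_top_of_card_eq_finrank' hcard])
  have hbs : ∀ i, bs i = (Fin.cons e f : Fin (d + 1) → E (d + 1)) i := by
    intro i
    simp [bs]
  set S : Set (Fin (d + 1) → ℝ) := Set.pi univ
    (fun i => Icc (-(Fin.cons A (fun _ => B) : Fin (d + 1) → ℝ) i)
      ((Fin.cons A (fun _ => B) : Fin (d + 1) → ℝ) i)) with hS
  have h1 : bx A B e f a = (fun y : E (d + 1) => y - a) ⁻¹' (bs.repr ⁻¹' (WithLp.ofLp (p := 2) ⁻¹' S)) := by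
    ext y
    simp only [bx, mem_ofPred_eq, mem_preimage, hS, Set.mem_pi, mem_univ, forall_true_left, mem_Icc]
    constructor
    · rintro ⟨h1, h2⟩ i
      have h3 : (bs.repr (y - a)) i = inner ℝ (bs i) (y - a) := bs.repr_apply_apply _ _
      rw [h3, hbs]
      refine Fin.cases ?_ (fun j => ?_) i
      · simpa [abs_le] using h1
      · simpa [abs_le] using h2 j
    · intro h1
      refine ⟨?_, fun j => ?_⟩
      · have h2 := h1 0
        have h3 : (bs.repr (y - a)) 0 = inner ℝ (bs 0) (y - a) := bs.repr_apply_apply _ _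
        rw [h3, hbs] at h2
        simpa [abs_le] using h2
      · have h2 := h1 j.succ
        have h3 : (bs.repr (y - a)) j.succ = inner ℝ (bs j.succ) (y - a) := bs.repr_apply_apply _ _
        rw [h3, hbs] at h2
        simpa [abs_le] using h2
  have hSm : MeasurableSet S := MeasurableSet.univ_pi (fun _ => measurableSet_Icc)
  have hmp1 : MeasurePreserving (fun y : E (d + 1) => y - a) := measurePreserving_sub_right volume a
  have hmp2 := bs.measurePreserving_repr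
  have hmp3 := PiLp.volume_preserving_ofLp (Fin (d + 1))
  rw [h1, hmp1.measure_preimage, hmp2.measure_preimage, hmp3.measure_preimage hSm.nullMeasurableSet]
  · rw [hS, volume_pi_pi, Fin.prod_univ_succ]
    simp only [Fin.cons_zero, Fin.cons_succ, Real.volume_Icc, Finset.prod_const, Finset.card_univ,
      Fintype.card_fin]
    congr 2
    · ring
    · congr 1; ring
  · exact (hmp3.measurable hSm).nullMeasurableSet
  · exact (hmp2.measurable (hmp3.measurable hSm)).nullMeasurableSet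

theorem box_le_line {d : ℕ} {F : E (d + 1) → ℝ≥0∞} (hF : Measurable F) {B : ℝ}
    {e : E (d + 1)} {f : Fin d → E (d + 1)} {e' : E (d + 1)} (he : |inner ℝ e e'| ≤ 1)
    (hf : ∀ j, |inner ℝ (f j) e'| ≤ 2 * B) (a : E (d + 1)) :
    ∫⁻ y in bx (1 / 2) B e f a, F y ≤ volume (bx 1 (2 * B) e f a) * lmax F e' := by
  have hT := measurableSet_bx (1 / 2) B e f a
  obtain ⟨g, hg⟩ : ∃ g : E (d + 1) → ℝ≥0∞, g = (bx (1 / 2) B e f a).indicator F := ⟨_, rfl⟩
  have hgm : Measurable g := by rw [hg]; exact hF.indicator hT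
  have h1 : ∫⁻ y in bx (1 / 2) B e f a, F y = ∫⁻ y, g y := by rw [hg, lintegral_indicator hT]
  have hI : volume (Icc (-(1 / 2) : ℝ) (1 / 2)) = 1 := by rw [Real.volume_Icc]; norm_num
  have h2 : ∫⁻ y, g y = ∫⁻ s in Icc (-(1 / 2) : ℝ) (1 / 2), ∫⁻ y, g (y + s • e') := by
    have : ∀ s : ℝ, ∫⁻ y, g (y + s • e') = ∫⁻ y, g y := fun s =>
      lintegral_add_right_eq_self g (s • e')
    simp only [this]
    rw [setLIntegral_const, hI, mul_one]
  have h3 : ∫⁻ s in Icc (-(1 / 2) : ℝ) (1 / 2), ∫⁻ y, g (y + s • e') =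
      ∫⁻ y, ∫⁻ s in Icc (-(1 / 2) : ℝ) (1 / 2), g (y + s • e') := by
    refine lintegral_lintegral_swap ?_
    exact (hgm.comp (by fun_prop : Measurable fun p : ℝ × E (d + 1) => p.2 + p.1 • e')).aemeasurable
  have h4 : ∀ y, ∫⁻ s in Icc (-(1 / 2) : ℝ) (1 / 2), g (y + s • e') ≤
      (bx 1 (2 * B) e f a).indicator (fun _ => lmax F e') y := by
    intro y
    by_cases hy : y ∈ bx 1 (2 * B) e f a
    · rw [indicator_of_mem hy]
      refine le_trans (lintegral_mono fun s => ?_) (le_iSup (fun a : E (d + 1) =>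
        ∫⁻ t in Icc (-(1 / 2) : ℝ) (1 / 2), F (a + t • e')) y)
      rw [hg]; exact indicator_le_self _ _ _
    · rw [indicator_of_notMem hy, nonpos_iff_eq_zero]
      refine (setLIntegral_congr_fun measurableSet_Icc (g := fun _ => (0 : ℝ≥0∞)) ?_).trans (by simp)
      intro s hs
      show g (y + s • e') = 0
      rw [hg, indicator_of_notMem]
      intro hmem
      apply hy
      obtain ⟨h5, h6⟩ := hmem
      have hs' : |s| ≤ 1 / 2 := abs_le.2 hs
      have key : ∀ (v : E (d + 1)) (c c' : ℝ), |inner ℝ v e'| ≤ c →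
          |inner ℝ v (y + s • e' - a)| ≤ c' → |inner ℝ v (y - a)| ≤ c' + 1 / 2 * c := by
        intro v c c' hc hc'
        have e1 : inner ℝ v (y - a) = inner ℝ v (y + s • e' - a) - s * inner ℝ v e' := by
          have : y - a = (y + s • e' - a) - s • e' := by abel
          rw [this, inner_sub_right, inner_smul_right]
        rw [e1]
        refine (abs_sub _ _).trans (add_le_add hc' ?_)
        rw [abs_mul]
        exact mul_le_mul hs' hc (abs_nonneg _) (by norm_num)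
      refine ⟨?_, fun j => ?_⟩
      · refine (key e 1 (1 / 2) he h5).trans (by norm_num)
      · refine (key (f j) (2 * B) B (hf j) (h6 j)).trans (le_of_eq (by ring))
  rw [h1, h2, h3]
  refine (lintegral_mono h4).trans (le_of_eq ?_)
  rw [lintegral_indicator_const (measurableSet_bx _ _ _ _ _), mul_comm]

theorem cap_meas (m : ℕ) : ∃ c : ℝ, 0 < c ∧ ∀ (e : sphere (0 : E (m + 1)) 1) (ρ : ℝ), 0 < ρ →
    ρ ≤ 1 → ENNReal.ofReal (c * ρ ^ m) ≤ (volume : Measure (E (m + 1))).toSphere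
      {e' : sphere (0 : E (m + 1)) 1 | ‖(e' : E (m + 1)) - e‖ < ρ} := by
  obtain ⟨c1, hc1, hcone⟩ := cone_vol m
  obtain ⟨cT, hcT, hvolT⟩ := Pool.Agent.H742R2.Kk.volume_tube m
  refine ⟨cT * (1 / 4) ^ m * (1 / 2) ^ (m + 1) / c1, by positivity, fun e ρ hρ hρ1 => ?_⟩
  have he : ‖(e : E (m + 1))‖ = 1 := by simp
  have hee : inner ℝ (e : E (m + 1)) e = (1 : ℝ) := by rw [real_inner_self_eq_norm_sq, he]; norm_num
  obtain ⟨T, hT⟩ : ∃ T : Set (E (m + 1)), T = {y : E (m + 1) |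
      |inner ℝ (y - (3 : ℝ) • (e : E (m + 1))) e| ≤ 1 / 2 ∧
      ‖(y - (3 : ℝ) • (e : E (m + 1))) - (inner ℝ (y - (3 : ℝ) • (e : E (m + 1))) e : ℝ) •
        (e : E (m + 1))‖ ≤ ρ / 4} := ⟨_, rfl⟩
  have h1 := hvolT (ρ / 4) e ((3 : ℝ) • (e : E (m + 1))) (by positivity) he
  rw [← hT] at h1
  have hsub : (fun x : E (m + 1) => (2 : ℝ) • x) ⁻¹' T ⊆
      cone {e' : sphere (0 : E (m + 1)) 1 | ‖(e' : E (m + 1)) - e‖ < ρ} := by
    intro x hx
    rw [hT] at hx
    obtain ⟨h2, h3⟩ := hx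
    obtain ⟨c, hc⟩ : ∃ c : ℝ, c = inner ℝ x (e : E (m + 1)) := ⟨_, rfl⟩
    have e1 : inner ℝ ((2 : ℝ) • x - (3 : ℝ) • (e : E (m + 1))) e = 2 * c - 3 := by
      rw [inner_sub_left, inner_smul_left, inner_smul_left, hee, ← hc]; simp
    change |inner ℝ ((2 : ℝ) • x - (3 : ℝ) • (e : E (m + 1))) e| ≤ 1 / 2 at h2
    change ‖((2 : ℝ) • x - (3 : ℝ) • (e : E (m + 1))) -
      (inner ℝ ((2 : ℝ) • x - (3 : ℝ) • (e : E (m + 1))) e : ℝ) • (e : E (m + 1))‖ ≤ ρ / 4 at h3
    rw [e1] at h2 h3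
    have e2 : ((2 : ℝ) • x - (3 : ℝ) • (e : E (m + 1))) - (2 * c - 3) • (e : E (m + 1)) =
        (2 : ℝ) • (x - c • (e : E (m + 1))) := by
      rw [sub_smul, mul_smul, smul_sub]; abel
    rw [e2, norm_smul, Real.norm_eq_abs, abs_of_pos (by norm_num : (0 : ℝ) < 2)] at h3
    have h4 := abs_le.1 h2
    have hw : ‖x - c • (e : E (m + 1))‖ ≤ ρ / 8 := by linarith
    have hcn : ‖c • (e : E (m + 1))‖ = c := by
      rw [norm_smul, he, mul_one, Real.norm_eq_abs, abs_of_pos (by linarith)]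
    have h5 : |‖x‖ - c| ≤ ρ / 8 := by
      have := abs_norm_sub_norm_le x (c • (e : E (m + 1)))
      rw [hcn] at this
      exact this.trans hw
    have h6 := abs_le.1 h5
    have hx1 : 1 ≤ ‖x‖ := by linarith
    have hx2 : ‖x‖ < 2 := by linarith
    have hx0 : 0 < ‖x‖ := by linarith
    have hmem : ‖x‖⁻¹ • x ∈ sphere (0 : E (m + 1)) 1 := by
      rw [mem_sphere_zero_iff_norm, norm_smul, norm_inv, norm_norm, inv_mul_cancel₀ hx0.ne']
    refine ⟨⟨‖x‖⁻¹ • x, hmem⟩, ?_, ‖x‖, hx1, hx2, ?_⟩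
    · show ‖‖x‖⁻¹ • x - (e : E (m + 1))‖ < ρ
      have e3 : ‖x‖⁻¹ • x - (e : E (m + 1)) = ‖x‖⁻¹ • ((x - c • (e : E (m + 1))) +
          (c - ‖x‖) • (e : E (m + 1))) := by
        rw [sub_smul, smul_add, smul_sub, smul_sub, smul_smul ‖x‖⁻¹ ‖x‖, inv_mul_cancel₀ hx0.ne',
          one_smul]
        abel
      rw [e3, norm_smul, norm_inv, norm_norm]
      have h7 : ‖(x - c • (e : E (m + 1))) + (c - ‖x‖) • (e : E (m + 1))‖ ≤ ρ / 8 + ρ / 8 := by
        refine (norm_add_le _ _).trans (add_le_add hw ?_)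
        rw [norm_smul, he, mul_one, Real.norm_eq_abs, abs_sub_comm]
        exact h5
      calc ‖x‖⁻¹ * ‖(x - c • (e : E (m + 1))) + (c - ‖x‖) • (e : E (m + 1))‖
          ≤ 1 * (ρ / 8 + ρ / 8) := by
            refine mul_le_mul ?_ h7 (norm_nonneg _) (by norm_num)
            exact inv_le_one_of_one_le₀ hx1
        _ < ρ := by linarith
    · show x = ‖x‖ • ‖x‖⁻¹ • x
      rw [smul_smul, mul_inv_cancel₀ hx0.ne', one_smul]
  have h2 : volume ((fun x : E (m + 1) => (2 : ℝ) • x) ⁻¹' T) =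
      ENNReal.ofReal ((1 / 2) ^ (m + 1)) * volume T := by
    rw [Measure.addHaar_preimage_smul volume (by norm_num : (2 : ℝ) ≠ 0), finrank_euclideanSpace,
      Fintype.card_fin, abs_of_pos (by positivity), one_div, inv_pow]
  have h3 := measure_mono (μ := volume) hsub
  rw [h2, hcone] at h3
  have h4 := (mul_le_mul' le_rfl h1).trans h3
  rw [← ENNReal.ofReal_mul (by positivity)] at h4
  have h5 : ENNReal.ofReal (cT * (1 / 4) ^ m * (1 / 2) ^ (m + 1) / c1 * ρ ^ m) =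
      ENNReal.ofReal c1⁻¹ * ENNReal.ofReal ((1 / 2) ^ (m + 1) * (cT * (ρ / 4) ^ m)) := by
    rw [← ENNReal.ofReal_mul (by positivity)]
    congr 1
    rw [div_pow ρ 4, one_div_pow (4 : ℝ)]
    field_simp
  rw [h5]
  refine (mul_le_mul' le_rfl h4).trans (le_of_eq ?_)
  rw [← mul_assoc, ← ENNReal.ofReal_mul (by positivity), inv_mul_cancel₀ hc1.ne',
    ENNReal.ofReal_one, one_mul]

theorem caps_sum {m : ℕ} {ι : Type} [Fintype ι] {e : ι → sphere (0 : E (m + 1)) 1} {ρ : ℝ}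
    (hsep : ∀ i j, i ≠ j → 2 * ρ ≤ ‖(e i : E (m + 1)) - e j‖) {Y : ℝ≥0∞}
    (hY : ∀ i, Y ≤ (volume : Measure (E (m + 1))).toSphere
      {e' : sphere (0 : E (m + 1)) 1 | ‖(e' : E (m + 1)) - e i‖ < ρ})
    {X : ι → ℝ≥0∞} {H : sphere (0 : E (m + 1)) 1 → ℝ≥0∞}
    (hX : ∀ i (e' : sphere (0 : E (m + 1)) 1), ‖(e' : E (m + 1)) - e i‖ < ρ → X i ≤ H e') :
    (∑ i, X i) * Y ≤ ∫⁻ e', H e' ∂(volume : Measure (E (m + 1))).toSphere := by
  obtain ⟨D, hD⟩ : ∃ D : ι → Set (sphere (0 : E (m + 1)) 1),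
      D = fun i => {e' : sphere (0 : E (m + 1)) 1 | ‖(e' : E (m + 1)) - e i‖ < ρ} := ⟨_, rfl⟩
  have hDm : ∀ i, MeasurableSet (D i) := by
    intro i
    rw [hD]
    exact measurableSet_lt (show Measurable fun e' : sphere (0 : E (m + 1)) 1 =>
      ‖(e' : E (m + 1)) - e i‖ by fun_prop) measurable_const
  have hdisj : Pairwise (Function.onFun Disjoint D) := by
    intro i j hij
    rw [Function.onFun, Set.disjoint_left]
    intro e' h1 h2
    rw [hD] at h1 h2
    change ‖(e' : E (m + 1)) - e i‖ < ρ at h1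
    change ‖(e' : E (m + 1)) - e j‖ < ρ at h2
    have h3 := hsep i j hij
    have h4 : ‖(e i : E (m + 1)) - e j‖ ≤ ‖(e i : E (m + 1)) - e'‖ + ‖(e' : E (m + 1)) - e j‖ := by
      have : (e i : E (m + 1)) - e j = ((e i : E (m + 1)) - e') + ((e' : E (m + 1)) - e j) := by abel
      rw [this]; exact norm_add_le _ _
    rw [norm_sub_rev (e i : E (m + 1)) e'] at h4
    linarith
  have h1 : ∫⁻ e' in ⋃ i, D i, H e' ∂(volume : Measure (E (m + 1))).toSphere =
      ∑ i, ∫⁻ e' in D i, H e' ∂(volume : Measure (E (m + 1))).toSphere := by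
    rw [lintegral_iUnion hDm hdisj, tsum_fintype]
  refine le_trans ?_ (setLIntegral_le_lintegral (⋃ i, D i) _)
  rw [h1, Finset.sum_mul]
  refine Finset.sum_le_sum fun i _ => ?_
  have h2 : X i * Y ≤ ∫⁻ _ in D i, X i ∂(volume : Measure (E (m + 1))).toSphere := by
    rw [setLIntegral_const, hD]
    exact mul_le_mul' le_rfl (hY i)
  refine h2.trans (setLIntegral_mono' (hDm i) fun e' he' => ?_)
  rw [hD] at he'
  exact hX i e' he'

end Pool.Agent.V11222.KM
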