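import Pool.Agent.V11222.KM.Box

/-!
Boxes dual to the caps of the paraboloid, tested against functions with order closed superlevel sets.
-/

set_option autoImplicit false

namespace Pool.Agent.V11222.KM

open Set Filter Topology MeasureTheory Metric
open scoped ENNReal

/-- The unit normal `(1, -2x)/√(1+4|x|²)` of the paraboloid at the point `(|x|², x)`. -/
noncomputable def nor {d : ℕ} (x : E d) : E (d + 1) :=
  (√(1 + 4 * ‖x‖ ^ 2))⁻¹ • WithLp.toLp 2 (Fin.cons 1 (fun j => -2 * x j) : Fin (d + 1) → ℝ)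

theorem nor_sep {d : ℕ} {x y : E d} (hx : ‖x‖ ≤ 1) (hy : ‖y‖ ≤ 1) :
    ‖x - y‖ ≤ 4 * ‖nor x - nor y‖ := by
  obtain ⟨s, hs⟩ : ∃ s : ℝ, s = (√(1 + 4 * ‖x‖ ^ 2))⁻¹ := ⟨_, rfl⟩
  obtain ⟨s', hs'⟩ : ∃ s' : ℝ, s' = (√(1 + 4 * ‖y‖ ^ 2))⁻¹ := ⟨_, rfl⟩
  obtain ⟨Δ, hΔ⟩ : ∃ Δ : E (d + 1), Δ = nor x - nor y := ⟨_, rfl⟩
  have h0 : Δ 0 = s - s' := by rw [hΔ, hs, hs']; simp [nor]
  have hj : ∀ j : Fin d, Δ j.succ = -2 * ((s • x - s' • y : E d) j) := by
    intro j; rw [hΔ, hs, hs']; simp [nor]; ring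
  have hn : ‖Δ‖ ^ 2 = (s - s') ^ 2 + 4 * ‖s • x - s' • y‖ ^ 2 := by
    rw [EuclideanSpace.norm_sq_eq, Fin.sum_univ_succ, h0, EuclideanSpace.norm_sq_eq, Finset.mul_sum]
    congr 1
    · rw [Real.norm_eq_abs, sq_abs]
    · refine Finset.sum_congr rfl fun j _ => ?_
      rw [hj, Real.norm_eq_abs, Real.norm_eq_abs, sq_abs, sq_abs]; ring
  have hΔ0 : 0 ≤ ‖Δ‖ := norm_nonneg _
  have h1 : |s - s'| ≤ ‖Δ‖ := by
    refine abs_le_of_sq_le_sq ?_ hΔ0
    rw [hn]; nlinarith [sq_nonneg ‖s • x - s' • y‖]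
  have h2 : ‖s • x - s' • y‖ ≤ ‖Δ‖ / 2 := by
    refine abs_le_of_sq_le_sq' ?_ (by positivity) |>.2
    nlinarith [sq_nonneg (s - s')]
  have hs38 : 3 / 8 ≤ s := by
    rw [hs]
    have h3 : √(1 + 4 * ‖x‖ ^ 2) ≤ 8 / 3 := by
      rw [Real.sqrt_le_left (by norm_num)]
      nlinarith [norm_nonneg x]
    have h4 : 0 < √(1 + 4 * ‖x‖ ^ 2) := Real.sqrt_pos.2 (by positivity)
    rw [← one_div, le_div_iff₀ h4]
    linarith
  have h3 : s • (x - y) = (s • x - s' • y) - (s - s') • y := by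
    rw [smul_sub, sub_smul]; abel
  have h4 : s * ‖x - y‖ ≤ ‖Δ‖ / 2 + ‖Δ‖ := by
    have h5 : ‖s • (x - y)‖ = s * ‖x - y‖ := by
      rw [norm_smul, Real.norm_eq_abs, abs_of_pos (by linarith)]
    rw [← h5, h3]
    refine (norm_sub_le _ _).trans (add_le_add h2 ?_)
    rw [norm_smul, Real.norm_eq_abs]
    calc |s - s'| * ‖y‖ ≤ ‖Δ‖ * 1 := mul_le_mul h1 hy (norm_nonneg _) hΔ0
      _ = ‖Δ‖ := mul_one _
  rw [← hΔ]
  have h6 : 0 ≤ ‖x - y‖ := norm_nonneg _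
  nlinarith

theorem scale {n : ℕ} {r : ℝ} (hr : 0 < r) {h : E n → ℝ≥0∞} (hh : Measurable h) :
    ∫⁻ y, h y = ENNReal.ofReal (r ^ n) * ∫⁻ y, h (r • y) := by
  have h1 : ∫⁻ y, h (r • y) = ENNReal.ofReal (|(r ^ n)⁻¹|) * ∫⁻ y, h y := by
    have h2 := Measure.map_addHaar_smul (volume : Measure (E n)) hr.ne'
    rw [finrank_euclideanSpace, Fintype.card_fin] at h2
    have h3 : ∫⁻ y, h (r • y) = ∫⁻ y, h y ∂(Measure.map (r • ·) (volume : Measure (E n))) := by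
      rw [lintegral_map hh (measurable_const_smul r)]
    rw [h3, h2, lintegral_smul_measure, smul_eq_mul]
  have hrn : 0 < r ^ n := by positivity
  rw [h1, ← mul_assoc, ← ENNReal.ofReal_mul hrn.le, abs_of_pos (by positivity),
    mul_inv_cancel₀ hrn.ne', ENNReal.ofReal_one, one_mul]

/-- The sum of the indicators of the boxes. -/
noncomputable def boxSum {d : ℕ} {ι : Type} [Fintype ι] (N : ℝ) (ω : ι → E d)
    (f : ι → Fin d → E (d + 1)) (a : ι → E (d + 1)) (y : E (d + 1)) : ℝ :=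
  ∑ i, (bx (N ^ 2 / 2) (N / 2) (nor (ω i)) (f i) (a i)).indicator (fun _ => (1 : ℝ)) y

theorem norm_low {d : ℕ} {ι : Type} [Fintype ι] {N κ p : ℝ} (hN : 0 < N) (hκ : 0 < κ) (hp : 1 ≤ p)
    {ω : ι → E d} {f : ι → Fin d → E (d + 1)}
    (hf : ∀ i, Orthonormal ℝ (Fin.cons (nor (ω i)) (f i) : Fin (d + 1) → E (d + 1)))
    (hcard : κ * N ^ d ≤ Fintype.card ι) (a : ι → E (d + 1)) :
    ENNReal.ofReal ((κ * (N ^ 2) ^ (d + 1)) ^ (1 / p)) ≤
      eLpNorm (boxSum N ω f a) (ENNReal.ofReal p) volume := by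
  have hp0 : 0 < p := by linarith
  rw [eLpNorm_eq_lintegral_rpow_enorm_toReal (by
      rw [ne_eq, ENNReal.ofReal_eq_zero, not_le]; exact hp0) ENNReal.ofReal_ne_top,
    ENNReal.toReal_ofReal hp0.le, ← ENNReal.ofReal_rpow_of_nonneg (by positivity) (by positivity)]
  refine ENNReal.rpow_le_rpow ?_ (by positivity)
  obtain ⟨cnt, hcnt⟩ : ∃ cnt : E (d + 1) → ℝ≥0∞, cnt = fun y =>
      ∑ i, (bx (N ^ 2 / 2) (N / 2) (nor (ω i)) (f i) (a i)).indicator (fun _ => (1 : ℝ≥0∞)) y :=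
    ⟨_, rfl⟩
  have h1 : ∀ y, ‖boxSum N ω f a y‖ₑ = cnt y := by
    intro y
    have hnn : ∀ i : ι, 0 ≤ (bx (N ^ 2 / 2) (N / 2) (nor (ω i)) (f i) (a i)).indicator
        (fun _ => (1 : ℝ)) y := fun i => indicator_nonneg (fun _ _ => zero_le_one) _
    rw [boxSum, Real.enorm_of_nonneg (Finset.sum_nonneg fun i _ => hnn i),
      ENNReal.ofReal_sum_of_nonneg fun i _ => hnn i, hcnt]
    refine Finset.sum_congr rfl fun i _ => ?_
    by_cases hy : y ∈ bx (N ^ 2 / 2) (N / 2) (nor (ω i)) (f i) (a i)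
    · rw [indicator_of_mem hy, indicator_of_mem hy, ENNReal.ofReal_one]
    · rw [indicator_of_notMem hy, indicator_of_notMem hy, ENNReal.ofReal_zero]
  have h2 : ∀ y, cnt y ≤ ‖boxSum N ω f a y‖ₑ ^ p := by
    intro y
    rw [h1]
    by_cases hy : ∃ i, y ∈ bx (N ^ 2 / 2) (N / 2) (nor (ω i)) (f i) (a i)
    · obtain ⟨i, hi⟩ := hy
      have h3 : 1 ≤ cnt y := by
        rw [hcnt]
        refine le_trans (le_of_eq ?_) (Finset.single_le_sum (f := fun i =>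
          (bx (N ^ 2 / 2) (N / 2) (nor (ω i)) (f i) (a i)).indicator (fun _ => (1 : ℝ≥0∞)) y)
          (fun _ _ => zero_le) (Finset.mem_univ i))
        rw [indicator_of_mem hi]
      calc cnt y = cnt y ^ (1 : ℝ) := (ENNReal.rpow_one _).symm
        _ ≤ cnt y ^ p := ENNReal.rpow_le_rpow_of_exponent_le h3 hp
    · push Not at hy
      have h3 : cnt y = 0 := by
        rw [hcnt]
        exact Finset.sum_eq_zero fun i _ => indicator_of_notMem (hy i) _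
      rw [h3]; exact zero_le
  refine le_trans ?_ (lintegral_mono h2)
  rw [hcnt]
  simp only
  rw [lintegral_finsetSum _ fun i _ => measurable_const.indicator (measurableSet_bx _ _ _ _ _)]
  have h3 : ∀ i ∈ (Finset.univ : Finset ι), ∫⁻ y,
      (bx (N ^ 2 / 2) (N / 2) (nor (ω i)) (f i) (a i)).indicator (fun _ => (1 : ℝ≥0∞)) y =
      ENNReal.ofReal (N ^ 2 * N ^ d) := by
    intro i _
    rw [lintegral_indicator_const (measurableSet_bx _ _ _ _ _), one_mul, vol_bx (hf i),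
      ← ENNReal.ofReal_pow (by positivity), ← ENNReal.ofReal_mul (by positivity)]
    congr 1
    rw [show 2 * (N / 2) = N by ring]; ring
  rw [Finset.sum_congr rfl h3, Finset.sum_const, nsmul_eq_mul, Finset.card_univ,
    ← ENNReal.ofReal_natCast, ← ENNReal.ofReal_mul (by positivity)]
  refine ENNReal.ofReal_le_ofReal ?_
  calc κ * (N ^ 2) ^ (d + 1) = (κ * N ^ d) * (N ^ 2 * N ^ d) := by rw [pow_succ, ← pow_mul]; ring
    _ ≤ _ := mul_le_mul_of_nonneg_right hcard (by positivity)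

end Pool.Agent.V11222.KM
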