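import Pool.Agent.V11222.KM.Box2

/-!
Boxes dual to the caps of the paraboloid, tested against functions with order closed superlevel sets:
the final inequality.
-/

set_option autoImplicit false

namespace Pool.Agent.V11222.KM

open Set Filter Topology MeasureTheory Metric
open scoped ENNReal

theorem clAt_scale {n : ℕ} {b : Module.Basis (Fin n) ℝ (E n)} {r t : ℝ} (ht : 0 < t)
    {S : Set (E n)} {p : E n} (h : ClAt b (r * t) S (t • p)) : ClAt b r {x | t • x ∈ S} p := by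
  obtain ⟨m, g, hg, hnt, hcl⟩ := h
  refine ⟨m, g, hg, hnt, fun x hx => ?_⟩
  have h1 := hcl (fun l => t • x l) fun l => ⟨(hx l).1, by
    rw [← smul_sub, norm_smul, Real.norm_eq_abs, abs_of_pos ht, mul_comm]
    exact mul_le_mul_of_nonneg_right (hx l).2 ht.le⟩
  rw [app_smul b hg ht.le] at h1
  exact h1

theorem box_main (d : ℕ) : ∃ p : ℝ, 3 ≤ p ∧ ∀ (b : Module.Basis (Fin (d + 1)) ℝ (E (d + 1)))
    (σ κ : ℝ), 0 < σ → 0 < κ → ∃ K : ℝ, 0 < K ∧ ∀ N R r : ℝ, 1 ≤ N → 1 ≤ R → 0 < r → r ≤ 1 →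
    ∀ (ι : Type) [Fintype ι] (ω : ι → E d) (f : ι → Fin d → E (d + 1)),
      (∀ i, ‖ω i‖ ≤ 1) → (∀ i j, i ≠ j → σ / N ≤ ‖ω i - ω j‖) →
      (∀ i, Orthonormal ℝ (Fin.cons (nor (ω i)) (f i) : Fin (d + 1) → E (d + 1))) →
      κ * N ^ d ≤ Fintype.card ι → ∀ (a : ι → E (d + 1)) (g : E (d + 1) → ℝ), Measurable g →
      (∀ x, R * N ^ 2 < ‖x‖ → g x = 0) →
      (∀ s : ℝ, 0 < s → ∀ x ∈ {x | s < |g x|}, ClAt b (r * N ^ 2) {x | s < |g x|} x) →
      ∑ i, ∫⁻ y in bx (N ^ 2 / 2) (N / 2) (nor (ω i)) (f i) (a i), ‖g y‖ₑ ≤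
        ENNReal.ofReal (K * (R / r)) *
          eLpNorm (boxSum N ω f 0) (ENNReal.ofReal (p / (p - 1))) volume *
          (∫⁻ y, ‖g y‖ₑ ^ p) ^ (1 / p) := by
  obtain ⟨p, hp3, hmain⟩ := main_lmax d 1 le_rfl
  refine ⟨p, hp3, fun b σ κ hσ hκ => ?_⟩
  have hp0 : 0 < p := by linarith
  have hp1 : 0 < p - 1 := by linarith
  obtain ⟨L, hL, τ, hτ, hτ1, hLcl⟩ := exists_L b
  obtain ⟨K1, hK1, hmainL⟩ := hmain L hL
  obtain ⟨c, hc, hcap⟩ := cap_meas d
  obtain ⟨σ', hσ'⟩ : ∃ σ' : ℝ, σ' = min σ 1 := ⟨_, rfl⟩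
  have hσ'0 : 0 < σ' := by rw [hσ']; exact lt_min hσ one_pos
  have hσ'1 : σ' ≤ 1 := by rw [hσ']; exact min_le_right _ _
  have hσ'σ : σ' ≤ σ := by rw [hσ']; exact min_le_left _ _
  obtain ⟨C2, hC2⟩ : ∃ C2 : ℝ, C2 = 2 * (16 / σ') ^ d / c := ⟨_, rfl⟩
  have hC20 : 0 < C2 := by rw [hC2]; positivity
  obtain ⟨θ, hθ⟩ : ∃ θ : ℝ, θ = (p - 1) / p := ⟨_, rfl⟩
  have hθ0 : 0 < θ := by rw [hθ]; positivity
  have hκθ : 0 < κ ^ θ := Real.rpow_pos_of_pos hκ θ
  refine ⟨C2 * K1 / τ / κ ^ θ, by positivity, ?_⟩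
  intro N R r hN hR hr hr1 ι _ ω f hω hsep hf hcard a g hg hsupp hlev
  have hN0 : 0 < N := by linarith
  have hN2 : 0 < N ^ 2 := by positivity
  obtain ⟨G, hG⟩ : ∃ G : E (d + 1) → ℝ≥0∞, G = fun x => ‖g (N ^ 2 • x)‖ₑ := ⟨_, rfl⟩
  have hsm : Measurable fun x : E (d + 1) => N ^ 2 • x := by fun_prop
  have hGm : Measurable G := by rw [hG]; exact (hg.comp hsm).enorm
  -- the maximal inequality
  have hJ : ∫⁻ e : sphere (0 : E (d + 1)) 1, lmax G e ∂(volume : Measure (E (d + 1))).toSphere ≤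
      ENNReal.ofReal (K1 * (R / (τ * r))) * (∫⁻ x, G x ^ p) ^ (1 / p) := by
    have h1 := hmainL R (τ * r) hR (by positivity) (by nlinarith) G hGm
      (fun x => by rw [hG]; exact enorm_ne_top) (fun x hx => by
        rw [hG]
        have h2 : R * N ^ 2 < ‖N ^ 2 • x‖ := by
          rw [norm_smul, Real.norm_eq_abs, abs_of_pos hN2, mul_comm]
          exact mul_lt_mul_of_pos_left hx hN2
        simp [hsupp _ h2]) (fun s hs => by
        have h3 : {x : E (d + 1) | ENNReal.ofReal s < G x} = {x | N ^ 2 • x ∈ {x | s < |g x|}} := by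
          ext x
          rw [hG]
          show ENNReal.ofReal s < ‖g (N ^ 2 • x)‖ₑ ↔ s < |g (N ^ 2 • x)|
          rw [← ofReal_norm, Real.norm_eq_abs, ENNReal.ofReal_lt_ofReal_iff_of_nonneg hs.le]
        rw [h3]
        exact lcl_of hLcl (by positivity) fun x hx => clAt_scale hN2 (hlev s hs _ hx))
    simpa using h1
  -- the boxes
  obtain ⟨ρ, hρ⟩ : ∃ ρ : ℝ, ρ = σ' / (8 * N) := ⟨_, rfl⟩
  have hρ0 : 0 < ρ := by rw [hρ]; positivity
  have hρN : ρ ≤ 1 / N := by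
    rw [hρ, div_le_div_iff₀ (by positivity) hN0]; nlinarith
  have hρ1 : ρ ≤ 1 := hρN.trans (by rw [div_le_one hN0]; exact hN)
  have hnor : ∀ i, ‖nor (ω i)‖ = 1 := fun i => by
    have := (hf i).1 0
    simpa using this
  obtain ⟨e, he⟩ : ∃ e : ι → sphere (0 : E (d + 1)) 1, ∀ i, (e i : E (d + 1)) = nor (ω i) :=
    ⟨fun i => ⟨nor (ω i), by rw [mem_sphere_zero_iff_norm]; exact hnor i⟩, fun i => rfl⟩
  obtain ⟨X, hX⟩ : ∃ X : ι → ℝ≥0∞, X = fun i =>
      ∫⁻ y in bx (1 / 2) (1 / (2 * N)) (nor (ω i)) (f i) ((N ^ 2)⁻¹ • a i), G y := ⟨_, rfl⟩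
  obtain ⟨W, hW⟩ : ∃ W : ℝ≥0∞, W = ENNReal.ofReal (2 * (2 / N) ^ d) := ⟨_, rfl⟩
  have hcs := caps_sum (ρ := ρ) (e := e) (by
      intro i j hij
      rw [he, he]
      have h1 := hsep i j hij
      have h2 := nor_sep (hω i) (hω j)
      have h3 : σ' / N ≤ σ / N := div_le_div_of_nonneg_right hσ'σ hN0.le
      have h4 : 2 * ρ = σ' / N / 4 := by rw [hρ]; field_simp; norm_num
      rw [h4]; linarith) (Y := ENNReal.ofReal (c * ρ ^ d)) (fun i => hcap (e i) ρ hρ0 hρ1)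
      (X := X) (H := fun e' => W * lmax G e') (by
      intro i e' he'
      rw [he] at he'
      have he1 : ‖(e' : E (d + 1))‖ = 1 := by simp
      rw [hX, hW]
      have h1 := box_le_line hGm (B := 1 / (2 * N)) (e := nor (ω i)) (f := f i)
        (e' := (e' : E (d + 1))) (by
          refine (abs_real_inner_le_norm _ _).trans ?_
          rw [hnor, he1, one_mul]) (by
          intro j
          have h2 : inner ℝ (f i j) (nor (ω i)) = (0 : ℝ) := by
            have h3 := (hf i).2 (Fin.succ_ne_zero j)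
            simpa using h3
          have h4 : inner ℝ (f i j) (e' : E (d + 1)) =
              inner ℝ (f i j) ((e' : E (d + 1)) - nor (ω i)) := by
            rw [inner_sub_right, h2, sub_zero]
          rw [h4]
          refine (abs_real_inner_le_norm _ _).trans ?_
          have h5 : ‖f i j‖ = 1 := by
            have := (hf i).1 j.succ
            simpa using this
          rw [h5, one_mul]
          have h6 : 2 * (1 / (2 * N)) = 1 / N := by field_simp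
          rw [h6]
          exact he'.le.trans hρN) ((N ^ 2)⁻¹ • a i)
      refine h1.trans (le_of_eq ?_)
      rw [vol_bx (hf i), ← ENNReal.ofReal_pow (by positivity), ← ENNReal.ofReal_mul (by positivity)]
      congr 2
      rw [show 2 * (2 * (1 / (2 * N))) = 2 / N by field_simp, mul_one])
  have hWt : W ≠ ∞ := by rw [hW]; exact ENNReal.ofReal_ne_top
  rw [lintegral_const_mul' _ _ hWt] at hcs
  obtain ⟨J, hJe⟩ : ∃ J : ℝ≥0∞, J = ∫⁻ e : sphere (0 : E (d + 1)) 1, lmax G e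
    ∂(volume : Measure (E (d + 1))).toSphere := ⟨_, rfl⟩
  rw [← hJe] at hcs hJ
  have hX2 : ∑ i, X i ≤ ENNReal.ofReal C2 * J := by
    have hu : 0 < c * ρ ^ d := by positivity
    have h1 : (∑ i, X i) = ((∑ i, X i) * ENNReal.ofReal (c * ρ ^ d)) *
        ENNReal.ofReal (c * ρ ^ d)⁻¹ := by
      rw [mul_assoc, ← ENNReal.ofReal_mul hu.le, mul_inv_cancel₀ hu.ne', ENNReal.ofReal_one, mul_one]
    rw [h1]
    refine (mul_le_mul' hcs le_rfl).trans (le_of_eq ?_)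
    rw [hW, mul_comm (ENNReal.ofReal (2 * (2 / N) ^ d)) J, mul_assoc J,
      ← ENNReal.ofReal_mul (by positivity), mul_comm J]
    congr 2
    have h2 : (16 / σ') ^ d = (2 / N) ^ d * (ρ ^ d)⁻¹ := by
      rw [← inv_pow, ← mul_pow, hρ]
      congr 1
      field_simp
      norm_num
    rw [hC2, h2, mul_inv]
    field_simp
  -- scaling
  have hbox : ∀ i, ∫⁻ y in bx (N ^ 2 / 2) (N / 2) (nor (ω i)) (f i) (a i), ‖g y‖ₑ =
      ENNReal.ofReal ((N ^ 2) ^ (d + 1)) * X i := by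
    intro i
    rw [← lintegral_indicator (measurableSet_bx _ _ _ _ _),
      scale hN2 (hg.enorm.indicator (measurableSet_bx _ _ _ _ _)), hX]
    simp only
    rw [← lintegral_indicator (measurableSet_bx _ _ _ _ _)]
    congr 2
    funext y
    have h3 : (N ^ 2 • y ∈ bx (N ^ 2 / 2) (N / 2) (nor (ω i)) (f i) (a i)) ↔
        y ∈ bx (1 / 2) (1 / (2 * N)) (nor (ω i)) (f i) ((N ^ 2)⁻¹ • a i) := by
      have h4 : N ^ 2 • y - a i = N ^ 2 • (y - (N ^ 2)⁻¹ • a i) := by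
        rw [smul_sub, smul_smul, mul_inv_cancel₀ hN2.ne', one_smul]
      simp only [bx, mem_ofPred_eq, h4, inner_smul_right, abs_mul, abs_of_pos hN2]
      constructor
      · rintro ⟨h5, h6⟩
        refine ⟨?_, fun j => ?_⟩
        · rw [← mul_le_mul_iff_right₀ hN2]
          linarith
        · have h7 := h6 j
          rw [← mul_le_mul_iff_right₀ hN2]
          have h8 : N ^ 2 * (1 / (2 * N)) = N / 2 := by field_simp
          linarith
      · rintro ⟨h5, h6⟩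
        refine ⟨?_, fun j => ?_⟩
        · rw [← mul_le_mul_iff_right₀ hN2] at h5
          linarith
        · have h7 := h6 j
          rw [← mul_le_mul_iff_right₀ hN2] at h7
          have h8 : N ^ 2 * (1 / (2 * N)) = N / 2 := by field_simp
          linarith
    by_cases hy : y ∈ bx (1 / 2) (1 / (2 * N)) (nor (ω i)) (f i) ((N ^ 2)⁻¹ • a i)
    · rw [Set.indicator_of_mem hy, Set.indicator_of_mem (h3.2 hy), hG]
    · rw [Set.indicator_of_notMem hy, Set.indicator_of_notMem (fun h => hy (h3.1 h))]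
  obtain ⟨V, hV⟩ : ∃ V : ℝ, V = (N ^ 2) ^ (d + 1) := ⟨_, rfl⟩
  have hV0 : 0 < V := by rw [hV]; positivity
  obtain ⟨P, hP⟩ : ∃ P : ℝ≥0∞, P = (∫⁻ y, ‖g y‖ₑ ^ p) ^ (1 / p) := ⟨_, rfl⟩
  have hGp : (∫⁻ x, G x ^ p) ^ (1 / p) = ENNReal.ofReal (V ^ (-(1 / p))) * P := by
    have h1 : ∫⁻ x, G x ^ p = ENNReal.ofReal V⁻¹ * ∫⁻ y, ‖g y‖ₑ ^ p := by
      rw [scale hN2 (hg.enorm.pow_const p), ← hV, ← mul_assoc, ← ENNReal.ofReal_mul (by positivity),
        inv_mul_cancel₀ hV0.ne', ENNReal.ofReal_one, one_mul, hG]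
    rw [h1, ENNReal.mul_rpow_of_nonneg _ _ (by positivity), ← hP,
      ENNReal.ofReal_rpow_of_nonneg (by positivity) (by positivity)]
    congr 2
    rw [Real.inv_rpow hV0.le, Real.rpow_neg hV0.le]
  have hlow := norm_low (p := p / (p - 1)) (a := 0) hN0 hκ (by
    rw [le_div_iff₀ hp1]; linarith) hf hcard
  rw [one_div_div, ← hθ, ← hV] at hlow
  obtain ⟨Z, hZ⟩ : ∃ Z : ℝ≥0∞, Z = eLpNorm (boxSum N ω f 0) (ENNReal.ofReal (p / (p - 1))) volume :=
    ⟨_, rfl⟩
  rw [← hZ] at hlow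
  rw [← hZ, ← hP]
  rw [Finset.sum_congr rfl fun i _ => hbox i, ← Finset.mul_sum, ← hV]
  calc ENNReal.ofReal V * ∑ i, X i
      ≤ ENNReal.ofReal V * (ENNReal.ofReal C2 * (ENNReal.ofReal (K1 * (R / (τ * r))) *
        (ENNReal.ofReal (V ^ (-(1 / p))) * P))) := by
        refine mul_le_mul' le_rfl (hX2.trans (mul_le_mul' le_rfl ?_))
        rw [← hGp]; exact hJ
    _ = ENNReal.ofReal (C2 * K1 / τ / κ ^ θ * (R / r)) * ENNReal.ofReal ((κ * V) ^ θ) * P := by
        rw [← mul_assoc, ← mul_assoc, ← mul_assoc, ← ENNReal.ofReal_mul (by positivity),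
          ← ENNReal.ofReal_mul (by positivity), ← ENNReal.ofReal_mul (by positivity),
          ← ENNReal.ofReal_mul (by positivity)]
        congr 2
        rw [Real.mul_rpow hκ.le hV0.le]
        have h1 : V ^ θ = V * V ^ (-(1 / p)) := by
          have h2 : θ = 1 + (-(1 / p)) := by rw [hθ]; field_simp; ring
          rw [h2, Real.rpow_add hV0, Real.rpow_one]
        rw [h1]
        field_simp
    _ ≤ ENNReal.ofReal (C2 * K1 / τ / κ ^ θ * (R / r)) * Z * P :=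
        mul_le_mul' (mul_le_mul' le_rfl hlow) le_rfl

end Pool.Agent.V11222.KM
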