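import Pool.Agent.V11222.KM.Op

/-!
Cones of directions and linear changes of variables.
-/

set_option autoImplicit false

namespace Pool.Agent.V11222.KM

open Set Filter Topology MeasureTheory Metric
open scoped ENNReal

/-- `ℝ^n` -/
abbrev E (n : ℕ) := EuclideanSpace ℝ (Fin n)

/-- the vectors `r e` with `e ∈ Ω` and `1 ≤ r < 2` -/
def cone {n : ℕ} (Ω : Set (sphere (0 : E n) 1)) : Set (E n) :=
  {x | ∃ e ∈ Ω, ∃ r : ℝ, 1 ≤ r ∧ r < 2 ∧ x = r • (e : E n)}

theorem cone_vol (m : ℕ) : ∃ c : ℝ, 0 < c ∧ ∀ Ω : Set (sphere (0 : E (m + 1)) 1),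
    volume (cone Ω) = ENNReal.ofReal c * (volume : Measure (E (m + 1))).toSphere Ω := by
  obtain ⟨one, hone⟩ : ∃ x : Ioi (0 : ℝ), x = ⟨1, mem_Ioi.2 one_pos⟩ := ⟨_, rfl⟩
  obtain ⟨two, htwo⟩ : ∃ x : Ioi (0 : ℝ), x = ⟨2, mem_Ioi.2 two_pos⟩ := ⟨_, rfl⟩
  have hfin : Measure.volumeIoiPow m (Ico one two) ≠ ∞ := by
    refine ne_top_of_le_ne_top ?_ (measure_mono Ico_subset_Iio_self)
    rw [Measure.volumeIoiPow_apply_Iio]; exact ENNReal.ofReal_ne_top
  have hpos : Measure.volumeIoiPow m (Ico one two) ≠ 0 := by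
    intro h0
    have h1 : Measure.volumeIoiPow m (Iio two) ≤ Measure.volumeIoiPow m (Iio one) +
        Measure.volumeIoiPow m (Ico one two) := by
      refine (measure_mono ?_).trans (measure_union_le _ _)
      intro x hx
      rcases lt_or_ge x one with h | h
      · exact Or.inl h
      · exact Or.inr ⟨h, hx⟩
    rw [h0, add_zero, Measure.volumeIoiPow_apply_Iio, Measure.volumeIoiPow_apply_Iio,
      ENNReal.ofReal_le_ofReal_iff (by rw [hone]; positivity), hone, htwo] at h1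
    have h2 : (2 : ℝ) ^ (m + 1) ≤ 1 := by
      have h3 : (0 : ℝ) < m + 1 := by positivity
      have := (div_le_div_iff_of_pos_right h3).1 h1
      simpa using this
    have h3 : (2 : ℝ) ≤ 2 ^ (m + 1) := by
      calc (2 : ℝ) = 2 ^ 1 := by norm_num
        _ ≤ 2 ^ (m + 1) := pow_le_pow_right₀ (by norm_num) (by omega)
    linarith
  refine ⟨(Measure.volumeIoiPow m (Ico one two)).toReal, ENNReal.toReal_pos hpos hfin, fun Ω => ?_⟩
  rw [ENNReal.ofReal_toReal hfin]
  have hdim : Module.finrank ℝ (E (m + 1)) - 1 = m := by simp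
  have h1 := ((volume : Measure (E (m + 1))).measurePreserving_homeomorphUnitSphereProd).measure_preimage_emb
    (Homeomorph.measurableEmbedding _) (Ω ×ˢ Ico one two)
  rw [Measure.prod_prod, hdim, comap_subtype_coe_apply
    (measurableSet_singleton (0 : E (m + 1))).compl] at h1
  rw [mul_comm, ← h1]
  congr 1
  ext x
  simp only [cone, mem_setOf_eq, mem_image, mem_preimage]
  constructor
  · rintro ⟨e, he, r, hr1, hr2, rfl⟩
    have hr0 : 0 < r := by linarith
    have hne : r • (e : E (m + 1)) ≠ 0 := by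
      have h3 : ‖(e : E (m + 1))‖ = 1 := by simp
      intro h
      have h4 := congrArg norm h
      rw [norm_smul, h3, norm_zero, Real.norm_eq_abs, abs_of_pos hr0] at h4
      linarith
    refine ⟨⟨r • (e : E (m + 1)), hne⟩, ?_, rfl⟩
    have h3 : homeomorphUnitSphereProd (E (m + 1)) ⟨r • (e : E (m + 1)), hne⟩ =
        (e, ⟨r, mem_Ioi.2 hr0⟩) := by
      rw [← Homeomorph.eq_symm_apply]
      apply Subtype.ext
      simp
    rw [h3]
    refine ⟨he, ?_, ?_⟩
    · rw [hone]; exact hr1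
    · rw [htwo]; exact hr2
  · rintro ⟨y, hy, rfl⟩
    refine ⟨(homeomorphUnitSphereProd (E (m + 1)) y).1, hy.1,
      (homeomorphUnitSphereProd (E (m + 1)) y).2, ?_, ?_, ?_⟩
    · have := hy.2.1
      rw [hone] at this; exact this
    · have := hy.2.2
      rw [htwo] at this; exact this
    · have hy0 : ‖(y : E (m + 1))‖ ≠ 0 := norm_ne_zero_iff.2 y.2
      rw [homeomorphUnitSphereProd_apply_fst_coe, homeomorphUnitSphereProd_apply_snd_coe,
        smul_smul, mul_inv_cancel₀ hy0, one_smul]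

theorem lin_vol {n : ℕ} (L : E n ≃L[ℝ] (Fin n → ℝ)) : ∃ D : ℝ, 0 < D ∧ ∀ S : Set (E n),
    volume {y : Fin n → ℝ | L.symm y ∈ S} = ENNReal.ofReal D * volume S := by
  have hH : (Measure.map L (volume : Measure (E n))).IsAddHaarMeasure :=
    L.isAddHaarMeasure_map volume
  obtain ⟨c, hc⟩ : ∃ c, c = Measure.addHaarScalarFactor (volume : Measure (Fin n → ℝ))
    (Measure.map L (volume : Measure (E n))) := ⟨_, rfl⟩
  have hc0 : 0 < c := by
    rw [hc]; exact Measure.addHaarScalarFactor_pos_of_isAddHaarMeasure _ _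
  have h1 : (volume : Measure (Fin n → ℝ)) = c • Measure.map L (volume : Measure (E n)) := by
    rw [hc]; exact Measure.isAddLeftInvariant_eq_smul _ _
  refine ⟨c, by exact_mod_cast hc0, fun S => ?_⟩
  have h2 : volume {y : Fin n → ℝ | L.symm y ∈ S} =
      c • Measure.map L (volume : Measure (E n)) {y : Fin n → ℝ | L.symm y ∈ S} := by
    conv_lhs => rw [h1]
    rfl
  have h4 : Measure.map (⇑L) (volume : Measure (E n)) {y : Fin n → ℝ | L.symm y ∈ S} =
      volume ((⇑L) ⁻¹' {y : Fin n → ℝ | L.symm y ∈ S}) :=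
    L.toHomeomorph.measurableEmbedding.map_apply _ _
  have h3 : (⇑L) ⁻¹' {y : Fin n → ℝ | L.symm y ∈ S} = S := by
    ext x
    show L.symm (L x) ∈ S ↔ x ∈ S
    rw [L.symm_apply_apply]
  rw [h2, h4, h3, ENNReal.smul_def, smul_eq_mul, ENNReal.ofReal_coe_nnreal]

end Pool.Agent.V11222.KM
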