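import Pool.Agent.V11222.KM.Loc

/-!
Functions whose superlevel sets are closed under an order operation: weak type estimates.
-/

set_option autoImplicit false

namespace Pool.Agent.V11222.KM

open Set Filter Topology MeasureTheory Metric
open scoped ENNReal

/-- A level of a large integral. -/
theorem level {g : ℝ → ℝ≥0∞} (hg : Measurable g) (hfin : ∀ t, g t ≠ ∞) {lam : ℝ} (hlam : 0 < lam)
    {I : Set ℝ} (hI1 : volume I = 1)
    (h : ENNReal.ofReal lam < ∫⁻ t in I, g t) :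
    ∃ k : ℕ, (1 / 4 : ℝ) ^ (k + 1) ≤
      volume.real {t | t ∈ I ∧ ENNReal.ofReal (2 ^ k * lam / 2) < g t} := by
  by_contra hcon
  push Not at hcon
  have hpt : ∀ t, g t ≤ ENNReal.ofReal (lam / 2) +
      ∑' k : ℕ, {t | ENNReal.ofReal (2 ^ k * lam / 2) < g t}.indicator
        (fun _ => ENNReal.ofReal (2 ^ k * lam)) t := by
    intro t
    by_cases ht : g t ≤ ENNReal.ofReal (lam / 2)
    · exact ht.trans le_self_add
    · push Not at ht
      have hex : ∃ k : ℕ, g t ≤ ENNReal.ofReal (2 ^ (k + 1) * lam / 2) := by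
        obtain ⟨k, hk⟩ := pow_unbounded_of_one_lt ((g t).toReal / lam) (by norm_num : (1 : ℝ) < 2)
        refine ⟨k, ?_⟩
        rw [← ENNReal.ofReal_toReal (hfin t)]
        refine ENNReal.ofReal_le_ofReal ?_
        rw [div_lt_iff₀ hlam] at hk
        have : (2 : ℝ) ^ (k + 1) * lam / 2 = 2 ^ k * lam := by ring
        rw [this]; exact hk.le
      classical
      obtain ⟨k, hk, hmin⟩ : ∃ k : ℕ, g t ≤ ENNReal.ofReal (2 ^ (k + 1) * lam / 2) ∧
          ∀ j < k, ¬ g t ≤ ENNReal.ofReal (2 ^ (j + 1) * lam / 2) :=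
        ⟨Nat.find hex, Nat.find_spec hex, fun j hj => Nat.find_min hex hj⟩
      have hlt : ENNReal.ofReal (2 ^ k * lam / 2) < g t := by
        rcases k with _ | j
        · simpa using ht
        · exact not_le.1 (hmin j (by omega))
      have h1 : g t ≤ ENNReal.ofReal (2 ^ k * lam) := by
        have : (2 : ℝ) ^ (k + 1) * lam / 2 = 2 ^ k * lam := by ring
        rwa [this] at hk
      refine le_trans ?_ le_add_self
      refine le_trans ?_ (ENNReal.le_tsum k)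
      rw [indicator_of_mem (show t ∈ {t | ENNReal.ofReal (2 ^ k * lam / 2) < g t} from hlt)]
      exact h1
  have hSm : ∀ k : ℕ, MeasurableSet {t | ENNReal.ofReal (2 ^ k * lam / 2) < g t} := fun k =>
    measurableSet_lt measurable_const hg
  have h1 : ∫⁻ t in I, g t ≤ ENNReal.ofReal (lam / 2) +
      ∑' k : ℕ, ENNReal.ofReal (2 ^ k * lam) *
        volume {t | t ∈ I ∧ ENNReal.ofReal (2 ^ k * lam / 2) < g t} := by
    refine (lintegral_mono hpt).trans ?_
    rw [lintegral_add_left measurable_const, setLIntegral_const, hI1, mul_one,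
      lintegral_tsum fun k => (measurable_const.indicator (hSm k)).aemeasurable]
    refine add_le_add le_rfl (le_of_eq ?_)
    congr 1
    funext k
    rw [lintegral_indicator_const (hSm k), Measure.restrict_apply (hSm k)]
    congr 2
    ext t
    exact and_comm
  have h2 : ∀ k : ℕ, ENNReal.ofReal (2 ^ k * lam) *
        volume {t | t ∈ I ∧ ENNReal.ofReal (2 ^ k * lam / 2) < g t} ≤
        ENNReal.ofReal (lam / 4 * (1 / 2) ^ k) := by
    intro k
    have hf : volume {t | t ∈ I ∧ ENNReal.ofReal (2 ^ k * lam / 2) < g t} ≠ ∞ := by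
      refine ne_top_of_le_ne_top ?_ (measure_mono (fun t ht => ht.1 :
        {t | t ∈ I ∧ ENNReal.ofReal (2 ^ k * lam / 2) < g t} ⊆ I))
      rw [hI1]; norm_num
    rw [← ENNReal.ofReal_toReal hf, ← ENNReal.ofReal_mul (by positivity)]
    refine ENNReal.ofReal_le_ofReal ?_
    have h3 := (hcon k).le
    rw [measureReal_def] at h3
    calc 2 ^ k * lam * (volume {t | t ∈ I ∧ ENNReal.ofReal (2 ^ k * lam / 2) < g t}).toReal
        ≤ 2 ^ k * lam * (1 / 4) ^ (k + 1) := mul_le_mul_of_nonneg_left h3 (by positivity)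
      _ = lam / 4 * (1 / 2) ^ k := by
          have : (1 / 4 : ℝ) ^ k = (1 / 2) ^ k * (1 / 2) ^ k := by rw [← mul_pow]; norm_num
          have h4 : (2 : ℝ) ^ k * (1 / 2) ^ k = 1 := by rw [← mul_pow]; norm_num
          rw [pow_succ, this]
          calc 2 ^ k * lam * ((1 / 2) ^ k * (1 / 2) ^ k * (1 / 4))
              = ((2 : ℝ) ^ k * (1 / 2) ^ k) * (lam / 4 * (1 / 2) ^ k) := by ring
            _ = _ := by rw [h4, one_mul]
  have h3 : ∑' k : ℕ, ENNReal.ofReal (lam / 4 * (1 / 2) ^ k) = ENNReal.ofReal (lam / 2) := by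
    rw [← ENNReal.ofReal_tsum_of_nonneg (fun k => by positivity)
      (summable_geometric_two.mul_left _), tsum_mul_left, tsum_geometric_two]
    congr 1; ring
  have h4 := h.trans_le (h1.trans (add_le_add le_rfl ((ENNReal.tsum_le_tsum h2).trans h3.le)))
  rw [← ENNReal.ofReal_add (by positivity) (by positivity), add_halves] at h4
  exact lt_irrefl _ h4

theorem weak (m : ℕ) : ∃ C : ℕ, 1 ≤ C ∧ ∀ L : E (m + 1) ≃L[ℝ] (Fin (m + 1) → ℝ),
    (∀ x l, |L x l| ≤ ‖x‖ / 2) → ∃ c : ℝ, 0 < c ∧ ∀ R ρ : ℝ, 1 ≤ R → 0 < ρ → ρ ≤ 1 →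
      ∀ f : E (m + 1) → ℝ≥0∞, Measurable f → (∀ x, f x ≠ ∞) → (∀ x, R < ‖x‖ → f x = 0) →
      (∀ s : ℝ, 0 < s → LCl ρ {y | L.symm y ∈ {x | ENNReal.ofReal s < f x}}) →
      ∀ Q : ℕ, 3 ≤ Q → ∀ N M : ℝ, 0 ≤ N → 0 ≤ M → ∫⁻ x, f x ^ (C * Q) ≤ ENNReal.ofReal N →
        N ≤ c * M ^ C → ∀ lam : ℝ, 0 < lam →
        (volume : Measure (E (m + 1))).toSphere {e | ENNReal.ofReal lam < lmax f e} ≤
          ENNReal.ofReal (8 * 2 ^ Q * (R / ρ * M) / lam ^ Q) := by
  obtain ⟨C, hC1, hC⟩ := restrictedLoc m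
  refine ⟨C, hC1, fun L hL => ?_⟩
  obtain ⟨c, hc, hres⟩ := hC L hL
  refine ⟨c, hc, ?_⟩
  intro R ρ hR hρ hρ1 f hf hfin hsupp hcl Q hQ N M hN hM hfN hNM lam hlam
  obtain ⟨σ, hσ⟩ : ∃ σ : Measure (sphere (0 : E (m + 1)) 1),
    σ = (volume : Measure (E (m + 1))).toSphere := ⟨_, rfl⟩
  have hσf : IsFiniteMeasure σ := by rw [hσ]; infer_instance
  rw [← hσ]
  have hR0 : 0 < R := by linarith
  obtain ⟨X, hX⟩ : ∃ X : ℝ, X = R / ρ := ⟨_, rfl⟩
  have hX0 : 0 < X := by rw [hX]; positivity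
  rw [← hX]
  obtain ⟨S, hS⟩ : ∃ S : ℕ → Set (E (m + 1)), S = fun k => {x | ENNReal.ofReal (2 ^ k * lam / 2) < f x} :=
    ⟨_, rfl⟩
  have hSm : ∀ k, MeasurableSet (S k) := fun k => by
    rw [hS]; exact measurableSet_lt measurable_const hf
  obtain ⟨Ω, hΩ⟩ : ∃ Ω : ℕ → Set (sphere (0 : E (m + 1)) 1), Ω = fun k =>
      {e : sphere (0 : E (m + 1)) 1 | ∃ a : E (m + 1),
      (1 / 4 : ℝ) ^ (k + 1) ≤ volume.real {t : ℝ | t ∈ Icc (-(1 / 2) : ℝ) (1 / 2) ∧
        a + t • (e : E (m + 1)) ∈ S k}} := ⟨_, rfl⟩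
  have hI : volume (Icc (-(1 / 2) : ℝ) (1 / 2)) = 1 := by rw [Real.volume_Icc]; norm_num
  have hcov : {e : sphere (0 : E (m + 1)) 1 | ENNReal.ofReal lam < lmax f e} ⊆ ⋃ k, Ω k := by
    intro e he
    have he' : ENNReal.ofReal lam < lmax f e := he
    rw [lmax, lt_iSup_iff] at he'
    obtain ⟨a, ha⟩ := he'
    obtain ⟨k, hk⟩ := level (g := fun t => f (a + t • (e : E (m + 1))))
      (hf.comp (by fun_prop)) (fun t => hfin _) hlam hI ha
    refine mem_iUnion.2 ⟨k, ?_⟩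
    rw [hΩ]
    refine ⟨a, ?_⟩
    rw [hS]; exact hk
  have hk : ∀ k, σ (Ω k) ≤ ENNReal.ofReal (4 * 2 ^ Q * (X * M) / lam ^ Q * (1 / 2) ^ k) := by
    intro k
    have hSR : S k ⊆ closedBall 0 R := by
      intro x hx
      rw [mem_closedBall_zero_iff]
      by_contra hcon
      push Not at hcon
      rw [hS] at hx
      have h1 : ENNReal.ofReal (2 ^ k * lam / 2) < f x := hx
      rw [hsupp x hcon] at h1
      exact not_lt_zero h1
    have hclk : LCl ρ {y | L.symm y ∈ S k} := by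
      rw [hS]; exact hcl _ (by positivity)
    have h1 := hres R ρ hR hρ hρ1 (S k) (hSm k) hSR hclk (Ω k) ((1 / 4) ^ (k + 1)) (by positivity)
      (pow_le_one₀ (by norm_num) (by norm_num)) (by intro e he; rw [hΩ] at he; exact he)
    rw [← hσ, ← hX] at h1
    -- Chebyshev
    have hτ : (0 : ℝ) < 2 ^ k * lam / 2 := by positivity
    have h2 : (2 ^ k * lam / 2) ^ (C * Q) * volume.real (S k) ≤ N := by
      have h3 := mul_meas_ge_le_lintegral (μ := volume) (hf.pow_const (C * Q))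
        (ENNReal.ofReal ((2 ^ k * lam / 2) ^ (C * Q)))
      have h4 : ENNReal.ofReal ((2 ^ k * lam / 2) ^ (C * Q)) * volume (S k) ≤ ENNReal.ofReal N := by
        refine le_trans (mul_le_mul' le_rfl (measure_mono ?_)) (h3.trans hfN)
        intro x hx
        rw [hS] at hx
        have h5 : ENNReal.ofReal (2 ^ k * lam / 2) < f x := hx
        show ENNReal.ofReal ((2 ^ k * lam / 2) ^ (C * Q)) ≤ f x ^ (C * Q)
        rw [ENNReal.ofReal_pow hτ.le]
        exact pow_le_pow_left' h5.le _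
      have h6 := ENNReal.toReal_mono ENNReal.ofReal_ne_top h4
      rwa [ENNReal.toReal_mul, ENNReal.toReal_ofReal (by positivity),
        ENNReal.toReal_ofReal hN] at h6
    obtain ⟨τ, hτe⟩ : ∃ τ : ℝ, τ = 2 ^ k * lam / 2 := ⟨_, rfl⟩
    rw [← hτe] at h2 hτ
    obtain ⟨w, hw⟩ : ∃ w : ℝ, w = σ.real (Ω k) := ⟨_, rfl⟩
    have hw0 : 0 ≤ w := by rw [hw]; exact measureReal_nonneg
    rw [← hw] at h1
    have h3 : ((1 / 4 : ℝ) ^ (k + 1) * w / X * τ ^ Q) ^ C ≤ M ^ C := by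
      have h4 : c * ((1 / 4 : ℝ) ^ (k + 1) * w / X * τ ^ Q) ^ C ≤ c * M ^ C := by
        calc c * ((1 / 4 : ℝ) ^ (k + 1) * w / X * τ ^ Q) ^ C
            = τ ^ (C * Q) * (c * ((1 / 4 : ℝ) ^ (k + 1) * w / X) ^ C) := by
              rw [mul_pow _ (τ ^ Q), ← pow_mul τ Q C, mul_comm Q C]; ring
          _ ≤ τ ^ (C * Q) * volume.real (S k) := mul_le_mul_of_nonneg_left h1 (by positivity)
          _ ≤ N := h2
          _ ≤ c * M ^ C := hNM
      exact le_of_mul_le_mul_left h4 hc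
    have h4 : (1 / 4 : ℝ) ^ (k + 1) * w / X * τ ^ Q ≤ M :=
      le_of_pow_le_pow_left₀ (by omega) hM h3
    have h5 : w ≤ 4 * 2 ^ Q * (X * M) / lam ^ Q * (1 / 2) ^ k := by
      have e1 : (1 / 4 : ℝ) ^ (k + 1) = (1 / 4) * ((1 / 2) ^ k * (1 / 2) ^ k) := by
        rw [← mul_pow, pow_succ]; norm_num; ring
      have e2 : τ ^ Q = (2 ^ k) ^ Q * lam ^ Q / 2 ^ Q := by rw [hτe, div_pow, mul_pow]
      have e3 : ((2 : ℝ) ^ k) ^ 3 ≤ (2 ^ k) ^ Q :=
        pow_le_pow_right₀ (one_le_pow₀ (by norm_num)) hQ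
      have e4 : (1 / 2 : ℝ) ^ k = 1 / 2 ^ k := by rw [div_pow, one_pow]
      rw [e1, e2, e4] at h4
      have e5 : 1 / 4 * (1 / (2 : ℝ) ^ k * (1 / 2 ^ k)) * w / X * ((2 ^ k) ^ 3 * lam ^ Q / 2 ^ Q) ≤ M := by
        refine le_trans ?_ h4
        refine mul_le_mul_of_nonneg_left ?_ (by positivity)
        refine div_le_div_of_nonneg_right ?_ (by positivity)
        exact mul_le_mul_of_nonneg_right e3 (by positivity)
      have e6 : 1 / 4 * (1 / (2 : ℝ) ^ k * (1 / 2 ^ k)) * w / X * ((2 ^ k) ^ 3 * lam ^ Q / 2 ^ Q) =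
          w * (2 ^ k * lam ^ Q) / (4 * X * 2 ^ Q) := by field_simp
      rw [e6, div_le_iff₀ (by positivity)] at e5
      rw [e4, mul_one_div, div_div, le_div_iff₀ (by positivity)]
      calc w * (lam ^ Q * 2 ^ k) = w * (2 ^ k * lam ^ Q) := by ring
        _ ≤ M * (4 * X * 2 ^ Q) := e5
        _ = 4 * 2 ^ Q * (X * M) := by ring
    rw [← ENNReal.ofReal_toReal (measure_ne_top σ (Ω k)), ← measureReal_def, ← hw]
    exact ENNReal.ofReal_le_ofReal h5
  refine (measure_mono hcov).trans ((measure_iUnion_le _).trans ((ENNReal.tsum_le_tsum hk).trans ?_))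
  rw [← ENNReal.ofReal_tsum_of_nonneg (fun k => by positivity)
    (summable_geometric_two.mul_left _), tsum_mul_left, tsum_geometric_two]
  refine ENNReal.ofReal_le_ofReal (le_of_eq ?_)
  ring

end Pool.Agent.V11222.KM
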