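import Pool.Agent.V11222.KM.Fun

/-!
Functions whose superlevel sets are closed under an order operation: strong type estimates.
-/

set_option autoImplicit false

namespace Pool.Agent.V11222.KM

open Set Filter Topology MeasureTheory Metric
open scoped ENNReal

theorem strong {X : Type*} [MeasurableSpace X] (σ : Measure X) [IsFiniteMeasure σ]
    {F : X → ℝ≥0∞} {K1 A : ℝ} (hK1 : 0 ≤ K1) (hA : 0 < A) {Q : ℕ} {q : ℝ} (hq : 1 ≤ q)
    (hQ : q + 1 ≤ Q)
    (h : ∀ lam : ℝ, 0 < lam → σ {x | ENNReal.ofReal lam < F x} ≤ ENNReal.ofReal (K1 * (A / lam) ^ Q)) :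
    ∫⁻ x, F x ^ q ∂σ ≤ ENNReal.ofReal (A ^ q * (σ.real univ + 2 ^ (q + 1) * K1)) := by
  have hq0 : 0 < q := by linarith
  obtain ⟨H, hH⟩ : ∃ H : ℕ → Set X,
      H = fun j => toMeasurable σ {x | ENNReal.ofReal (2 ^ j * A) < F x} := ⟨_, rfl⟩
  have hHm : ∀ j, MeasurableSet (H j) := fun j => by rw [hH]; exact measurableSet_toMeasurable _ _
  have hHs : ∀ j x, ENNReal.ofReal (2 ^ j * A) < F x → x ∈ H j := by
    intro j x hx
    rw [hH]
    exact subset_toMeasurable σ {x | ENNReal.ofReal (2 ^ j * A) < F x} hx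
  have hpt : ∀ x, F x ^ q ≤ ENNReal.ofReal (A ^ q) +
      ∑' j : ℕ, (H j).indicator (fun _ => ENNReal.ofReal ((2 ^ (j + 1) * A) ^ q)) x := by
    intro x
    by_cases hx : F x ≤ ENNReal.ofReal A
    · refine le_trans ?_ le_self_add
      rw [← ENNReal.ofReal_rpow_of_pos hA]
      exact ENNReal.rpow_le_rpow hx hq0.le
    · push Not at hx
      refine le_trans ?_ le_add_self
      by_cases htop : F x = ∞
      · have h1 : ∀ j : ℕ, ENNReal.ofReal (A ^ q) ≤
            (H j).indicator (fun _ => ENNReal.ofReal ((2 ^ (j + 1) * A) ^ q)) x := by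
          intro j
          rw [indicator_of_mem (hHs j x (by rw [htop]; exact ENNReal.ofReal_lt_top))]
          refine ENNReal.ofReal_le_ofReal (Real.rpow_le_rpow hA.le ?_ hq0.le)
          exact le_mul_of_one_le_left hA.le (one_le_pow₀ (by norm_num))
        have h2 : ∑' _ : ℕ, ENNReal.ofReal (A ^ q) = ∞ := by
          refine ENNReal.tsum_const_eq_top_of_ne_zero ?_
          rw [ne_eq, ENNReal.ofReal_eq_zero, not_le]
          exact Real.rpow_pos_of_pos hA q
        have h3 := ENNReal.tsum_le_tsum h1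
        rw [h2, top_le_iff] at h3
        rw [h3]; exact le_top
      · have hex : ∃ k : ℕ, F x ≤ ENNReal.ofReal (2 ^ (k + 1) * A) := by
          obtain ⟨k, hk⟩ := pow_unbounded_of_one_lt ((F x).toReal / A) (by norm_num : (1 : ℝ) < 2)
          refine ⟨k, ?_⟩
          rw [← ENNReal.ofReal_toReal htop]
          refine ENNReal.ofReal_le_ofReal ?_
          rw [div_lt_iff₀ hA] at hk
          refine hk.le.trans (mul_le_mul_of_nonneg_right ?_ hA.le)
          exact pow_le_pow_right₀ (by norm_num) (by omega)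
        classical
        obtain ⟨k, hk, hmin⟩ : ∃ k : ℕ, F x ≤ ENNReal.ofReal (2 ^ (k + 1) * A) ∧
            ∀ j < k, ¬ F x ≤ ENNReal.ofReal (2 ^ (j + 1) * A) :=
          ⟨Nat.find hex, Nat.find_spec hex, fun j hj => Nat.find_min hex hj⟩
        have hlt : ENNReal.ofReal (2 ^ k * A) < F x := by
          rcases k with _ | j
          · simpa using hx
          · exact not_le.1 (hmin j (by omega))
        refine le_trans ?_ (ENNReal.le_tsum k)
        rw [indicator_of_mem (hHs k x hlt), ← ENNReal.ofReal_rpow_of_pos (by positivity)]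
        exact ENNReal.rpow_le_rpow hk hq0.le
  refine (lintegral_mono hpt).trans ?_
  rw [lintegral_add_left measurable_const, lintegral_const,
    lintegral_tsum fun j => (measurable_const.indicator (hHm j)).aemeasurable]
  have hterm : ∀ j : ℕ, ∫⁻ x, (H j).indicator
      (fun _ => ENNReal.ofReal ((2 ^ (j + 1) * A) ^ q)) x ∂σ ≤
      ENNReal.ofReal (A ^ q * K1 * 2 ^ q * (1 / 2) ^ j) := by
    intro j
    rw [lintegral_indicator_const (hHm j), hH]
    simp only
    rw [measure_toMeasurable]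
    refine (mul_le_mul' le_rfl (h (2 ^ j * A) (by positivity))).trans ?_
    rw [← ENNReal.ofReal_mul (by positivity)]
    refine ENNReal.ofReal_le_ofReal ?_
    obtain ⟨x, hx⟩ : ∃ x : ℝ, x = 2 ^ j := ⟨_, rfl⟩
    have hx1 : 1 ≤ x := by rw [hx]; exact one_le_pow₀ (by norm_num)
    have hx0 : 0 < x := by linarith
    have e1 : ((2 : ℝ) ^ (j + 1) * A) ^ q = 2 ^ q * x ^ q * A ^ q := by
      rw [pow_succ, ← hx, mul_comm x 2, Real.mul_rpow (by positivity) hA.le,
        Real.mul_rpow (by norm_num) hx0.le]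
    have e2 : A / (2 ^ j * A) = 1 / x := by rw [← hx]; field_simp
    have e3 : x ^ q ≤ x ^ Q / x := by
      have h1 : x ^ q ≤ x ^ ((Q : ℝ) - 1) := Real.rpow_le_rpow_of_exponent_le hx1 (by linarith)
      rwa [Real.rpow_sub_one hx0.ne', Real.rpow_natCast] at h1
    have e4 : (1 / 2 : ℝ) ^ j = 1 / x := by rw [hx, div_pow, one_pow]
    rw [e1, e2, e4, div_pow, one_pow]
    have h2 : x ^ q * (1 / x ^ Q) ≤ 1 / x := by
      calc x ^ q * (1 / x ^ Q) ≤ x ^ Q / x * (1 / x ^ Q) :=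
            mul_le_mul_of_nonneg_right e3 (by positivity)
        _ = 1 / x := by field_simp
    calc 2 ^ q * x ^ q * A ^ q * (K1 * (1 / x ^ Q))
        = (A ^ q * K1 * 2 ^ q) * (x ^ q * (1 / x ^ Q)) := by ring
      _ ≤ (A ^ q * K1 * 2 ^ q) * (1 / x) := mul_le_mul_of_nonneg_left h2 (by positivity)
  refine (add_le_add le_rfl (ENNReal.tsum_le_tsum hterm)).trans ?_
  rw [← ENNReal.ofReal_tsum_of_nonneg (fun k => by positivity)
    (summable_geometric_two.mul_left _), tsum_mul_left, tsum_geometric_two,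
    ← ENNReal.ofReal_toReal (measure_ne_top σ univ), ← ENNReal.ofReal_mul (by positivity),
    ← ENNReal.ofReal_add (by positivity) (by positivity), ← measureReal_def]
  refine ENNReal.ofReal_le_ofReal (le_of_eq ?_)
  rw [Real.rpow_add (by norm_num), Real.rpow_one]; ring

theorem main_lmax (m : ℕ) (q : ℝ) (hq : 1 ≤ q) : ∃ p : ℝ, 3 ≤ p ∧
    ∀ L : E (m + 1) ≃L[ℝ] (Fin (m + 1) → ℝ), (∀ x l, |L x l| ≤ ‖x‖ / 2) →
      ∃ K : ℝ, 0 < K ∧ ∀ R ρ : ℝ, 1 ≤ R → 0 < ρ → ρ ≤ 1 →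
      ∀ f : E (m + 1) → ℝ≥0∞, Measurable f → (∀ x, f x ≠ ∞) → (∀ x, R < ‖x‖ → f x = 0) →
      (∀ s : ℝ, 0 < s → LCl ρ {y | L.symm y ∈ {x | ENNReal.ofReal s < f x}}) →
      (∫⁻ e : sphere (0 : E (m + 1)) 1, lmax f e ^ q ∂(volume : Measure (E (m + 1))).toSphere) ^
        (1 / q) ≤ ENNReal.ofReal (K * (R / ρ)) * (∫⁻ x, f x ^ p) ^ (1 / p) := by
  obtain ⟨C, hC1, hC⟩ := weak m
  obtain ⟨Q, hQ⟩ : ∃ Q : ℕ, Q = ⌈q⌉₊ + 2 := ⟨_, rfl⟩
  have hq0 : 0 < q := by linarith
  have hQ3 : 3 ≤ Q := by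
    have : 0 < ⌈q⌉₊ := Nat.ceil_pos.2 hq0
    omega
  have hQq : q + 1 ≤ Q := by
    have := Nat.le_ceil q
    rw [hQ]; push_cast; linarith
  obtain ⟨p, hp⟩ : ∃ p : ℝ, p = ((C * Q : ℕ) : ℝ) := ⟨_, rfl⟩
  have hCQ : 1 ≤ C * Q := Nat.one_le_iff_ne_zero.2 (by positivity)
  have hp1 : 1 ≤ p := by rw [hp]; exact_mod_cast hCQ
  have hp0 : 0 < p := by linarith
  have hp3 : 3 ≤ p := by
    have h1 : Q ≤ C * Q := Nat.le_mul_of_pos_left Q (by omega)
    have h2 : (3 : ℝ) ≤ ((C * Q : ℕ) : ℝ) := by exact_mod_cast hQ3.trans h1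
    rw [hp]; exact h2
  refine ⟨p, hp3, fun L hL => ?_⟩
  obtain ⟨c, hc, hweak⟩ := hC L hL
  obtain ⟨σ, hσ⟩ : ∃ σ : Measure (sphere (0 : E (m + 1)) 1),
    σ = (volume : Measure (E (m + 1))).toSphere := ⟨_, rfl⟩
  have hσf : IsFiniteMeasure σ := by rw [hσ]; infer_instance
  obtain ⟨K3, hK3⟩ : ∃ K3 : ℝ, K3 = (σ.real univ + 2 ^ (q + 1) * (8 * 2 ^ Q)) ^ (1 / q) := ⟨_, rfl⟩
  have hs0 : 0 ≤ σ.real univ := measureReal_nonneg
  have hK30 : 0 < K3 := by rw [hK3]; positivity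
  refine ⟨K3 / c ^ (1 / p), by positivity, ?_⟩
  intro R ρ hR hρ hρ1 f hf hfin hsupp hcl
  rw [← hσ]
  obtain ⟨X, hX⟩ : ∃ X : ℝ, X = R / ρ := ⟨_, rfl⟩
  have hX1 : 1 ≤ X := by rw [hX, le_div_iff₀ hρ]; linarith
  have hX0 : 0 < X := by linarith
  rw [← hX]
  by_cases hJ : ∫⁻ x, f x ^ p = ∞
  · rw [hJ, ENNReal.top_rpow_of_pos (by positivity), ENNReal.mul_top]
    · exact le_top
    · rw [ne_eq, ENNReal.ofReal_eq_zero, not_le]; positivity
  obtain ⟨N, hN⟩ : ∃ N : ℝ, N = (∫⁻ x, f x ^ p).toReal := ⟨_, rfl⟩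
  have hN0 : 0 ≤ N := by rw [hN]; exact ENNReal.toReal_nonneg
  have hJN : ∫⁻ x, f x ^ p = ENNReal.ofReal N := by rw [hN, ENNReal.ofReal_toReal hJ]
  obtain ⟨B, hB⟩ : ∃ B : ℝ, B = (N / c) ^ (1 / p) := ⟨_, rfl⟩
  have hB0 : 0 ≤ B := by rw [hB]; positivity
  have hBp : B ^ (C * Q) = N / c := by
    rw [hB, ← Real.rpow_natCast, ← hp, ← Real.rpow_mul (by positivity), one_div,
      inv_mul_cancel₀ hp0.ne', Real.rpow_one]
  have hfN : ∫⁻ x, f x ^ (C * Q) ≤ ENNReal.ofReal N := by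
    rw [← hJN]
    refine le_of_eq (lintegral_congr fun x => ?_)
    rw [hp, ENNReal.rpow_natCast]
  have hkey : ∀ A : ℝ, X * B < A →
      (∫⁻ e : sphere (0 : E (m + 1)) 1, lmax f e ^ q ∂σ) ^ (1 / q) ≤ ENNReal.ofReal (A * K3) := by
    intro A hA
    have hA0 : 0 < A := lt_of_le_of_lt (by positivity) hA
    have h1 : ∀ lam : ℝ, 0 < lam → σ {e | ENNReal.ofReal lam < lmax f e} ≤
        ENNReal.ofReal (8 * 2 ^ Q * (A / lam) ^ Q) := by
      intro lam hlam
      have h2 := hweak R ρ hR hρ hρ1 f hf hfin hsupp hcl Q hQ3 N (B ^ Q) hN0 (by positivity) hfN (by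
        rw [← pow_mul, mul_comm Q C, hBp]
        rw [mul_div_cancel₀ _ hc.ne']) lam hlam
      rw [← hσ, ← hX] at h2
      refine h2.trans (ENNReal.ofReal_le_ofReal ?_)
      rw [div_pow, mul_div_assoc]
      refine mul_le_mul_of_nonneg_left ?_ (by positivity)
      refine div_le_div_of_nonneg_right ?_ (by positivity)
      calc X * B ^ Q ≤ X ^ Q * B ^ Q := by
            refine mul_le_mul_of_nonneg_right ?_ (by positivity)
            exact le_self_pow₀ hX1 (by omega)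
        _ = (X * B) ^ Q := by rw [mul_pow]
        _ ≤ A ^ Q := pow_le_pow_left₀ (by positivity) hA.le _
    have h2 := strong σ (by positivity) hA0 hq hQq h1
    have h3 := ENNReal.rpow_le_rpow h2 (show 0 ≤ 1 / q by positivity)
    refine h3.trans (le_of_eq ?_)
    rw [ENNReal.ofReal_rpow_of_nonneg (by positivity) (by positivity),
      Real.mul_rpow (by positivity) (by positivity), ← hK3, ← Real.rpow_mul hA0.le,
      mul_one_div, div_self hq0.ne', Real.rpow_one]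
  have hlim : (∫⁻ e : sphere (0 : E (m + 1)) 1, lmax f e ^ q ∂σ) ^ (1 / q) ≤
      ENNReal.ofReal (X * B * K3) := by
    refine ENNReal.le_of_forall_pos_le_add fun ε hε _ => ?_
    have h1 := hkey (X * B + ε / K3) (by
      have : (0 : ℝ) < ε / K3 := div_pos (by exact_mod_cast hε) hK30
      linarith)
    refine h1.trans (le_of_eq ?_)
    rw [add_mul, div_mul_cancel₀ _ hK30.ne', ENNReal.ofReal_add (by positivity) (by positivity),
      ENNReal.ofReal_coe_nnreal]
  refine hlim.trans (le_of_eq ?_)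
  rw [hJN, ENNReal.ofReal_rpow_of_nonneg hN0 (by positivity), ← ENNReal.ofReal_mul (by positivity)]
  congr 1
  rw [hB, Real.div_rpow hN0 hc.le]
  ring

end Pool.Agent.V11222.KM
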