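import Pool.Agent.V11222.KM.Main

/-!
From a set of directions to finite families.
-/

set_option autoImplicit false

namespace Pool.Agent.V11222.KM

open Set Filter Topology MeasureTheory
open scoped ENNReal

theorem int_count (F : Finset ℤ) (α ρ : ℝ) (hρ : 0 ≤ ρ) (h : ∀ z ∈ F, |(z : ℝ) - α| ≤ ρ) :
    (F.card : ℝ) ≤ 2 * ρ + 1 := by
  have h1 : F ⊆ Finset.Icc ⌈α - ρ⌉ ⌊α + ρ⌋ := by
    intro z hz
    have := abs_le.1 (h z hz)
    rw [Finset.mem_Icc, Int.ceil_le, Int.le_floor]
    constructor <;> linarith [this.1, this.2]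
  have h2 := Finset.card_le_card h1
  rw [Int.card_Icc] at h2
  have h3 : (F.card : ℝ) ≤ (((⌊α + ρ⌋ + 1 - ⌈α - ρ⌉).toNat : ℕ) : ℝ) := by exact_mod_cast h2
  refine h3.trans ?_
  rcases le_total 0 (⌊α + ρ⌋ + 1 - ⌈α - ρ⌉) with h4 | h4
  · have h5 : (((⌊α + ρ⌋ + 1 - ⌈α - ρ⌉).toNat : ℕ) : ℝ) = ((⌊α + ρ⌋ + 1 - ⌈α - ρ⌉ : ℤ) : ℝ) := by
      exact_mod_cast Int.toNat_of_nonneg h4
    rw [h5]
    push_cast
    have := Int.floor_le (α + ρ)
    have := Int.le_ceil (α - ρ)
    linarith
  · rw [Int.toNat_of_nonpos h4]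
    push_cast; linarith

theorem fib_count {ι : Type} [Fintype ι] [DecidableEq ι] {j k : ι} (hjk : j ≠ k)
    (S : Finset (ι → ℤ)) (q : ℕ) (hq : ∀ z ∈ S, ∀ l, z l ∈ Finset.Icc (-(q : ℤ)) q) (r ρ : ℝ)
    (hρ : 0 ≤ ρ) (h : ∀ z ∈ S, |(z k : ℝ) - z j * r| ≤ ρ) :
    (S.card : ℝ) ≤ (2 * ρ + 1) * (2 * q + 1) ^ (Fintype.card ι - 1) := by
  classical
  obtain ⟨f, hf⟩ : ∃ f : (ι → ℤ) → (ι → ℤ), f = fun z => Function.update z k 0 := ⟨_, rfl⟩
  have h1 : S.card ≤ ⌊2 * ρ + 1⌋₊ * (S.image f).card := by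
    refine Finset.card_le_mul_card_image S _ fun b _ => ?_
    refine Nat.le_floor ?_
    have hinj : ((S.filter fun z => f z = b).image fun z => z k).card =
        (S.filter fun z => f z = b).card := by
      refine Finset.card_image_of_injOn ?_
      intro z hz z' hz' hzz
      have e1 := (Finset.mem_filter.1 (Finset.mem_coe.1 hz)).2
      have e2 := (Finset.mem_filter.1 (Finset.mem_coe.1 hz')).2
      rw [hf] at e1 e2
      funext l
      by_cases hl : l = k
      · rw [hl]; exact hzz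
      · have := congrFun (e1.trans e2.symm) l
        simpa [Function.update_of_ne hl] using this
    rw [← hinj]
    refine int_count _ ((b j : ℝ) * r) ρ hρ ?_
    intro y hy
    obtain ⟨z, hz, rfl⟩ := Finset.mem_image.1 hy
    obtain ⟨hzS, hzb⟩ := Finset.mem_filter.1 hz
    have : b j = z j := by
      rw [← hzb, hf]; simp [Function.update_of_ne hjk]
    rw [this]
    exact h z hzS
  have h2 : (S.image f).card ≤ (2 * q + 1) ^ (Fintype.card ι - 1) := by
    have h3 : S.image f ⊆ Fintype.piFinset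
        (fun l => if l = k then ({0} : Finset ℤ) else Finset.Icc (-(q : ℤ)) q) := by
      intro y hy
      obtain ⟨z, hz, rfl⟩ := Finset.mem_image.1 hy
      rw [Fintype.mem_piFinset]
      intro l
      rw [hf]
      by_cases hl : l = k
      · subst hl; simp
      · rw [if_neg hl]
        simpa [Function.update_of_ne hl] using hq z hz l
    refine (Finset.card_le_card h3).trans (le_of_eq ?_)
    rw [Fintype.card_piFinset, ← Finset.mul_prod_erase Finset.univ _ (Finset.mem_univ k), if_pos rfl,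
      Finset.card_singleton, one_mul]
    have h4 : ∀ l ∈ Finset.univ.erase k,
        (if l = k then ({0} : Finset ℤ) else Finset.Icc (-(q : ℤ)) q).card = 2 * q + 1 := by
      intro l hl
      rw [if_neg (Finset.ne_of_mem_erase hl), Int.card_Icc]
      omega
    rw [Finset.prod_congr rfl h4, Finset.prod_const, Finset.card_erase_of_mem (Finset.mem_univ k),
      Finset.card_univ]
  have h5 : (S.card : ℝ) ≤ (⌊2 * ρ + 1⌋₊ : ℝ) * ((2 * q + 1) ^ (Fintype.card ι - 1) : ℕ) := by
    exact_mod_cast h1.trans (Nat.mul_le_mul_left _ h2)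
  refine h5.trans ?_
  push_cast
  exact mul_le_mul_of_nonneg_right (Nat.floor_le (by positivity)) (by positivity)

end Pool.Agent.V11222.KM
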