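import Pool.Agent.V11222.KM.Grid

/-!
From a set of directions to finite families: the main estimate for sets closed under maxima.
-/

set_option autoImplicit false

namespace Pool.Agent.V11222.KM

open Set Filter Topology MeasureTheory
open scoped ENNReal

theorem numer1 {n m : ℕ} (hm : 1 ≤ m) (hmn : m ≤ n) {κ : ℝ} (hκ : 0 < κ) (hκ2 : κ ≤ 1 / 2) :
    10 * 3 ^ (m - 1) * κ ^ (2 * n + 2) ≤ 1 := by
  obtain ⟨k, rfl⟩ : ∃ k, m = k + 1 := ⟨m - 1, by omega⟩
  have h1 : (3 : ℝ) ^ k * 3 ≤ 4 ^ n := by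
    calc (3 : ℝ) ^ k * 3 = 3 ^ (k + 1) := by ring
      _ ≤ 3 ^ n := pow_le_pow_right₀ (by norm_num) hmn
      _ ≤ 4 ^ n := pow_le_pow_left₀ (by norm_num) (by norm_num) _
  have h2 : κ ^ (2 * n + 2) ≤ (1 / 4) ^ n / 4 := by
    have e : (1 / 4 : ℝ) ^ n / 4 = (1 / 2) ^ (2 * n + 2) := by
      rw [pow_add, pow_mul]; norm_num; ring
    rw [e]
    exact pow_le_pow_left₀ hκ.le hκ2 _
  have h3 : (4 : ℝ) ^ n * (1 / 4) ^ n = 1 := by rw [← mul_pow]; norm_num
  have h4 : (0 : ℝ) < (1 / 4) ^ n := by positivity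
  have h0 : (0 : ℝ) < 3 ^ k := by positivity
  calc 10 * (3 : ℝ) ^ (k + 1 - 1) * κ ^ (2 * n + 2) = 10 * 3 ^ k * κ ^ (2 * n + 2) := by
        rw [Nat.add_sub_cancel]
    _ ≤ 10 * 3 ^ k * ((1 / 4) ^ n / 4) := mul_le_mul_of_nonneg_left h2 (by positivity)
    _ = (3 ^ k * 3) * (1 / 4) ^ n * (10 / 12) := by ring
    _ ≤ 4 ^ n * (1 / 4) ^ n * (10 / 12) :=
        mul_le_mul_of_nonneg_right (mul_le_mul_of_nonneg_right h1 h4.le) (by norm_num)
    _ ≤ 1 := by rw [h3]; norm_num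

theorem numer2 (n : ℕ) {κ : ℝ} (hκ : 0 < κ) (hκ2 : κ ≤ 1 / 2) :
    (n : ℝ) * (2 ^ n * κ ^ (2 * n + 2)) ≤ κ / 2 := by
  have h1 : (n : ℝ) ≤ 2 ^ n := by exact_mod_cast n.lt_two_pow_self.le
  have h2 : (2 : ℝ) ^ n * κ ^ n ≤ 1 := by
    rw [← mul_pow]; exact pow_le_one₀ (by positivity) (by linarith)
  have h3 : (0 : ℝ) ≤ 2 ^ n * κ ^ n := by positivity
  calc (n : ℝ) * (2 ^ n * κ ^ (2 * n + 2)) ≤ 2 ^ n * (2 ^ n * κ ^ (2 * n + 2)) :=
        mul_le_mul_of_nonneg_right h1 (by positivity)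
    _ = (2 ^ n * κ ^ n) * (2 ^ n * κ ^ n) * (κ * κ) := by ring
    _ ≤ 1 * (κ * κ) := mul_le_mul_of_nonneg_right (by nlinarith) (by positivity)
    _ ≤ κ / 2 := by nlinarith

theorem slab {ι : Type} [Fintype ι] [DecidableEq ι] {n : ℕ} (hcard : Fintype.card ι ≤ n)
    {κ : ℝ} (hκ : 0 < κ) (l : ι) :
    volume {v : ι → ℝ | |v l| ≤ κ ∧ ∀ m, |v m| ≤ 1} ≤ ENNReal.ofReal (2 ^ n * κ) := by
  have h1 : {v : ι → ℝ | |v l| ≤ κ ∧ ∀ m, |v m| ≤ 1} ⊆
      Set.pi univ fun m => if m = l then Icc (-κ) κ else Icc (-1) 1 := by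
    intro v hv m _
    show v m ∈ (if m = l then Icc (-κ) κ else Icc (-1) 1)
    split_ifs with h
    · rw [h]; exact abs_le.1 hv.1
    · exact abs_le.1 (hv.2 m)
  refine (measure_mono h1).trans ?_
  rw [volume_pi_pi, ← Finset.mul_prod_erase Finset.univ _ (Finset.mem_univ l), if_pos rfl]
  have h2 : ∀ m ∈ Finset.univ.erase l,
      volume (if m = l then Icc (-κ) κ else Icc (-1 : ℝ) 1) = ENNReal.ofReal 2 := by
    intro m hm
    rw [if_neg (Finset.ne_of_mem_erase hm), Real.volume_Icc]; norm_num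
  rw [Finset.prod_congr rfl h2, Finset.prod_const, Real.volume_Icc,
    Finset.card_erase_of_mem (Finset.mem_univ l), Finset.card_univ,
    ← ENNReal.ofReal_pow (by norm_num), ← ENNReal.ofReal_mul (by linarith)]
  refine ENNReal.ofReal_le_ofReal ?_
  obtain ⟨k, hk⟩ : ∃ k, Fintype.card ι = k + 1 :=
    ⟨Fintype.card ι - 1, by have := Fintype.card_pos_iff.2 ⟨l⟩; omega⟩
  rw [hk, Nat.add_sub_cancel]
  have : (2 : ℝ) ^ (k + 1) ≤ 2 ^ n := pow_le_pow_right₀ (by norm_num) (hk ▸ hcard)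
  calc (κ - -κ) * 2 ^ k = 2 ^ (k + 1) * κ := by ring
    _ ≤ _ := mul_le_mul_of_nonneg_right this hκ.le

theorem cell_vol {ι : Type} [Fintype ι] (q : ℕ) (hq : 0 < q) (z : ι → ℤ) :
    volume (Set.pi univ fun l => Icc ((z l : ℝ) / q) ((z l + 1) / q)) =
      ENNReal.ofReal (1 / (q : ℝ) ^ Fintype.card ι) := by
  have hq' : (0 : ℝ) < q := by exact_mod_cast hq
  rw [volume_pi_pi]
  simp only [Real.volume_Icc]
  have h : ∀ l, ((z l : ℝ) + 1) / q - (z l : ℝ) / q = 1 / q := fun l => by field_simp; ring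
  simp only [h]
  rw [Finset.prod_const, Finset.card_univ, ← ENNReal.ofReal_pow (by positivity)]
  congr 1
  rw [div_pow, one_pow]

theorem grid_main (n : ℕ) : ∃ C : ℕ, ∀ κ : ℝ, 0 < κ → κ ≤ 1 / 2 →
    ∀ (ι : Type) [Fintype ι] [DecidableEq ι] [Nonempty ι], Fintype.card ι ≤ n →
    ∀ E : Set (ι → ℝ), MeasurableSet E → (∀ x ∈ E, ∀ y ∈ E, x ⊔ y ∈ E) →
    ∀ V : Set (ι → ℝ), (∀ v ∈ V, ∀ l, |v l| ≤ 1) →
      (∀ v ∈ V, ∃ a : ι → ℝ, (∀ l, |a l| ≤ 1 / κ) ∧
        κ ≤ volume.real {t : ℝ | t ∈ Icc (0 : ℝ) 1 ∧ (fun l => a l + v l * t) ∈ E}) →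
      ENNReal.ofReal κ ≤ volume V → ENNReal.ofReal (κ ^ C) ≤ volume E := by
  classical
  obtain ⟨C, hC⟩ := claim_all n
  refine ⟨(4 * n + 5) * C, fun κ hκ hκ2 ι _ _ _ hcard E hE hEs V hV1 hVa hVω => ?_⟩
  have hpw : ∀ c : ℕ, κ ^ (c + 1) ≤ κ := by
    intro c
    calc κ ^ (c + 1) = κ ^ c * κ := pow_succ _ _
      _ ≤ 1 * κ := mul_le_mul_of_nonneg_right (pow_le_one₀ hκ.le (by linarith)) hκ.le
      _ = κ := one_mul κ
  obtain ⟨m, hm⟩ : ∃ m, m = Fintype.card ι := ⟨_, rfl⟩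
  have hm1 : 1 ≤ m := by rw [hm]; exact Fintype.card_pos
  obtain ⟨κ1, hκ1⟩ : ∃ κ1 : ℝ, κ1 = κ ^ (2 * n + 2) := ⟨_, rfl⟩
  obtain ⟨κ', hκ'⟩ : ∃ κ' : ℝ, κ' = κ ^ (4 * n + 5) := ⟨_, rfl⟩
  have hκ10 : 0 < κ1 := by rw [hκ1]; positivity
  have hκ'0 : 0 < κ' := by rw [hκ']; positivity
  have hκ11 : κ1 ≤ κ := by rw [hκ1]; exact hpw (2 * n + 1)
  have hκ'1 : κ' ≤ κ := by rw [hκ']; exact hpw (4 * n + 4)
  have hκ'2 : κ' ≤ κ1 := by
    rw [hκ', hκ1]
    exact pow_le_pow_of_le_one hκ.le (by linarith) (by omega)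
  obtain ⟨δ0, hδ0, hcl⟩ := hC κ' hκ'0 (hκ'1.trans hκ2)
  obtain ⟨q, hq⟩ := exists_nat_gt (1 / δ0)
  have hq0 : (0 : ℝ) < q := lt_trans (by positivity) hq
  have hqN : 0 < q := by exact_mod_cast hq0
  have hq1 : (1 : ℝ) ≤ q := by exact_mod_cast hqN
  have hqδ : 1 / (q : ℝ) ≤ δ0 := by
    rw [div_lt_iff₀ hδ0] at hq
    rw [div_le_iff₀ hq0]; linarith
  -- the directions with large coordinates
  obtain ⟨V', hV'⟩ : ∃ V' : Set (ι → ℝ), V' = {v ∈ V | ∀ l, κ1 ≤ |v l|} := ⟨_, rfl⟩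
  have hV'v : ENNReal.ofReal (κ / 2) ≤ volume V' := by
    have h1 : V ⊆ V' ∪ ⋃ l ∈ (Finset.univ : Finset ι), {v : ι → ℝ | |v l| ≤ κ1 ∧ ∀ m, |v m| ≤ 1} := by
      intro v hv
      by_cases h : ∀ l, κ1 ≤ |v l|
      · left; rw [hV']; exact ⟨hv, h⟩
      · right
        push Not at h
        obtain ⟨l, hl⟩ := h
        exact mem_iUnion₂.2 ⟨l, Finset.mem_univ _, hl.le, hV1 v hv⟩
    have h2 : volume V ≤ volume V' + ENNReal.ofReal (κ / 2) := by
      refine (measure_mono h1).trans ((measure_union_le _ _).trans (add_le_add le_rfl ?_))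
      refine (measure_biUnion_finset_le _ _).trans
        ((Finset.sum_le_sum fun l _ => slab hcard hκ10 l).trans ?_)
      rw [Finset.sum_const, nsmul_eq_mul, Finset.card_univ, ← ENNReal.ofReal_natCast,
        ← ENNReal.ofReal_mul (by positivity)]
      refine ENNReal.ofReal_le_ofReal (le_trans ?_ (numer2 n hκ hκ2))
      rw [hκ1]
      exact mul_le_mul_of_nonneg_right (by exact_mod_cast hcard) (by positivity)
    have h3 := hVω.trans h2
    have h4 : ENNReal.ofReal (κ / 2) = ENNReal.ofReal κ / 2 := by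
      rw [ENNReal.ofReal_div_of_pos (by norm_num)]; simp
    rw [h4] at h3 ⊢
    exact half_le h3 ENNReal.ofReal_ne_top
  -- the grid
  obtain ⟨I, hI⟩ : ∃ I : Finset (ι → ℤ), I =
      (Fintype.piFinset fun _ : ι => Finset.Icc (-(q : ℤ)) q).filter
        fun z => ∃ v ∈ V', ∀ l, ⌊(q : ℝ) * v l⌋ = z l := ⟨_, rfl⟩
  have hIz : ∀ z ∈ I, ∃ v ∈ V', ∀ l, ⌊(q : ℝ) * v l⌋ = z l := by
    intro z hz; rw [hI] at hz; exact (Finset.mem_filter.1 hz).2
  have hIq : ∀ z ∈ I, ∀ l, z l ∈ Finset.Icc (-(q : ℤ)) q := by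
    intro z hz; rw [hI] at hz; exact Fintype.mem_piFinset.1 (Finset.mem_filter.1 hz).1
  choose! v hvV hvz using hIz
  have hVV : ∀ z ∈ I, v z ∈ V ∧ ∀ l, κ1 ≤ |v z l| := by
    intro z hz
    have := hvV z hz
    rw [hV'] at this; exact this
  have hexa : ∀ z ∈ I, ∃ a : ι → ℝ, (∀ l, |a l| ≤ 1 / κ) ∧
        κ ≤ volume.real {t : ℝ | t ∈ Icc (0 : ℝ) 1 ∧ (fun l => a l + v z l * t) ∈ E} :=
    fun z hz => hVa _ (hVV z hz).1
  choose! a ha1 ha2 using hexa
  have hIc : κ / 2 * (q : ℝ) ^ m ≤ (I.card : ℝ) := by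
    have h1 : V' ⊆ ⋃ z ∈ I, Set.pi univ fun l => Icc ((z l : ℝ) / q) ((z l + 1) / q) := by
      intro w hw
      have hw' : ∀ l, |w l| ≤ 1 := by rw [hV'] at hw; exact hV1 w hw.1
      refine mem_iUnion₂.2 ⟨fun l => ⌊(q : ℝ) * w l⌋, ?_, ?_⟩
      · rw [hI, Finset.mem_filter, Fintype.mem_piFinset]
        refine ⟨fun l => ?_, w, hw, fun l => rfl⟩
        have := abs_le.1 (hw' l)
        rw [Finset.mem_Icc]
        constructor
        · rw [Int.le_floor]; push_cast; nlinarith [this.1]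
        · have h2 : (⌊(q : ℝ) * w l⌋ : ℝ) ≤ q := (Int.floor_le _).trans (by nlinarith [this.2])
          exact_mod_cast h2
      · intro l _
        have e1 := Int.floor_le ((q : ℝ) * w l)
        have e2 := (Int.lt_floor_add_one ((q : ℝ) * w l)).le
        show _ ≤ w l ∧ w l ≤ _
        constructor
        · rw [div_le_iff₀ hq0]; linarith
        · rw [le_div_iff₀ hq0]; linarith
    have h2 : volume V' ≤ ENNReal.ofReal ((I.card : ℝ) * (1 / (q : ℝ) ^ m)) := by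
      refine (measure_mono h1).trans ((measure_biUnion_finset_le _ _).trans ?_)
      rw [Finset.sum_congr rfl fun z _ => cell_vol q hqN z, Finset.sum_const, nsmul_eq_mul,
        ENNReal.ofReal_mul (by positivity), ENNReal.ofReal_natCast, hm]
    have h3 := hV'v.trans h2
    rw [ENNReal.ofReal_le_ofReal_iff (by positivity)] at h3
    rw [mul_one_div, le_div_iff₀ (by positivity)] at h3
    exact h3
  have hFam : Fam κ' (1 / q) I a v
      (fun z => {t : ℝ | t ∈ Icc (0 : ℝ) 1 ∧ (fun l => a z l + v z l * t) ∈ E})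
      (E ∩ {x | ∀ l, |x l| ≤ 2 / κ'}) := by
    have h1κ : 1 / κ ≤ 1 / κ' := one_div_le_one_div_of_le hκ'0 hκ'1
    have h1 : 1 ≤ 1 / κ' := by rw [le_div_iff₀ hκ'0]; linarith
    refine ⟨?_, fun z hz l => (ha1 z hz l).trans h1κ,
      fun z hz l => ⟨hκ'2.trans ((hVV z hz).2 l), hV1 _ (hVV z hz).1 l⟩, ?_,
      fun z _ t ht => ht.1, fun z hz => hκ'1.trans (ha2 z hz), ?_, ?_⟩
    · have h2 : (0 : ℝ) < I.card := lt_of_lt_of_le (by positivity) hIc
      exact Finset.card_pos.1 (by exact_mod_cast h2)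
    · intro z _
      refine measurableSet_Icc.inter ?_
      exact (measurable_pi_iff.2 fun l =>
        (show Measurable fun t : ℝ => a z l + v z l * t by fun_prop)) hE
    · intro z hz t ht
      refine ⟨ht.2, fun l => ?_⟩
      have e1 := (ha1 z hz l).trans h1κ
      have e2 := hV1 _ (hVV z hz).1 l
      have e3 : |t| ≤ 1 := abs_le.2 ⟨by linarith [ht.1.1], ht.1.2⟩
      show |a z l + v z l * t| ≤ 2 / κ'
      calc |a z l + v z l * t| ≤ |a z l| + |v z l * t| := abs_add_le _ _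
        _ ≤ 1 / κ' + 1 * 1 := by
            rw [abs_mul]
            exact add_le_add e1 (mul_le_mul e2 e3 (abs_nonneg _) (by norm_num))
        _ ≤ 2 / κ' := by rw [show 2 / κ' = 1 / κ' + 1 / κ' by ring]; linarith
    · intro j k hjk w hw σ hσ
      have hwj : κ1 ≤ |v w j| := (hVV w hw).2 j
      have hwj0 : 0 < |v w j| := lt_of_lt_of_le hκ10 hwj
      have hwj' : v w j ≠ 0 := abs_pos.1 hwj0
      have hwk : |v w k| ≤ 1 := hV1 _ (hVV w hw).1 k
      obtain ⟨r, hr⟩ : ∃ r : ℝ, r = v w k / v w j := ⟨_, rfl⟩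
      have hr1 : |r| ≤ 1 / κ1 := by
        rw [hr, abs_div]
        exact div_le_div₀ (by norm_num) hwk hκ10 hwj
      obtain ⟨ρ, hρ⟩ : ∃ ρ : ℝ, ρ = q * σ / κ1 + 1 + 1 / κ1 := ⟨_, rfl⟩
      have hρ0 : 0 ≤ ρ := by rw [hρ]; positivity
      have hfc := fib_count hjk (I.filter fun i => |v i k * v w j - v i j * v w k| ≤ σ) q
        (fun z hz => hIq z (Finset.mem_filter.1 hz).1) r ρ hρ0 (by
          intro z hz
          obtain ⟨hzI, hzσ⟩ := Finset.mem_filter.1 hz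
          have e1 : |(z k : ℝ) - q * v z k| ≤ 1 := by
            rw [← hvz z hzI k, abs_le]
            have e1 := Int.floor_le ((q : ℝ) * v z k)
            have e2 := (Int.lt_floor_add_one ((q : ℝ) * v z k)).le
            constructor <;> linarith
          have e2 : |(q : ℝ) * v z j - z j| ≤ 1 := by
            rw [← hvz z hzI j, abs_le]
            have e1 := Int.floor_le ((q : ℝ) * v z j)
            have e2 := (Int.lt_floor_add_one ((q : ℝ) * v z j)).le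
            constructor <;> linarith
          have e3 : |v z k - v z j * r| ≤ σ / κ1 := by
            have : v z k - v z j * r = (v z k * v w j - v z j * v w k) / v w j := by
              rw [hr]; field_simp
            rw [this, abs_div]
            exact div_le_div₀ hσ.le hzσ hκ10 hwj
          have e4 : (z k : ℝ) - z j * r = (z k - q * v z k) + q * (v z k - v z j * r) +
              (q * v z j - z j) * r := by ring
          rw [e4, hρ]
          refine (abs_add_le _ _).trans ?_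
          refine (add_le_add (abs_add_le _ _) le_rfl).trans ?_
          rw [abs_mul, abs_mul, abs_of_pos hq0]
          have e5 : (q : ℝ) * |v z k - v z j * r| ≤ q * (σ / κ1) :=
            mul_le_mul_of_nonneg_left e3 hq0.le
          have e6 : |(q : ℝ) * v z j - z j| * |r| ≤ 1 * (1 / κ1) :=
            mul_le_mul e2 hr1 (abs_nonneg _) (by norm_num)
          have e7 : (q : ℝ) * (σ / κ1) = q * σ / κ1 := by ring
          linarith)
      refine hfc.trans ?_
      rw [← hm]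
      have e1 : 2 * ρ + 1 ≤ 5 * (q * σ + 1) / κ1 := by
        rw [hρ, le_div_iff₀ hκ10]
        have : (2 * (q * σ / κ1 + 1 + 1 / κ1) + 1) * κ1 = 2 * (q * σ) + 3 * κ1 + 2 := by
          field_simp; ring
        rw [this]
        have : 0 < (q : ℝ) * σ := by positivity
        linarith
      have e2 : ((2 : ℝ) * q + 1) ^ (m - 1) ≤ 3 ^ (m - 1) * (q : ℝ) ^ (m - 1) := by
        rw [← mul_pow]
        exact pow_le_pow_left₀ (by positivity) (by linarith) _
      have e3 : (q : ℝ) ^ m = q ^ (m - 1) * q := by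
        rw [← pow_succ]; congr 1; omega
      have e4 : (q : ℝ) ^ m ≤ 2 / κ * I.card := by
        rw [div_mul_eq_mul_div, le_div_iff₀ hκ]; linarith
      calc (2 * ρ + 1) * (2 * q + 1) ^ (m - 1)
          ≤ (5 * (q * σ + 1) / κ1) * (3 ^ (m - 1) * (q : ℝ) ^ (m - 1)) :=
            mul_le_mul e1 e2 (by positivity) (by positivity)
        _ = 5 * 3 ^ (m - 1) / κ1 * (σ + 1 / q) * (q : ℝ) ^ m := by
            rw [e3]; field_simp
        _ ≤ 5 * 3 ^ (m - 1) / κ1 * (σ + 1 / q) * (2 / κ * I.card) :=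
            mul_le_mul_of_nonneg_left e4 (by positivity)
        _ = (10 * 3 ^ (m - 1) / (κ1 * κ)) * ((σ + 1 / q) * I.card) := by
            field_simp; ring
        _ ≤ κ'⁻¹ * ((σ + 1 / q) * I.card) := by
            refine mul_le_mul_of_nonneg_right ?_ (by positivity)
            rw [div_le_iff₀ (by positivity), inv_mul_eq_div, le_div_iff₀ hκ'0]
            have h1 : κ' = κ ^ (2 * n + 2) * (κ1 * κ) := by rw [hκ', hκ1]; ring
            rw [h1, ← mul_assoc]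
            refine mul_le_of_le_one_left (by positivity) ?_
            exact numer1 hm1 (hm ▸ hcard) hκ hκ2
        _ = κ'⁻¹ * (σ + 1 / q) * I.card := by ring
  have hbox : MeasurableSet {x : ι → ℝ | ∀ l, |x l| ≤ 2 / κ'} := by
    have : {x : ι → ℝ | ∀ l, |x l| ≤ 2 / κ'} = ⋂ l, {x | |x l| ≤ 2 / κ'} := by
      ext x; simp
    rw [this]
    exact MeasurableSet.iInter fun l => measurableSet_le
      (show Measurable fun x : ι → ℝ => |x l| by fun_prop) measurable_const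
  have hfin := hcl (1 / q) (by positivity) hqδ ι hcard (ι → ℤ) I a v _ _ (hE.inter hbox)
    (by
      intro x hx y hy
      refine ⟨hEs x hx.1 y hy.1, fun l => ?_⟩
      have e1 := abs_le.1 (hx.2 l)
      have e2 := abs_le.1 (hy.2 l)
      rw [Pi.sup_apply, abs_le]
      exact ⟨e1.1.trans le_sup_left, sup_le e1.2 e2.2⟩)
    (fun x hx l => hx.2 l) hFam
  refine le_trans (le_of_eq ?_) (hfin.trans (measure_mono inter_subset_left))
  rw [hκ', ← pow_mul]

end Pool.Agent.V11222.KM
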