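import Pool.Agent.V11222.KM.Step

/-!
The two averaging steps.
-/

set_option autoImplicit false

namespace Pool.Agent.V11222.KM

open Set Filter Topology MeasureTheory
open scoped ENNReal

/-- the statement for at most `n` coordinates -/
def Claim (C n : ℕ) (κ δ : ℝ) : Prop :=
  ∀ (ι : Type) [Fintype ι] [DecidableEq ι] [Nonempty ι], Fintype.card ι ≤ n →
    ∀ (J : Type) (I : Finset J) (a v : J → ι → ℝ) (B : J → Set ℝ) (E : Set (ι → ℝ)),
      MeasurableSet E → (∀ x ∈ E, ∀ y ∈ E, x ⊔ y ∈ E) → (∀ x ∈ E, ∀ l, |x l| ≤ 2 / κ) →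
      Fam κ δ I a v B E → ENNReal.ofReal (κ ^ C) ≤ volume E

/-- pairs of points of two lines with a given pattern -/
def Th {ι J : Type} (p : ι → Prop) (a v : J → ι → ℝ) (B : J → Set ℝ) (i j : J) : Set (ℝ × ℝ) :=
  {q | q.1 ∈ B i ∧ q.2 ∈ B j ∧ ∀ l, (p l ↔ pt a v j q.2 l < pt a v i q.1 l)}

theorem Th_meas {ι J : Type} [Finite ι] (p : ι → Prop) (a v : J → ι → ℝ) (B : J → Set ℝ)
    {i j : J} (hi : MeasurableSet (B i)) (hj : MeasurableSet (B j)) :
    MeasurableSet (Th p a v B i j) := by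
  have h : Th p a v B i j = (Prod.fst ⁻¹' B i ∩ Prod.snd ⁻¹' B j) ∩
      ⋂ l, {q : ℝ × ℝ | p l ↔ pt a v j q.2 l < pt a v i q.1 l} := by
    ext q
    simp only [Th, mem_inter_iff, mem_preimage, mem_iInter]
    constructor
    · rintro ⟨h1, h2, h3⟩; exact ⟨⟨h1, h2⟩, h3⟩
    · rintro ⟨⟨h1, h2⟩, h3⟩; exact ⟨h1, h2, h3⟩
  rw [h]
  refine ((measurable_fst hi).inter (measurable_snd hj)).inter ?_
  have := Finite.to_countable (α := ι)
  refine MeasurableSet.iInter fun l => ?_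
  have hlt : MeasurableSet {q : ℝ × ℝ | pt a v j q.2 l < pt a v i q.1 l} :=
    measurableSet_lt (show Measurable fun q : ℝ × ℝ => a j l + v j l * q.2 by fun_prop)
      (show Measurable fun q : ℝ × ℝ => a i l + v i l * q.1 by fun_prop)
  by_cases hp : p l
  · simpa [hp] using hlt
  · have : {q : ℝ × ℝ | p l ↔ pt a v j q.2 l < pt a v i q.1 l} =
        {q : ℝ × ℝ | pt a v j q.2 l < pt a v i q.1 l}ᶜ := by
      ext q; simp [hp]
    rw [this]; exact hlt.compl

/-- the points `x` such that `(x, w(u))` lies in `E` -/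
def Ps {ι J : Type} (p : ι → Prop) [DecidablePred p] (a v : J → ι → ℝ) (B : J → Set ℝ)
    (E : Set (ι → ℝ)) (j : J) : Set (({l // p l} → ℝ) × ℝ) :=
  {q | q.2 ∈ B j ∧ gl p q.1 (fun l => pt a v j q.2 l) ∈ E}

theorem Ps_meas {ι J : Type} (p : ι → Prop) [DecidablePred p] (a v : J → ι → ℝ)
    (B : J → Set ℝ) {E : Set (ι → ℝ)} (hE : MeasurableSet E) {j : J} (hj : MeasurableSet (B j)) :
    MeasurableSet (Ps p a v B E j) := by
  refine (measurable_snd hj).inter (gl_meas p measurable_fst ?_ hE)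
  rw [measurable_pi_iff]
  intro l
  exact (show Measurable fun q : ({l // p l} → ℝ) × ℝ => a j l + v j l * q.2 by fun_prop)

theorem stepC {κ δ : ℝ} (hκ : 0 < κ) (hκ2 : κ ≤ 1 / 2) (hδ : 0 ≤ δ) {n C c1 : ℕ}
    {ι : Type} [Fintype ι] [DecidableEq ι] (hcard : Fintype.card ι ≤ n + 1)
    (p : ι → Prop) [DecidablePred p] (hp1 : ∃ l, p l) (hp2 : ∃ l, ¬ p l)
    {J : Type} {I : Finset J} {a v : J → ι → ℝ} {B : J → Set ℝ} {E : Set (ι → ℝ)}
    (hE : MeasurableSet E) (hEs : ∀ x ∈ E, ∀ y ∈ E, x ⊔ y ∈ E)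
    (hbox : ∀ x ∈ E, ∀ l, |x l| ≤ 2 / κ) (hF : Fam κ δ I a v B E)
    (hth : κ ^ c1 * (I.card : ℝ) ^ 2 ≤ ∑ i ∈ I, ∑ j ∈ I, volume.real (Th p a v B i j))
    (hIH : Claim C n (κ ^ (c1 + 3)) δ) :
    ENNReal.ofReal (κ ^ (C * (c1 + 3) + c1 + 1) * I.card) ≤
      ∑ j ∈ I, volume (Ps p a v B E j) := by
  obtain ⟨M, hM⟩ : ∃ M : ℝ, M = I.card := ⟨_, rfl⟩
  have hM0 : 0 < M := by rw [hM]; exact_mod_cast hF.ne.card_pos
  have hMm : ∀ i ∈ I, ∀ j ∈ I, MeasurableSet (Th p a v B i j) := fun i hi j hj =>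
    Th_meas p a v B (hF.hB i hi) (hF.hB j hj)
  -- sections
  have hsec1 : ∀ i ∈ I, ∀ j u, volume ((fun t => (t, u)) ⁻¹' Th p a v B i j) ≤ 1 := by
    intro i hi j u
    refine (measure_mono (fun t ht => hF.hB1 i hi ht.1 :
      (fun t => (t, u)) ⁻¹' Th p a v B i j ⊆ Icc 0 1)).trans ?_
    rw [Real.volume_Icc]; simp
  obtain ⟨φ, hφ⟩ : ∃ φ : J → ℝ → ℝ≥0∞, φ = fun j u => ∑ i ∈ I,
      volume ((fun t => (t, u)) ⁻¹' Th p a v B i j) := ⟨_, rfl⟩
  have hφm : ∀ j ∈ I, Measurable (φ j) := by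
    intro j hj
    rw [hφ]
    exact Finset.measurable_fun_sum _ fun i hi => measurable_measure_prodMk_right (hMm i hi j hj)
  have hφM : ∀ j u, φ j u ≤ ENNReal.ofReal M := by
    intro j u
    rw [hφ, hM]
    refine (Finset.sum_le_sum fun i hi => hsec1 i hi j u).trans ?_
    rw [Finset.sum_const, nsmul_eq_mul, mul_one, ENNReal.ofReal_natCast]
  have hφint : ∀ j ∈ I, ∫⁻ u, φ j u = ∑ i ∈ I, volume (Th p a v B i j) := by
    intro j hj
    rw [hφ]
    simp only
    rw [lintegral_finsetSum _ fun i hi => measurable_measure_prodMk_right (hMm i hi j hj)]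
    exact Finset.sum_congr rfl fun i hi => by
      rw [Measure.volume_eq_prod, Measure.prod_apply_symm (hMm i hi j hj)]
  have hφsupp : ∀ j, ∀ u, u ∉ B j → φ j u = 0 := by
    intro j u hu
    rw [hφ]
    refine Finset.sum_eq_zero fun i _ => ?_
    have : (fun t => (t, u)) ⁻¹' Th p a v B i j = ∅ := by
      rw [eq_empty_iff_forall_notMem]
      exact fun t ht => hu ht.2.1
    rw [this, measure_empty]
  obtain ⟨s, hs⟩ : ∃ s : ℝ, s = κ ^ c1 * M / 2 := ⟨_, rfl⟩
  have hs0 : 0 < s := by rw [hs]; positivity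
  obtain ⟨gd, hgd⟩ : ∃ gd : J → Set ℝ, gd = fun j => {u | ENNReal.ofReal s ≤ φ j u} := ⟨_, rfl⟩
  have hgdB : ∀ j, gd j ⊆ B j := by
    intro j u hu
    by_contra hcon
    rw [hgd] at hu
    have h1 : ENNReal.ofReal s ≤ φ j u := hu
    rw [hφsupp j u hcon, nonpos_iff_eq_zero, ENNReal.ofReal_eq_zero] at h1
    linarith
  have hgdm : ∀ j ∈ I, MeasurableSet (gd j) := fun j hj => by
    rw [hgd]; exact measurableSet_le measurable_const (hφm j hj)
  have hThf : ∀ i ∈ I, ∀ j ∈ I, volume (Th p a v B i j) ≠ ∞ := by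
    intro i hi j hj
    refine ne_top_of_le_ne_top (b := volume (Icc (0 : ℝ) 1 ×ˢ Icc (0 : ℝ) 1)) ?_ (measure_mono ?_)
    · rw [Measure.volume_eq_prod, Measure.prod_prod]
      exact ENNReal.mul_ne_top isCompact_Icc.measure_ne_top isCompact_Icc.measure_ne_top
    · exact fun q hq => ⟨hF.hB1 i hi hq.1, hF.hB1 j hj hq.2.1⟩
  -- the total measure
  have htot : ENNReal.ofReal (κ ^ c1 * M ^ 2) ≤ ∑ j ∈ I, ∫⁻ u, φ j u := by
    rw [Finset.sum_congr rfl hφint, Finset.sum_comm]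
    rw [← hM] at hth
    refine (ENNReal.ofReal_le_ofReal hth).trans (le_of_eq ?_)
    rw [ENNReal.ofReal_sum_of_nonneg fun i _ => Finset.sum_nonneg fun j _ => measureReal_nonneg]
    refine Finset.sum_congr rfl fun i hi => ?_
    rw [ENNReal.ofReal_sum_of_nonneg fun j _ => measureReal_nonneg]
    exact Finset.sum_congr rfl fun j hj => ENNReal.ofReal_toReal (hThf i hi j hj)
  have havg : ∑ j ∈ I, ∫⁻ u, φ j u ≤ ENNReal.ofReal M * (∑ j ∈ I, volume (gd j)) +
      ENNReal.ofReal (κ ^ c1 * M ^ 2) / 2 := by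
    have h1 : ∀ j ∈ I, ∫⁻ u, φ j u ≤ ENNReal.ofReal M * volume (gd j) + ENNReal.ofReal s := by
      intro j hj
      refine (avg1 volume (hφm j hj) (hF.hB j hj) (hφsupp j) (hφM j)
        (s := ENNReal.ofReal s)).trans ?_
      rw [hgd]
      refine add_le_add le_rfl ?_
      have h2 : volume (B j) ≤ 1 := (measure_mono (hF.hB1 j hj)).trans (by
        rw [Real.volume_Icc]; simp)
      calc ENNReal.ofReal s * volume (B j) ≤ ENNReal.ofReal s * 1 := mul_le_mul' le_rfl h2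
        _ = _ := mul_one _
    refine (Finset.sum_le_sum h1).trans ?_
    rw [Finset.sum_add_distrib, ← Finset.mul_sum, Finset.sum_const, nsmul_eq_mul]
    refine add_le_add le_rfl (le_of_eq ?_)
    rw [← ENNReal.ofReal_natCast, ← hM, ← ENNReal.ofReal_mul hM0.le,
      show (2 : ℝ≥0∞) = ENNReal.ofReal 2 by simp, ← ENNReal.ofReal_div_of_pos (by norm_num)]
    congr 1
    rw [hs]; ring
  have hG : ENNReal.ofReal s ≤ ∑ j ∈ I, volume (gd j) := by
    have h1 := half_le (htot.trans havg) ENNReal.ofReal_ne_top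
    have h2 : ENNReal.ofReal (κ ^ c1 * M ^ 2) / 2 = ENNReal.ofReal M * ENNReal.ofReal s := by
      rw [← ENNReal.ofReal_mul hM0.le, show (2 : ℝ≥0∞) = ENNReal.ofReal 2 by simp,
        ← ENNReal.ofReal_div_of_pos (by norm_num)]
      congr 1
      rw [hs]; ring
    rw [h2] at h1
    exact (ENNReal.mul_le_mul_iff_right (by
      rw [ne_eq, ENNReal.ofReal_eq_zero, not_le]; exact hM0) ENNReal.ofReal_ne_top).1 h1
  -- the induction hypothesis
  have hfib : ∀ j ∈ I, ∀ u ∈ gd j, ENNReal.ofReal ((κ ^ (c1 + 3)) ^ C) ≤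
      volume {x : {l // p l} → ℝ | gl p x (fun l => pt a v j u l) ∈ E} := by
    intro j hj u hu
    have hne : Nonempty {l // p l} := ⟨⟨hp1.choose, hp1.choose_spec⟩⟩
    have hcA : Fintype.card {l // p l} ≤ n := by
      have := Fintype.card_subtype_lt (p := p) hp2.choose_spec
      omega
    have hmb : ∀ i ∈ I, MeasurableSet ((fun t => (t, u)) ⁻¹' Th p a v B i j) := fun i hi =>
      (measurable_id.prodMk measurable_const) (hMm i hi j hj)
    have hfin : ∀ i ∈ I, volume ((fun t => (t, u)) ⁻¹' Th p a v B i j) ≠ ∞ := fun i hi =>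
      ne_top_of_le_ne_top (by norm_num) (hsec1 i hi j u)
    obtain ⟨I', hI', h1, h2⟩ := many' I
      (fun i => volume.real ((fun t => (t, u)) ⁻¹' Th p a v B i j)) (s := κ ^ (c1 + 1))
      (by positivity) (fun i hi => by
        rw [measureReal_def]
        exact ENNReal.toReal_le_of_le_ofReal one_pos.le (by rw [ENNReal.ofReal_one]; exact hsec1 i hi j u))
      (by
        have h3 : ENNReal.ofReal s ≤ φ j u := by rw [hgd] at hu; exact hu
        have h4 : φ j u = ENNReal.ofReal (∑ i ∈ I,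
            volume.real ((fun t => (t, u)) ⁻¹' Th p a v B i j)) := by
          rw [hφ, ENNReal.ofReal_sum_of_nonneg fun i _ => measureReal_nonneg]
          exact Finset.sum_congr rfl fun i hi => (ENNReal.ofReal_toReal (hfin i hi)).symm
        rw [h4, ENNReal.ofReal_le_ofReal_iff (Finset.sum_nonneg fun i _ => measureReal_nonneg)] at h3
        refine le_trans ?_ h3
        rw [hs, ← hM, pow_succ]
        have : (0 : ℝ) ≤ κ ^ c1 * M := by positivity
        nlinarith)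
    have hFs := hF.sub hκ hκ2 hδ p hI' (c := c1 + 1) h2
      (B' := fun i => (fun t => (t, u)) ⁻¹' Th p a v B i j)
      (fun i hi => hmb i (hI' hi)) (fun i hi t ht => hF.hB1 i (hI' hi) ht.1)
      (fun i hi => h1 i hi)
      (E' := {x : {l // p l} → ℝ | gl p x (fun l => pt a v j u l) ∈ E})
      (fun i hi t ht => by
        show gl p (fun l => pt a v i t l) (fun l => pt a v j u l) ∈ E
        rw [← sup_gl p ht.2.2]
        exact hEs _ (hF.hE i (hI' hi) t ht.1) _ (hF.hE j hj u (hgdB j hu)))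
    refine hIH {l // p l} hcA J I' _ _ _ _ ?_ ?_ ?_ hFs
    · exact gl_meas p measurable_id measurable_const hE
    · intro x hx y hy
      show gl p (x ⊔ y) _ ∈ E
      have := hEs _ hx _ hy
      rwa [← gl_sup, sup_idem] at this
    · intro x hx l
      have h3 := hbox _ hx l
      have h4 : gl p x (fun l => pt a v j u l) (l : ι) = x l := by
        simp only [gl]
        rw [dif_pos l.2]
      rw [h4] at h3
      refine h3.trans ?_
      refine div_le_div_of_nonneg_left (by norm_num) (by positivity) ?_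
      calc κ ^ (c1 + 3) = κ ^ (c1 + 2) * κ := by ring
        _ ≤ 1 * κ := mul_le_mul_of_nonneg_right (pow_le_one₀ hκ.le (by linarith)) hκ.le
        _ = κ := one_mul κ
  -- conclusion
  have hfin : ∀ j ∈ I, ENNReal.ofReal ((κ ^ (c1 + 3)) ^ C) * volume (gd j) ≤
      volume (Ps p a v B E j) := by
    intro j hj
    rw [Measure.volume_eq_prod, Measure.prod_apply_symm (Ps_meas p a v B hE (hF.hB j hj)),
      ← setLIntegral_const]
    refine (setLIntegral_mono' (hgdm j hj) (fun u hu => ?_)).trans (setLIntegral_le_lintegral _ _)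
    refine (hfib j hj u hu).trans (measure_mono fun x hx => ?_)
    exact ⟨hgdB j hu, hx⟩
  refine le_trans ?_ (Finset.sum_le_sum hfin)
  rw [← Finset.mul_sum]
  refine le_trans ?_ (mul_le_mul' le_rfl hG)
  rw [← ENNReal.ofReal_mul (by positivity), ← hM, hs]
  refine ENNReal.ofReal_le_ofReal ?_
  have h1 : (κ ^ (c1 + 3)) ^ C * (κ ^ c1 * M / 2) = κ ^ (C * (c1 + 3) + c1) * M * (1 / 2) := by
    rw [← pow_mul, pow_add, mul_comm (c1 + 3) C]; ring
  have h2 : κ ^ (C * (c1 + 3) + c1 + 1) * M = κ ^ (C * (c1 + 3) + c1) * M * κ := by ring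
  rw [h1, h2]
  exact mul_le_mul_of_nonneg_left hκ2 (by positivity)

end Pool.Agent.V11222.KM
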