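import Pool.Agent.V11222.KM.Ind

/-!
The second averaging step.
-/

set_option autoImplicit false

namespace Pool.Agent.V11222.KM

open Set Filter Topology MeasureTheory
open scoped ENNReal

theorem box_vol {κ : ℝ} (hκ : 0 < κ) (hκ2 : κ ≤ 1 / 2) {ι : Type} [Fintype ι] {n : ℕ}
    (hcard : Fintype.card ι ≤ n) :
    volume (Set.pi univ fun _ : ι => Icc (-(2 / κ)) (2 / κ)) ≤ ENNReal.ofReal ((κ ^ (3 * n))⁻¹) := by
  rw [volume_pi_pi]
  simp only [Real.volume_Icc, Finset.prod_const, Finset.card_univ]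
  rw [← ENNReal.ofReal_pow (by rw [sub_neg_eq_add]; positivity)]
  refine ENNReal.ofReal_le_ofReal ?_
  have h1 : 2 / κ - -(2 / κ) ≤ (κ ^ 3)⁻¹ := by
    rw [sub_neg_eq_add, ← one_div, le_div_iff₀ (by positivity)]
    have : (2 / κ + 2 / κ) * κ ^ 3 = 4 * κ ^ 2 := by field_simp; ring
    rw [this]; nlinarith
  have h2 : (1 : ℝ) ≤ (κ ^ 3)⁻¹ := by
    rw [one_le_inv₀ (by positivity)]
    exact pow_le_one₀ hκ.le (by linarith)
  have h0 : (0 : ℝ) ≤ 2 / κ - -(2 / κ) := by rw [sub_neg_eq_add]; positivity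
  calc (2 / κ - -(2 / κ)) ^ Fintype.card ι ≤ ((κ ^ 3)⁻¹) ^ Fintype.card ι := pow_le_pow_left₀ h0 h1 _
    _ ≤ ((κ ^ 3)⁻¹) ^ n := pow_le_pow_right₀ h2 hcard
    _ = (κ ^ (3 * n))⁻¹ := by rw [inv_pow, ← pow_mul]

theorem stepD {κ δ : ℝ} (hκ : 0 < κ) (hκ2 : κ ≤ 1 / 2) (hδ : 0 ≤ δ) {n C c2 : ℕ}
    {ι : Type} [Fintype ι] [DecidableEq ι] (hcard : Fintype.card ι ≤ n + 1)
    (p : ι → Prop) [DecidablePred p] (hp1 : ∃ l, p l) (hp2 : ∃ l, ¬ p l)
    {J : Type} {I : Finset J} {a v : J → ι → ℝ} {B : J → Set ℝ} {E : Set (ι → ℝ)}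
    (hE : MeasurableSet E) (hEs : ∀ x ∈ E, ∀ y ∈ E, x ⊔ y ∈ E)
    (hbox : ∀ x ∈ E, ∀ l, |x l| ≤ 2 / κ) (hF : Fam κ δ I a v B E)
    (hPs : ENNReal.ofReal (κ ^ c2 * I.card) ≤ ∑ j ∈ I, volume (Ps p a v B E j))
    (hIH : Claim C n (κ ^ (c2 + 3 * (n + 1) + 1 + 2)) δ) :
    ENNReal.ofReal (κ ^ (c2 + 1 + C * (c2 + 3 * (n + 1) + 1 + 2))) ≤ volume E := by
  obtain ⟨M, hM⟩ : ∃ M : ℝ, M = I.card := ⟨_, rfl⟩
  have hM0 : 0 < M := by rw [hM]; exact_mod_cast hF.ne.card_pos
  obtain ⟨c3, hc3⟩ : ∃ c3 : ℕ, c3 = c2 + 3 * (n + 1) + 1 := ⟨_, rfl⟩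
  have hPm : ∀ j ∈ I, MeasurableSet (Ps p a v B E j) := fun j hj => Ps_meas p a v B hE (hF.hB j hj)
  have hsec : ∀ j ∈ I, ∀ x, volume (Prod.mk x ⁻¹' Ps p a v B E j) ≤ 1 := by
    intro j hj x
    refine (measure_mono (fun t ht => hF.hB1 j hj ht.1 :
      Prod.mk x ⁻¹' Ps p a v B E j ⊆ Icc 0 1)).trans ?_
    rw [Real.volume_Icc]; simp
  obtain ⟨ψ, hψ⟩ : ∃ ψ : ({l // p l} → ℝ) → ℝ≥0∞, ψ = fun x => ∑ j ∈ I,
      volume (Prod.mk x ⁻¹' Ps p a v B E j) := ⟨_, rfl⟩
  have hψm : Measurable ψ := by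
    rw [hψ]
    exact Finset.measurable_fun_sum _ fun j hj => measurable_measure_prodMk_left (hPm j hj)
  have hψM : ∀ x, ψ x ≤ ENNReal.ofReal M := by
    intro x
    rw [hψ, hM]
    refine (Finset.sum_le_sum fun j hj => hsec j hj x).trans ?_
    rw [Finset.sum_const, nsmul_eq_mul, mul_one, ENNReal.ofReal_natCast]
  have hψint : ∫⁻ x, ψ x = ∑ j ∈ I, volume (Ps p a v B E j) := by
    rw [hψ]
    simp only
    rw [lintegral_finsetSum _ fun j hj => measurable_measure_prodMk_left (hPm j hj)]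
    exact Finset.sum_congr rfl fun j hj => by
      rw [Measure.volume_eq_prod, Measure.prod_apply (hPm j hj)]
  obtain ⟨D, hD⟩ : ∃ D : Set ({l // p l} → ℝ),
      D = Set.pi univ fun _ => Icc (-(2 / κ)) (2 / κ) := ⟨_, rfl⟩
  have hDm : MeasurableSet D := by
    rw [hD]; exact MeasurableSet.univ_pi fun _ => measurableSet_Icc
  have hψsupp : ∀ x, x ∉ D → ψ x = 0 := by
    intro x hx
    rw [hψ]
    refine Finset.sum_eq_zero fun j _ => ?_
    have : Prod.mk x ⁻¹' Ps p a v B E j = ∅ := by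
      rw [eq_empty_iff_forall_notMem]
      intro t ht
      apply hx
      rw [hD]
      intro l _
      have h3 := hbox _ ht.2 l
      have h4 : gl p x (fun l => pt a v j t l) (l : ι) = x l := by
        simp only [gl]
        rw [dif_pos l.2]
      have h5 : gl p (x, t).1 (fun l => pt a v j (x, t).2 l) (l : ι) = x l := h4
      rw [h5] at h3
      exact abs_le.1 h3
    rw [this, measure_empty]
  have hDv : volume D ≤ ENNReal.ofReal ((κ ^ (3 * (n + 1)))⁻¹) := by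
    rw [hD]
    refine box_vol hκ hκ2 ?_
    exact (Fintype.card_subtype_le _).trans hcard
  obtain ⟨s, hs⟩ : ∃ s : ℝ, s = κ ^ c3 * M := ⟨_, rfl⟩
  have hs0 : 0 < s := by rw [hs]; positivity
  obtain ⟨X, hX⟩ : ∃ X : Set ({l // p l} → ℝ), X = {x | ENNReal.ofReal s ≤ ψ x} := ⟨_, rfl⟩
  have hXm : MeasurableSet X := by rw [hX]; exact measurableSet_le measurable_const hψm
  have hXv : ENNReal.ofReal (κ ^ (c2 + 1)) ≤ volume X := by
    have h1 : ∫⁻ x, ψ x ≤ ENNReal.ofReal M * volume X + ENNReal.ofReal (κ ^ c2 * M) / 2 := by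
      refine (avg1 volume hψm hDm hψsupp hψM (s := ENNReal.ofReal s)).trans ?_
      rw [hX]
      refine add_le_add le_rfl ((mul_le_mul' le_rfl hDv).trans ?_)
      rw [← ENNReal.ofReal_mul hs0.le, show (2 : ℝ≥0∞) = ENNReal.ofReal 2 by simp,
        ← ENNReal.ofReal_div_of_pos (by norm_num)]
      refine ENNReal.ofReal_le_ofReal ?_
      have h2 : s * (κ ^ (3 * (n + 1)))⁻¹ = κ ^ c2 * M * κ := by
        rw [hs, hc3]
        have : κ ^ (c2 + 3 * (n + 1) + 1) = κ ^ c2 * κ * κ ^ (3 * (n + 1)) := by ring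
        rw [this]
        field_simp
      rw [h2]
      have : 0 < κ ^ c2 * M := by positivity
      nlinarith
    rw [hψint] at h1
    rw [← hM] at hPs
    have h2 := half_le (hPs.trans h1) ENNReal.ofReal_ne_top
    have h3 : ENNReal.ofReal (κ ^ c2 * M) / 2 = ENNReal.ofReal M * ENNReal.ofReal (κ ^ c2 / 2) := by
      rw [← ENNReal.ofReal_mul hM0.le, show (2 : ℝ≥0∞) = ENNReal.ofReal 2 by simp,
        ← ENNReal.ofReal_div_of_pos (by norm_num)]
      congr 1
      ring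
    rw [h3] at h2
    have h4 := (ENNReal.mul_le_mul_iff_right (by
      rw [ne_eq, ENNReal.ofReal_eq_zero, not_le]; exact hM0) ENNReal.ofReal_ne_top).1 h2
    refine (ENNReal.ofReal_le_ofReal ?_).trans h4
    have : 0 < κ ^ c2 := by positivity
    rw [pow_succ]; nlinarith
  -- the induction hypothesis
  have hfib : ∀ x ∈ X, ENNReal.ofReal ((κ ^ (c3 + 2)) ^ C) ≤
      volume {y : {l // ¬ p l} → ℝ | gl p x y ∈ E} := by
    intro x hx
    have hne : Nonempty {l // ¬ p l} := ⟨⟨hp2.choose, hp2.choose_spec⟩⟩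
    have hcA : Fintype.card {l // ¬ p l} ≤ n := by
      have h := Fintype.card_subtype_lt (p := fun l => ¬ p l) (x := hp1.choose)
        (not_not.2 hp1.choose_spec)
      omega
    have hmb : ∀ j ∈ I, MeasurableSet (Prod.mk x ⁻¹' Ps p a v B E j) := fun j hj =>
      measurable_prodMk_left (hPm j hj)
    have hfin : ∀ j ∈ I, volume (Prod.mk x ⁻¹' Ps p a v B E j) ≠ ∞ := fun j hj =>
      ne_top_of_le_ne_top (by norm_num) (hsec j hj x)
    obtain ⟨I', hI', h1, h2⟩ := many' I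
      (fun j => volume.real (Prod.mk x ⁻¹' Ps p a v B E j)) (s := κ ^ c3)
      (by positivity) (fun j hj => by
        rw [measureReal_def]
        exact ENNReal.toReal_le_of_le_ofReal one_pos.le (by
          rw [ENNReal.ofReal_one]; exact hsec j hj x))
      (by
        have h3 : ENNReal.ofReal s ≤ ψ x := by rw [hX] at hx; exact hx
        have h4 : ψ x = ENNReal.ofReal (∑ j ∈ I,
            volume.real (Prod.mk x ⁻¹' Ps p a v B E j)) := by
          rw [hψ, ENNReal.ofReal_sum_of_nonneg fun j _ => measureReal_nonneg]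
          exact Finset.sum_congr rfl fun j hj => (ENNReal.ofReal_toReal (hfin j hj)).symm
        rw [h4, ENNReal.ofReal_le_ofReal_iff (Finset.sum_nonneg fun j _ => measureReal_nonneg)] at h3
        refine le_trans (le_of_eq ?_) h3
        rw [hs, ← hM])
    have hFs := hF.sub hκ hκ2 hδ (fun l => ¬ p l) hI' (c := c3) h2
      (B' := fun j => Prod.mk x ⁻¹' Ps p a v B E j)
      (fun j hj => hmb j (hI' hj)) (fun j hj t ht => hF.hB1 j (hI' hj) ht.1)
      (fun j hj => h1 j hj)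
      (E' := {y : {l // ¬ p l} → ℝ | gl p x y ∈ E})
      (fun j hj t ht => ht.2)
    refine (hc3 ▸ hIH : Claim C n (κ ^ (c3 + 2)) δ) {l // ¬ p l} hcA J I' _ _ _ _ ?_ ?_ ?_ hFs
    · exact gl_meas p measurable_const measurable_id hE
    · intro y hy y' hy'
      show gl p x (y ⊔ y') ∈ E
      have := hEs _ hy _ hy'
      rwa [← gl_sup, sup_idem] at this
    · intro y hy l
      have h3 := hbox _ hy l
      have h4 : gl p x y (l : ι) = y l := by
        simp only [gl]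
        rw [dif_neg l.2]
      rw [h4] at h3
      refine h3.trans ?_
      refine div_le_div_of_nonneg_left (by norm_num) (by positivity) ?_
      calc κ ^ (c3 + 2) = κ ^ (c3 + 1) * κ := by ring
        _ ≤ 1 * κ := mul_le_mul_of_nonneg_right (pow_le_one₀ hκ.le (by linarith)) hκ.le
        _ = κ := one_mul κ
  rw [vol_gl p hE]
  refine le_trans ?_ (setLIntegral_le_lintegral X _)
  refine le_trans ?_ (setLIntegral_mono' hXm fun x hx => hfib x hx)
  rw [setLIntegral_const]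
  refine le_trans ?_ (mul_le_mul' le_rfl hXv)
  rw [← ENNReal.ofReal_mul (by positivity)]
  refine ENNReal.ofReal_le_ofReal (le_of_eq ?_)
  rw [← pow_mul, hc3]; ring

end Pool.Agent.V11222.KM
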