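import Pool.Agent.V11222.KM.Tube

/-!
Sets which are closed under order operations locally.
-/

set_option autoImplicit false

namespace Pool.Agent.V11222.KM

open Set Filter Topology MeasureTheory Metric
open scoped ENNReal

/-- every part of the set in a cube of side `ρ` of the grid is closed under minima, under maxima or
under medians -/
def LCl {ι : Type} (ρ : ℝ) (S : Set (ι → ℝ)) : Prop :=
  ∀ z : ι → ℤ, Cl (S ∩ {y | ∀ l, ⌊y l / ρ⌋ = z l})

theorem restrictedLoc (m : ℕ) : ∃ C : ℕ, 1 ≤ C ∧ ∀ L : E (m + 1) ≃L[ℝ] (Fin (m + 1) → ℝ),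
    (∀ x l, |L x l| ≤ ‖x‖ / 2) → ∃ c : ℝ, 0 < c ∧ ∀ R ρ : ℝ, 1 ≤ R → 0 < ρ → ρ ≤ 1 →
      ∀ S : Set (E (m + 1)), MeasurableSet S → S ⊆ closedBall 0 R → LCl ρ {y | L.symm y ∈ S} →
      ∀ (Ω : Set (sphere (0 : E (m + 1)) 1)) (lam : ℝ), 0 < lam → lam ≤ 1 →
        (∀ e ∈ Ω, ∃ a : E (m + 1), lam ≤ volume.real {t : ℝ | t ∈ Icc (-(1 / 2) : ℝ) (1 / 2) ∧
          a + t • (e : E (m + 1)) ∈ S}) →
        c * (lam * (volume : Measure (E (m + 1))).toSphere.real Ω / (R / ρ)) ^ C ≤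
          volume.real S := by
  classical
  obtain ⟨C, hC1, hC⟩ := restricted m
  obtain ⟨d, hd⟩ : ∃ d : ℕ, d = m + 1 := ⟨_, rfl⟩
  refine ⟨(2 * d + 1) * C, Nat.one_le_iff_ne_zero.2 (by positivity), fun L hL => ?_⟩
  obtain ⟨c, hc, hres⟩ := hC L hL
  obtain ⟨σ, hσ⟩ : ∃ σ : Measure (sphere (0 : E (m + 1)) 1),
    σ = (volume : Measure (E (m + 1))).toSphere := ⟨_, rfl⟩
  have hσf : IsFiniteMeasure σ := by rw [hσ]; infer_instance
  obtain ⟨s, hs⟩ : ∃ s : ℝ, s = σ.real univ := ⟨_, rfl⟩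
  have hs0 : 0 ≤ s := by rw [hs]; exact measureReal_nonneg
  refine ⟨c * (1 / (25 ^ d * (s + 1) ^ (2 * d))) ^ C, by positivity, ?_⟩
  intro R ρ hR hρ hρ1 S hS hSR hcl Ω lam hlam hlam1 hΩ
  rw [← hσ]
  obtain ⟨ω, hω⟩ : ∃ ω : ℝ, ω = σ.real Ω := ⟨_, rfl⟩
  rw [← hω]
  have hω0 : 0 ≤ ω := by rw [hω]; exact measureReal_nonneg
  have hωs : ω ≤ s := by
    rw [hω, hs]; exact measureReal_mono (subset_univ _) (measure_ne_top _ _)
  have hR0 : 0 < R := by linarith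
  have hSfin : volume S ≠ ∞ :=
    ne_top_of_le_ne_top (isCompact_closedBall _ _).measure_ne_top (measure_mono hSR)
  -- the grid
  obtain ⟨N, hN⟩ : ∃ N : ℕ, N = ⌈R / ρ⌉₊ := ⟨_, rfl⟩
  have hNR : R / ρ ≤ N := by rw [hN]; exact Nat.le_ceil _
  have hRρ1 : 1 ≤ R / ρ := by rw [le_div_iff₀ hρ]; linarith
  have hNR2 : (N : ℝ) ≤ 2 * (R / ρ) := by
    have := (Nat.ceil_lt_add_one (show 0 ≤ R / ρ by positivity)).le
    rw [hN]; linarith
  obtain ⟨Z, hZ⟩ : ∃ Z : Finset (Fin (m + 1) → ℤ),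
    Z = Fintype.piFinset fun _ => Finset.Icc (-(N : ℤ)) N := ⟨_, rfl⟩
  obtain ⟨Sz, hSz⟩ : ∃ Sz : (Fin (m + 1) → ℤ) → Set (E (m + 1)),
    Sz = fun z => S ∩ {x | ∀ l, ⌊L x l / ρ⌋ = z l} := ⟨_, rfl⟩
  have hcov : S ⊆ ⋃ z ∈ Z, Sz z := by
    intro x hx
    refine mem_iUnion₂.2 ⟨fun l => ⌊L x l / ρ⌋, ?_, ?_⟩
    · rw [hZ, Fintype.mem_piFinset]
      intro l
      have h1 : |L x l| ≤ R := by
        refine (hL x l).trans ?_
        have := mem_closedBall_zero_iff.1 (hSR hx)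
        linarith
      have h2 : |L x l / ρ| ≤ N := by
        rw [abs_div, abs_of_pos hρ]
        exact (div_le_div_of_nonneg_right h1 hρ.le).trans hNR
      have h3 := abs_le.1 h2
      rw [Finset.mem_Icc]
      constructor
      · rw [Int.le_floor]; push_cast; exact h3.1
      · have h4 : (⌊L x l / ρ⌋ : ℝ) ≤ N := (Int.floor_le _).trans h3.2
        exact_mod_cast h4
    · rw [hSz]; exact ⟨hx, fun l => rfl⟩
  have hZc : (Z.card : ℝ) ≤ (5 * (R / ρ)) ^ d := by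
    rw [hZ, Fintype.card_piFinset]
    simp only [Int.card_Icc, Finset.prod_const, Finset.card_univ, Fintype.card_fin]
    have h1 : ((N : ℤ) + 1 - -(N : ℤ)).toNat = 2 * N + 1 := by omega
    rw [h1, hd]
    push_cast
    exact pow_le_pow_left₀ (by positivity) (by linarith) _
  have hZ0 : (0 : ℝ) < Z.card := by
    have : Z.Nonempty := ⟨fun _ => 0, by
      rw [hZ, Fintype.mem_piFinset]; intro l; rw [Finset.mem_Icc]; constructor <;> omega⟩
    exact_mod_cast this.card_pos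
  have hZne : Z.Nonempty := Finset.card_pos.1 (by exact_mod_cast hZ0)
  have hZ1 : (1 : ℝ) ≤ Z.card := by exact_mod_cast hZne.card_pos
  have hfin : ∀ (a e : E (m + 1)) (T : Set (E (m + 1))),
      volume {t : ℝ | t ∈ Icc (-(1 / 2) : ℝ) (1 / 2) ∧ a + t • e ∈ T} ≠ ∞ := fun a e T =>
    ne_top_of_le_ne_top isCompact_Icc.measure_ne_top (measure_mono fun t ht => ht.1)
  obtain ⟨Ωz, hΩz⟩ : ∃ Ωz : (Fin (m + 1) → ℤ) → Set (sphere (0 : E (m + 1)) 1), Ωz = fun z =>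
      {e : sphere (0 : E (m + 1)) 1 | ∃ a : E (m + 1), lam / Z.card ≤
        volume.real {t : ℝ | t ∈ Icc (-(1 / 2) : ℝ) (1 / 2) ∧
          a + t • (e : E (m + 1)) ∈ Sz z}} := ⟨_, rfl⟩
  have hΩcov : Ω ⊆ ⋃ z ∈ Z, Ωz z := by
    intro e he
    obtain ⟨a, ha⟩ := hΩ e he
    have h1 : volume.real {t : ℝ | t ∈ Icc (-(1 / 2) : ℝ) (1 / 2) ∧ a + t • (e : E (m + 1)) ∈ S} ≤
        ∑ z ∈ Z, volume.real {t : ℝ | t ∈ Icc (-(1 / 2) : ℝ) (1 / 2) ∧
          a + t • (e : E (m + 1)) ∈ Sz z} := by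
      refine (measureReal_mono ?_ ?_).trans (measureReal_biUnion_finset_le Z _)
      · intro t ht
        obtain ⟨z, hz, hz2⟩ := mem_iUnion₂.1 (hcov ht.2)
        exact mem_iUnion₂.2 ⟨z, hz, ht.1, hz2⟩
      · refine ne_top_of_le_ne_top ?_ (measure_biUnion_finset_le Z _)
        exact ENNReal.sum_ne_top.2 fun z _ => hfin a e (Sz z)
    obtain ⟨z, hz, hle⟩ := Finset.exists_le_of_sum_le hZne
      (f := fun _ => lam / (Z.card : ℝ))
      (g := fun z => volume.real {t : ℝ | t ∈ Icc (-(1 / 2) : ℝ) (1 / 2) ∧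
          a + t • (e : E (m + 1)) ∈ Sz z}) (by
        rw [Finset.sum_const, nsmul_eq_mul, mul_div_cancel₀ _ hZ0.ne']
        exact ha.trans h1)
    refine mem_iUnion₂.2 ⟨z, hz, ?_⟩
    rw [hΩz]; exact ⟨a, hle⟩
  obtain ⟨z, hz, hle⟩ := Finset.exists_le_of_sum_le hZne
      (f := fun _ => ω / (Z.card : ℝ)) (g := fun z => σ.real (Ωz z)) (by
        rw [Finset.sum_const, nsmul_eq_mul, mul_div_cancel₀ _ hZ0.ne', hω]
        exact (measureReal_mono hΩcov (measure_ne_top _ _)).trans (measureReal_biUnion_finset_le Z _))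
  have hSzm : MeasurableSet (Sz z) := by
    rw [hSz]
    refine hS.inter ?_
    have : {x : E (m + 1) | ∀ l, ⌊L x l / ρ⌋ = z l} = ⋂ l, {x | ⌊L x l / ρ⌋ = z l} := by
      ext x; simp
    rw [this]
    refine MeasurableSet.iInter fun l => ?_
    have hm : Measurable fun x : E (m + 1) => ⌊L x l / ρ⌋ := by
      refine Int.measurable_floor.comp ?_
      exact ((measurable_pi_apply l).comp L.continuous.measurable).div_const ρ
    exact hm (measurableSet_singleton (z l))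
  have hSzS : Sz z ⊆ S := by rw [hSz]; exact inter_subset_left
  have hSzc : Cl {y | L.symm y ∈ Sz z} := by
    have h1 : {y | L.symm y ∈ Sz z} = {y | L.symm y ∈ S} ∩ {y | ∀ l, ⌊y l / ρ⌋ = z l} := by
      ext y
      rw [hSz]
      show L.symm y ∈ S ∧ (∀ l, ⌊L (L.symm y) l / ρ⌋ = z l) ↔
        L.symm y ∈ S ∧ ∀ l, ⌊y l / ρ⌋ = z l
      rw [L.apply_symm_apply]
    rw [h1]; exact hcl z
  have h1 := hres R hR (Sz z) hSzm (hSzS.trans hSR) hSzc (Ωz z) (lam / Z.card) (by positivity)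
    ((div_le_self hlam.le hZ1).trans hlam1) (by intro e he; rw [hΩz] at he; exact he)
  rw [← hσ] at h1
  have h2 : volume.real (Sz z) ≤ volume.real S := measureReal_mono hSzS hSfin
  refine le_trans ?_ (h1.trans h2)
  have hrw : c * (1 / (25 ^ d * (s + 1) ^ (2 * d))) ^ C *
      (lam * ω / (R / ρ)) ^ ((2 * d + 1) * C) =
      c * (1 / (25 ^ d * (s + 1) ^ (2 * d)) * (lam * ω / (R / ρ)) ^ (2 * d + 1)) ^ C := by
    rw [mul_pow _ ((lam * ω / (R / ρ)) ^ (2 * d + 1)) C, ← pow_mul (lam * ω / (R / ρ)), mul_assoc]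
  rw [hrw]
  have hnn : (0 : ℝ) ≤ 1 / (25 ^ d * (s + 1) ^ (2 * d)) * (lam * ω / (R / ρ)) ^ (2 * d + 1) := by
    positivity
  refine mul_le_mul_of_nonneg_left (pow_le_pow_left₀ hnn ?_ _) hc.le
  obtain ⟨X, hX⟩ : ∃ X : ℝ, X = R / ρ := ⟨_, rfl⟩
  rw [← hX] at hRρ1 hZc ⊢
  have hX0 : 0 < X := by linarith
  -- the final computation
  have hRX : R ≤ X := by
    rw [hX, le_div_iff₀ hρ]; nlinarith
  have e1 : (lam * ω / X) ^ (2 * d + 1) ≤ (s + 1) ^ (2 * d) * (lam * ω / X ^ (2 * d + 1)) := by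
    have h3 : lam * ω ≤ s + 1 := by nlinarith
    have h4 : (0 : ℝ) ≤ lam * ω := by positivity
    rw [div_pow]
    have h5 : (lam * ω) ^ (2 * d + 1) ≤ (s + 1) ^ (2 * d) * (lam * ω) := by
      rw [pow_succ]
      exact mul_le_mul_of_nonneg_right (pow_le_pow_left₀ h4 h3 _) h4
    calc (lam * ω) ^ (2 * d + 1) / X ^ (2 * d + 1)
        ≤ (s + 1) ^ (2 * d) * (lam * ω) / X ^ (2 * d + 1) :=
          div_le_div_of_nonneg_right h5 (by positivity)
      _ = _ := by ring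
  have e2 : lam * ω / (25 ^ d * X ^ (2 * d + 1)) ≤ lam / Z.card * σ.real (Ωz z) / R := by
    have h3 : lam / Z.card * (ω / Z.card) / R ≤ lam / Z.card * σ.real (Ωz z) / R :=
      div_le_div_of_nonneg_right (mul_le_mul_of_nonneg_left hle (by positivity)) hR0.le
    refine le_trans ?_ h3
    have h4 : lam / Z.card * (ω / Z.card) / R = lam * ω / ((Z.card : ℝ) * Z.card * R) := by
      field_simp
    rw [h4]
    refine div_le_div_of_nonneg_left (by positivity) (by positivity) ?_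
    have h5 : (Z.card : ℝ) * Z.card ≤ (5 * X) ^ d * (5 * X) ^ d :=
      mul_le_mul hZc hZc hZ0.le (by positivity)
    calc (Z.card : ℝ) * Z.card * R ≤ (5 * X) ^ d * (5 * X) ^ d * X :=
          mul_le_mul h5 hRX hR0.le (by positivity)
      _ = 25 ^ d * X ^ (2 * d + 1) := by
          rw [← mul_pow, show 5 * X * (5 * X) = 25 * X ^ 2 by ring, mul_pow, ← pow_mul, pow_succ X (2 * d)]
          ring
  refine le_trans ?_ e2
  calc 1 / (25 ^ d * (s + 1) ^ (2 * d)) * (lam * ω / X) ^ (2 * d + 1)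
      ≤ 1 / (25 ^ d * (s + 1) ^ (2 * d)) * ((s + 1) ^ (2 * d) * (lam * ω / X ^ (2 * d + 1))) :=
        mul_le_mul_of_nonneg_left e1 (by positivity)
    _ = lam * ω / (25 ^ d * X ^ (2 * d + 1)) := by field_simp

end Pool.Agent.V11222.KM
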