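import Pool.Agent.V11222.KM.IndD

/-!
The induction on the number of coordinates.
-/

set_option autoImplicit false

namespace Pool.Agent.V11222.KM

open Set Filter Topology MeasureTheory
open scoped ENNReal

theorem pattern {κ δ : ℝ} (hκ : 0 < κ) (hκ2 : κ ≤ 1 / 2) (hδκ : δ ≤ κ ^ 30) {n : ℕ}
    {ι : Type} [Fintype ι] [DecidableEq ι] (hcard : Fintype.card ι ≤ n + 1)
    {j0 k0 : ι} (hjk : j0 ≠ k0) {J : Type} {I : Finset J} {a v : J → ι → ℝ} {B : J → Set ℝ}
    {E : Set (ι → ℝ)} (hF : Fam κ δ I a v B E) :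
    ∃ A : Finset ι, (∃ l, l ∈ A) ∧ (∃ l, l ∉ A) ∧
      κ ^ (83 + n) * (I.card : ℝ) ^ 2 ≤
        ∑ i ∈ I, ∑ j ∈ I, volume.real (Th (fun l => l ∈ A) a v B i j) := by
  classical
  have hmt := mixed_total I (fun i => a i j0) (fun i => v i j0) (fun i => a i k0)
    (fun i => v i k0) B hκ hκ2 hδκ hF.hB hF.hB1 hF.hBκ (fun i hi => hF.ha i hi j0)
    (fun i hi => hF.hv i hi j0) (fun i hi => (hF.hv i hi k0).2)
    (fun w hw => hF.hG j0 k0 hjk w hw _ (by positivity))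
  obtain ⟨P, hP⟩ : ∃ P : Finset (Finset ι),
      P = Finset.univ.filter fun A => (∃ l, l ∈ A) ∧ (∃ l, l ∉ A) := ⟨_, rfl⟩
  have hPne : P.Nonempty := by
    refine ⟨{j0}, ?_⟩
    rw [hP, Finset.mem_filter]
    exact ⟨Finset.mem_univ _, ⟨j0, Finset.mem_singleton_self _⟩, k0, by
      rw [Finset.mem_singleton]; exact hjk.symm⟩
  have hPc : (P.card : ℝ) ≤ 2 ^ (n + 1) := by
    have h1 : P.card ≤ 2 ^ Fintype.card ι := by
      refine (Finset.card_le_univ P).trans ?_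
      rw [Fintype.card_finset]
    have h2 : P.card ≤ 2 ^ (n + 1) := h1.trans (Nat.pow_le_pow_right (by norm_num) hcard)
    exact_mod_cast h2
  have hThf : ∀ A : Finset ι, ∀ i ∈ I, ∀ j ∈ I, volume (Th (fun l => l ∈ A) a v B i j) ≠ ∞ := by
    intro A i hi j hj
    refine ne_top_of_le_ne_top (b := volume (Icc (0 : ℝ) 1 ×ˢ Icc (0 : ℝ) 1)) ?_ (measure_mono ?_)
    · rw [Measure.volume_eq_prod, Measure.prod_prod]
      exact ENNReal.mul_ne_top isCompact_Icc.measure_ne_top isCompact_Icc.measure_ne_top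
    · exact fun q hq => ⟨hF.hB1 i hi hq.1, hF.hB1 j hj hq.2.1⟩
  have hle : ∀ i ∈ I, ∀ j ∈ I, volume.real {p : ℝ × ℝ | p.1 ∈ B i ∧ p.2 ∈ B j ∧
      ((a i j0 + v i j0 * p.1) - (a j j0 + v j j0 * p.2)) *
        ((a i k0 + v i k0 * p.1) - (a j k0 + v j k0 * p.2)) < 0} ≤
      ∑ A ∈ P, volume.real (Th (fun l => l ∈ A) a v B i j) := by
    intro i hi j hj
    refine (measureReal_mono ?_ ?_).trans (measureReal_biUnion_finset_le P _)
    · intro q hq
      obtain ⟨h1, h2, h3⟩ := hq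
      obtain ⟨A, hA⟩ : ∃ A : Finset ι, A = Finset.univ.filter
        fun l => pt a v j q.2 l < pt a v i q.1 l := ⟨_, rfl⟩
      have hmem : ∀ l, l ∈ A ↔ pt a v j q.2 l < pt a v i q.1 l := by
        intro l; rw [hA, Finset.mem_filter]; simp
      refine mem_iUnion₂.2 ⟨A, ?_, h1, h2, hmem⟩
      rw [hP, Finset.mem_filter]
      refine ⟨Finset.mem_univ _, ?_⟩
      rcases mul_neg_iff.1 h3 with ⟨h4, h5⟩ | ⟨h4, h5⟩
      · refine ⟨⟨j0, (hmem j0).2 ?_⟩, k0, fun h => ?_⟩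
        · show a j j0 + v j j0 * q.2 < a i j0 + v i j0 * q.1
          linarith
        · have h6 : a j k0 + v j k0 * q.2 < a i k0 + v i k0 * q.1 := (hmem k0).1 h
          linarith
      · refine ⟨⟨k0, (hmem k0).2 ?_⟩, j0, fun h => ?_⟩
        · show a j k0 + v j k0 * q.2 < a i k0 + v i k0 * q.1
          linarith
        · have h6 : a j j0 + v j j0 * q.2 < a i j0 + v i j0 * q.1 := (hmem j0).1 h
          linarith
    · refine ne_top_of_le_ne_top ?_ (measure_biUnion_finset_le P _)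
      exact ENNReal.sum_ne_top.2 fun A _ => hThf A i hi j hj
  have hsum : κ ^ 82 * (I.card : ℝ) ^ 2 ≤
      ∑ A ∈ P, ∑ i ∈ I, ∑ j ∈ I, volume.real (Th (fun l => l ∈ A) a v B i j) := by
    refine hmt.trans ?_
    refine (Finset.sum_le_sum fun i hi => Finset.sum_le_sum fun j hj => hle i hi j hj).trans
      (le_of_eq ?_)
    rw [Finset.sum_comm]
    rw [Finset.sum_congr rfl fun i _ => Finset.sum_comm, Finset.sum_comm]
    refine Finset.sum_congr rfl fun A _ => ?_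
    rw [Finset.sum_comm]
  obtain ⟨A, hA, hle2⟩ := Finset.exists_le_of_sum_le hPne
    (f := fun _ => κ ^ (83 + n) * (I.card : ℝ) ^ 2)
    (g := fun A => ∑ i ∈ I, ∑ j ∈ I, volume.real (Th (fun l => l ∈ A) a v B i j)) (by
      refine le_trans ?_ hsum
      rw [Finset.sum_const, nsmul_eq_mul]
      have h1 : (2 : ℝ) ^ (n + 1) * κ ^ (n + 1) ≤ 1 := by
        rw [← mul_pow]
        exact pow_le_one₀ (by positivity) (by linarith)
      have h2 : κ ^ (83 + n) = κ ^ (n + 1) * κ ^ 82 := by ring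
      rw [h2]
      calc (P.card : ℝ) * (κ ^ (n + 1) * κ ^ 82 * (I.card : ℝ) ^ 2)
          ≤ 2 ^ (n + 1) * (κ ^ (n + 1) * κ ^ 82 * (I.card : ℝ) ^ 2) :=
            mul_le_mul_of_nonneg_right hPc (by positivity)
        _ = (2 ^ (n + 1) * κ ^ (n + 1)) * (κ ^ 82 * (I.card : ℝ) ^ 2) := by ring
        _ ≤ 1 * (κ ^ 82 * (I.card : ℝ) ^ 2) := mul_le_mul_of_nonneg_right h1 (by positivity)
        _ = _ := one_mul _)
  rw [hP, Finset.mem_filter] at hA
  exact ⟨A, hA.2.1, hA.2.2, hle2⟩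

theorem base {κ δ : ℝ} (hκ : 0 < κ) {ι : Type} [Fintype ι] [Nonempty ι] [Subsingleton ι]
    {J : Type} {I : Finset J} {a v : J → ι → ℝ} {B : J → Set ℝ}
    {E : Set (ι → ℝ)} (hE : MeasurableSet E) (hF : Fam κ δ I a v B E) :
    ENNReal.ofReal (κ ^ 2) ≤ volume E := by
  classical
  obtain ⟨l0⟩ := ‹Nonempty ι›
  let _ : Unique ι := ⟨⟨l0⟩, fun l => Subsingleton.elim _ _⟩
  obtain ⟨w, hw⟩ := hF.ne
  have hv0 : v w l0 ≠ 0 := fun h => by
    have := (hF.hv w hw l0).1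
    rw [h, abs_zero] at this
    linarith
  obtain ⟨E', hE'⟩ : ∃ E' : Set ℝ, E' = {t | (fun _ : ι => t) ∈ E} := ⟨_, rfl⟩
  have hE'm : MeasurableSet E' := by
    rw [hE']
    exact (show Measurable fun t : ℝ => (fun _ : ι => t) from measurable_pi_iff.2 fun _ =>
      measurable_id) hE
  have hvol : volume E' = volume E := by
    have h1 := (volume_preserving_funUnique ι ℝ).measure_preimage (s := E') hE'm.nullMeasurableSet
    have h2 : (MeasurableEquiv.funUnique ι ℝ) ⁻¹' E' = E := by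
      ext z
      rw [hE']
      show (fun _ : ι => z default) ∈ E ↔ z ∈ E
      have : (fun _ : ι => z default) = z := by
        funext l; congr 1; exact Subsingleton.elim _ _
      rw [this]
    rw [h2] at h1
    have h3 : (Unique.fintype : Fintype ι) = ‹Fintype ι› := Subsingleton.elim _ _
    rw [h3] at h1
    exact h1.symm
  have h2 : volume (B w) ≤ ENNReal.ofReal |(v w l0)⁻¹| * volume E' := by
    have h3 : Measure.map (fun t : ℝ => a w l0 + v w l0 * t) volume E' =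
        volume ((fun t : ℝ => a w l0 + v w l0 * t) ⁻¹' E') :=
      Measure.map_apply (by fun_prop) hE'm
    rw [map_affine hv0] at h3
    have h4 : volume (B w) ≤ volume ((fun t : ℝ => a w l0 + v w l0 * t) ⁻¹' E') := by
      refine measure_mono fun t ht => ?_
      show a w l0 + v w l0 * t ∈ E'
      rw [hE']
      show (fun _ : ι => a w l0 + v w l0 * t) ∈ E
      have h5 := hF.hE w hw t ht
      have : (fun _ : ι => a w l0 + v w l0 * t) = pt a v w t := by
        funext l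
        have hl : l = l0 := Subsingleton.elim _ _
        rw [hl]; rfl
      rw [this]; exact h5
    rw [← h3] at h4
    simpa using h4
  have h6 : ENNReal.ofReal κ ≤ ENNReal.ofReal |(v w l0)⁻¹| * volume E' := by
    refine le_trans ?_ h2
    have h7 := hF.hBκ w hw
    rw [measureReal_def] at h7
    exact ENNReal.ofReal_le_of_le_toReal h7
  have h8 : ENNReal.ofReal |v w l0| * ENNReal.ofReal κ ≤ volume E' := by
    refine (mul_le_mul' le_rfl h6).trans (le_of_eq ?_)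
    rw [← mul_assoc, ← ENNReal.ofReal_mul (abs_nonneg _), ← abs_mul, mul_inv_cancel₀ hv0, abs_one,
      ENNReal.ofReal_one, one_mul]
  rw [← hvol]
  refine le_trans ?_ h8
  rw [← ENNReal.ofReal_mul (abs_nonneg _)]
  refine ENNReal.ofReal_le_ofReal ?_
  rw [pow_two]
  exact mul_le_mul_of_nonneg_right (hF.hv w hw l0).1 hκ.le

theorem claim_all (n : ℕ) : ∃ C : ℕ, ∀ κ : ℝ, 0 < κ → κ ≤ 1 / 2 →
    ∃ δ0 : ℝ, 0 < δ0 ∧ ∀ δ : ℝ, 0 ≤ δ → δ ≤ δ0 → Claim C n κ δ := by
  induction n with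
  | zero =>
    refine ⟨0, fun κ _ _ => ⟨1, one_pos, fun δ _ _ => ?_⟩⟩
    intro ι _ _ hne hcard
    exfalso
    have := Fintype.card_pos (α := ι)
    omega
  | succ n ih =>
    obtain ⟨C, hC⟩ := ih
    obtain ⟨c1, hc1⟩ : ∃ c1 : ℕ, c1 = 83 + n := ⟨_, rfl⟩
    obtain ⟨c2, hc2⟩ : ∃ c2 : ℕ, c2 = C * (c1 + 3) + c1 + 1 := ⟨_, rfl⟩
    refine ⟨2 + (c2 + 1 + C * (c2 + 3 * (n + 1) + 1 + 2)), fun κ hκ hκ2 => ?_⟩
    have hpw : ∀ c : ℕ, κ ^ (c + 1) ≤ 1 / 2 := by
      intro c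
      calc κ ^ (c + 1) = κ ^ c * κ := pow_succ _ _
        _ ≤ 1 * κ := mul_le_mul_of_nonneg_right (pow_le_one₀ hκ.le (by linarith)) hκ.le
        _ ≤ 1 / 2 := by linarith
    obtain ⟨δ1, hδ1, h1⟩ := hC (κ ^ (c1 + 3)) (by positivity) (hpw (c1 + 2))
    obtain ⟨δ2, hδ2, h2⟩ := hC (κ ^ (c2 + 3 * (n + 1) + 1 + 2)) (by positivity)
      (hpw (c2 + 3 * (n + 1) + 1 + 1))
    refine ⟨min (κ ^ 30) (min δ1 δ2), by positivity, fun δ hδ hδ0 => ?_⟩
    have hd1 : δ ≤ κ ^ 30 := hδ0.trans (min_le_left _ _)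
    have hd2 : δ ≤ δ1 := hδ0.trans ((min_le_right _ _).trans (min_le_left _ _))
    have hd3 : δ ≤ δ2 := hδ0.trans ((min_le_right _ _).trans (min_le_right _ _))
    intro ι _ _ _ hcard J I a v B E hE hEs hbox hF
    rcases subsingleton_or_nontrivial ι with hsub | hnt
    · refine le_trans (ENNReal.ofReal_le_ofReal ?_) (base hκ hE hF)
      exact pow_le_pow_of_le_one hκ.le (by linarith) (by omega)
    · obtain ⟨j0, k0, hjk⟩ := exists_pair_ne ι
      obtain ⟨A, hA1, hA2, hth⟩ := pattern hκ hκ2 hd1 hcard hjk hF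
      rw [← hc1] at hth
      have hPs := stepC hκ hκ2 hδ hcard (fun l => l ∈ A) hA1 hA2 hE hEs hbox hF hth (h1 δ hδ hd2)
      rw [← hc2] at hPs
      have hfin := stepD hκ hκ2 hδ hcard (fun l => l ∈ A) hA1 hA2 hE hEs hbox hF hPs
        (h2 δ hδ hd3)
      refine le_trans (ENNReal.ofReal_le_ofReal ?_) hfin
      exact pow_le_pow_of_le_one hκ.le (by linarith) (by omega)

end Pool.Agent.V11222.KM
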