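import Pool.Agent.V11222.KM.Grid2
import Pool.Agent.V11160.OP.Op

/-!
Reflections and general order operations.
-/

set_option autoImplicit false

namespace Pool.Agent.V11222.KM

open Set Filter Topology MeasureTheory
open scoped ENNReal

/-- the reflection which keeps the coordinates with `s l = true` -/
def refl {ι : Type} (s : ι → Bool) (x : ι → ℝ) : ι → ℝ := fun l => if s l then x l else - x l

theorem refl_refl {ι : Type} (s : ι → Bool) (x : ι → ℝ) : refl s (refl s x) = x := by
  funext l
  simp only [refl]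
  split_ifs <;> simp

theorem refl_mp {ι : Type} [Fintype ι] (s : ι → Bool) :
    MeasurePreserving (refl s) (volume : Measure (ι → ℝ)) volume := by
  have h : ∀ l, MeasurePreserving (fun t : ℝ => if s l then t else -t) volume volume := by
    intro l
    by_cases hs : s l
    · simp only [hs, if_true]; exact MeasurePreserving.id _
    · simp only [hs]; exact Measure.measurePreserving_neg volume
  exact volume_preserving_pi h

/-- the reflection as an equivalence -/
def reflE {ι : Type} [Fintype ι] (s : ι → Bool) : (ι → ℝ) ≃ᵐ (ι → ℝ) where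
  toFun := refl s
  invFun := refl s
  left_inv := refl_refl s
  right_inv := refl_refl s
  measurable_toFun := (refl_mp s).measurable
  measurable_invFun := (refl_mp s).measurable

theorem refl_vol {ι : Type} [Fintype ι] (s : ι → Bool) (S : Set (ι → ℝ)) :
    volume {x | refl s x ∈ S} = volume S :=
  MeasurePreserving.measure_preimage_equiv (f := reflE s) (refl_mp s) S

theorem refl_main (n : ℕ) : ∃ C : ℕ, ∀ κ : ℝ, 0 < κ → κ ≤ 1 / 2 →
    ∀ (ι : Type) [Fintype ι] [DecidableEq ι] [Nonempty ι], Fintype.card ι ≤ n →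
    ∀ (S : Set (ι → ℝ)) (Sf : (ι → Bool) → Set (ι → ℝ)), (∀ s, MeasurableSet (Sf s)) →
      S ⊆ (⋃ s, Sf s) → (∀ s, Sf s ⊆ S) →
      (∀ s, ∀ x ∈ Sf s, ∀ y ∈ Sf s, refl s (refl s x ⊔ refl s y) ∈ Sf s) →
    ∀ V : Set (ι → ℝ), (∀ v ∈ V, ∀ l, |v l| ≤ 1) →
      (∀ v ∈ V, ∃ a : ι → ℝ, (∀ l, |a l| ≤ 1 / κ) ∧
        κ ≤ volume.real {t : ℝ | t ∈ Icc (0 : ℝ) 1 ∧ (fun l => a l + v l * t) ∈ S}) →
      ENNReal.ofReal κ ≤ volume V → ENNReal.ofReal (κ ^ C) ≤ volume S := by
  classical
  obtain ⟨C, hC⟩ := grid_main n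
  refine ⟨(n + 1) * C, fun κ hκ hκ2 ι _ _ _ hcard S Sf hSf hcov hsub hcl V hV1 hVa hVω => ?_⟩
  obtain ⟨κ', hκ'⟩ : ∃ κ' : ℝ, κ' = κ ^ (n + 1) := ⟨_, rfl⟩
  have hκ'0 : 0 < κ' := by rw [hκ']; positivity
  have hκ'1 : κ' ≤ κ := by
    calc κ' = κ ^ n * κ := by rw [hκ']; ring
      _ ≤ 1 * κ := mul_le_mul_of_nonneg_right (pow_le_one₀ hκ.le (by linarith)) hκ.le
      _ = κ := one_mul κ
  have hcB : (((Finset.univ : Finset (ι → Bool)).card : ℕ) : ℝ) * κ' ≤ κ := by
    have h1 : ((Finset.univ : Finset (ι → Bool)).card : ℝ) ≤ 2 ^ n := by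
      rw [Finset.card_univ, Fintype.card_fun, Fintype.card_bool]
      push_cast
      exact pow_le_pow_right₀ (by norm_num) hcard
    have h2 : (2 : ℝ) ^ n * κ ^ n ≤ 1 := by
      rw [← mul_pow]; exact pow_le_one₀ (by positivity) (by linarith)
    calc ((Finset.univ : Finset (ι → Bool)).card : ℝ) * κ' ≤ 2 ^ n * κ' :=
          mul_le_mul_of_nonneg_right h1 hκ'0.le
      _ = (2 ^ n * κ ^ n) * κ := by rw [hκ']; ring
      _ ≤ 1 * κ := mul_le_mul_of_nonneg_right h2 hκ.le
      _ = κ := one_mul κ
  obtain ⟨Vf, hVf⟩ : ∃ Vf : (ι → Bool) → Set (ι → ℝ), Vf = fun s => {v ∈ V |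
      ∃ a : ι → ℝ, (∀ l, |a l| ≤ 1 / κ) ∧
        κ' ≤ volume.real {t : ℝ | t ∈ Icc (0 : ℝ) 1 ∧ (fun l => a l + v l * t) ∈ Sf s}} :=
    ⟨_, rfl⟩
  have hfin : ∀ (a v : ι → ℝ) (T : Set (ι → ℝ)),
      volume {t : ℝ | t ∈ Icc (0 : ℝ) 1 ∧ (fun l => a l + v l * t) ∈ T} ≠ ∞ := fun a v T =>
    ne_top_of_le_ne_top isCompact_Icc.measure_ne_top (measure_mono fun t ht => ht.1)
  have hVcov : V ⊆ ⋃ s ∈ (Finset.univ : Finset (ι → Bool)), Vf s := by
    intro v hv
    obtain ⟨a, ha, hav⟩ := hVa v hv
    have h1 : volume.real {t : ℝ | t ∈ Icc (0 : ℝ) 1 ∧ (fun l => a l + v l * t) ∈ S} ≤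
        ∑ s ∈ (Finset.univ : Finset (ι → Bool)),
          volume.real {t : ℝ | t ∈ Icc (0 : ℝ) 1 ∧ (fun l => a l + v l * t) ∈ Sf s} := by
      refine (measureReal_mono ?_ ?_).trans (measureReal_biUnion_finset_le Finset.univ _)
      · intro t ht
        obtain ⟨s, hs⟩ := mem_iUnion.1 (hcov ht.2)
        exact mem_iUnion₂.2 ⟨s, Finset.mem_univ _, ht.1, hs⟩
      · refine ne_top_of_le_ne_top ?_ (measure_biUnion_finset_le Finset.univ _)
        exact ENNReal.sum_ne_top.2 fun s _ => hfin a v (Sf s)
    obtain ⟨s, -, hs⟩ := Finset.exists_le_of_sum_le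
      (s := (Finset.univ : Finset (ι → Bool))) ⟨fun _ => true, Finset.mem_univ _⟩
      (f := fun _ => κ')
      (g := fun s => volume.real {t : ℝ | t ∈ Icc (0 : ℝ) 1 ∧
        (fun l => a l + v l * t) ∈ Sf s}) (by
        rw [Finset.sum_const, nsmul_eq_mul]
        exact hcB.trans (hav.trans h1))
    refine mem_iUnion₂.2 ⟨s, Finset.mem_univ _, ?_⟩
    rw [hVf]
    exact ⟨hv, a, ha, hs⟩
  obtain ⟨s, -, hs⟩ := ENNReal.exists_le_of_sum_le
    (s := (Finset.univ : Finset (ι → Bool))) ⟨fun _ => true, Finset.mem_univ _⟩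
    (f := fun _ => ENNReal.ofReal κ')
    (g := fun s => volume (Vf s)) (by
      rw [Finset.sum_const, nsmul_eq_mul, ← ENNReal.ofReal_natCast,
        ← ENNReal.ofReal_mul (by positivity)]
      exact (ENNReal.ofReal_le_ofReal hcB).trans (hVω.trans ((measure_mono hVcov).trans
        (measure_biUnion_finset_le _ _))))
  have hmain := hC κ' hκ'0 (hκ'1.trans hκ2) ι hcard {x | refl s x ∈ Sf s}
    ((refl_mp s).measurable (hSf s)) (by
      intro x hx y hy
      have := hcl s _ hx _ hy
      rw [refl_refl, refl_refl] at this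
      exact this)
    {v | refl s v ∈ Vf s} (by
      intro v hv l
      rw [hVf] at hv
      have h1 := hV1 _ hv.1 l
      have h2 : |refl s v l| = |v l| := by
        simp only [refl]; split_ifs <;> simp
      rwa [h2] at h1) (by
      intro v hv
      rw [hVf] at hv
      obtain ⟨-, a, ha, hav⟩ := hv
      refine ⟨refl s a, fun l => ?_, ?_⟩
      · have h2 : |refl s a l| = |a l| := by
          simp only [refl]; split_ifs <;> simp
        rw [h2]
        exact (ha l).trans (one_div_le_one_div_of_le hκ'0 hκ'1)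
      · have h3 : {t : ℝ | t ∈ Icc (0 : ℝ) 1 ∧ (fun l => refl s a l + v l * t) ∈
            {x | refl s x ∈ Sf s}} =
            {t : ℝ | t ∈ Icc (0 : ℝ) 1 ∧ (fun l => a l + refl s v l * t) ∈ Sf s} := by
          ext t
          have : refl s (fun l => refl s a l + v l * t) = fun l => a l + refl s v l * t := by
            funext l
            simp only [refl]
            split_ifs <;> ring
          show _ ∧ refl s _ ∈ Sf s ↔ _ ∧ _ ∈ Sf s
          rw [this]
        rw [h3]; exact hav) (by rw [refl_vol]; exact hs)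
  rw [refl_vol] at hmain
  refine le_trans (le_of_eq ?_) (hmain.trans (measure_mono (hsub s)))
  rw [hκ', ← pow_mul]

/-- `S` is closed under minima, under maxima or under medians. -/
def Cl {ι : Type} (S : Set (ι → ℝ)) : Prop :=
  (∀ x ∈ S, ∀ y ∈ S, x ⊓ y ∈ S) ∨ (∀ x ∈ S, ∀ y ∈ S, x ⊔ y ∈ S) ∨
    (∀ x ∈ S, ∀ y ∈ S, ∀ z ∈ S, (fun l => V11160.OP.med (x l) (y l) (z l)) ∈ S)

theorem med_le {a b c : ℝ} (h1 : a ≤ c) (h2 : b ≤ c) : V11160.OP.med a b c = max a b := by
  unfold V11160.OP.med
  rw [min_eq_left h1, min_eq_left h2, max_eq_right]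
  exact min_le_max

theorem med_ge {a b c : ℝ} (h1 : c ≤ a) (h2 : c ≤ b) : V11160.OP.med a b c = min a b := by
  unfold V11160.OP.med
  rw [min_eq_right h1, min_eq_right h2, max_self, max_eq_left]
  exact le_min h1 h2

theorem cl_main (n : ℕ) : ∃ C : ℕ, ∀ κ : ℝ, 0 < κ → κ ≤ 1 / 2 →
    ∀ (ι : Type) [Fintype ι] [DecidableEq ι] [Nonempty ι], Fintype.card ι ≤ n →
    ∀ (S : Set (ι → ℝ)), MeasurableSet S → Cl S →
    ∀ V : Set (ι → ℝ), (∀ v ∈ V, ∀ l, |v l| ≤ 1) →
      (∀ v ∈ V, ∃ a : ι → ℝ, (∀ l, |a l| ≤ 1 / κ) ∧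
        κ ≤ volume.real {t : ℝ | t ∈ Icc (0 : ℝ) 1 ∧ (fun l => a l + v l * t) ∈ S}) →
      ENNReal.ofReal κ ≤ volume V → ENNReal.ofReal (κ ^ C) ≤ volume S := by
  classical
  obtain ⟨C, hC⟩ := refl_main n
  refine ⟨C, fun κ hκ hκ2 ι _ _ _ hcard S hS hcl V hV1 hVa hVω => ?_⟩
  rcases hcl with hcl | hcl | hcl
  · refine hC κ hκ hκ2 ι hcard S (fun s => if s = (fun _ => false) then S else ∅) ?_ ?_ ?_ ?_
      V hV1 hVa hVω
    · intro s; show MeasurableSet (if s = (fun _ => false) then S else ∅)
      split_ifs; exacts [hS, MeasurableSet.empty]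
    · intro x hx
      refine mem_iUnion.2 ⟨fun _ => false, ?_⟩
      show x ∈ (if (fun _ : ι => false) = (fun _ => false) then S else ∅)
      rw [if_pos rfl]; exact hx
    · intro s x hx
      change x ∈ (if s = (fun _ => false) then S else ∅) at hx
      split_ifs at hx
      · exact hx
      · exact absurd hx (notMem_empty _)
    · intro s x hx y hy
      change x ∈ (if s = (fun _ => false) then S else ∅) at hx
      change y ∈ (if s = (fun _ => false) then S else ∅) at hy
      show _ ∈ (if s = (fun _ => false) then S else ∅)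
      split_ifs at hx hy ⊢ with h
      · have : refl s (refl s x ⊔ refl s y) = x ⊓ y := by
          funext l
          subst h
          simp only [refl, Pi.sup_apply, Pi.inf_apply]
          show -(max (-x l) (-y l)) = min (x l) (y l)
          rw [max_neg_neg, neg_neg]
        rw [this]
        exact hcl x hx y hy
      · exact absurd hx (notMem_empty _)
  · refine hC κ hκ hκ2 ι hcard S (fun s => if s = (fun _ => true) then S else ∅) ?_ ?_ ?_ ?_
      V hV1 hVa hVω
    · intro s; show MeasurableSet (if s = (fun _ => true) then S else ∅)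
      split_ifs; exacts [hS, MeasurableSet.empty]
    · intro x hx
      refine mem_iUnion.2 ⟨fun _ => true, ?_⟩
      show x ∈ (if (fun _ : ι => true) = (fun _ => true) then S else ∅)
      rw [if_pos rfl]; exact hx
    · intro s x hx
      change x ∈ (if s = (fun _ => true) then S else ∅) at hx
      split_ifs at hx
      · exact hx
      · exact absurd hx (notMem_empty _)
    · intro s x hx y hy
      change x ∈ (if s = (fun _ => true) then S else ∅) at hx
      change y ∈ (if s = (fun _ => true) then S else ∅) at hy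
      show _ ∈ (if s = (fun _ => true) then S else ∅)
      split_ifs at hx hy ⊢ with h
      · have : refl s (refl s x ⊔ refl s y) = x ⊔ y := by
          funext l
          subst h
          simp only [refl, Pi.sup_apply, if_true]
        rw [this]
        exact hcl x hx y hy
      · exact absurd hx (notMem_empty _)
  · have hne : S.Nonempty := by
      by_contra hcon
      rw [not_nonempty_iff_eq_empty] at hcon
      have hV : V = ∅ := by
        rw [eq_empty_iff_forall_notMem]
        intro v hv
        obtain ⟨a, -, ha⟩ := hVa v hv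
        rw [hcon] at ha
        simp only [mem_empty_iff_false, and_false] at ha
        have h0 : {t : ℝ | False} = ∅ := by ext; simp
        rw [h0] at ha
        simp only [measureReal_empty] at ha
        linarith
      rw [hV, measure_empty, nonpos_iff_eq_zero, ENNReal.ofReal_eq_zero] at hVω
      linarith
    obtain ⟨g, hg⟩ := hne
    refine hC κ hκ hκ2 ι hcard S
      (fun s => S ∩ {x | ∀ l, if s l then x l ≤ g l else g l ≤ x l}) ?_ ?_ ?_ ?_ V hV1 hVa hVω
    · intro s
      refine hS.inter ?_
      have : {x : ι → ℝ | ∀ l, if s l then x l ≤ g l else g l ≤ x l} =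
          ⋂ l, {x : ι → ℝ | if s l then x l ≤ g l else g l ≤ x l} := by
        ext x; simp
      rw [this]
      refine MeasurableSet.iInter fun l => ?_
      by_cases h : s l
      · simp only [h, if_true]
        exact measurableSet_le (measurable_pi_apply l) measurable_const
      · simp only [h]
        exact measurableSet_le measurable_const (measurable_pi_apply l)
    · intro x hx
      refine mem_iUnion.2 ⟨fun l => decide (x l ≤ g l), hx, fun l => ?_⟩
      by_cases h : x l ≤ g l
      · simp [h]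
      · simp only [h]
        exact (not_le.1 h).le
    · intro s; exact inter_subset_left
    · intro s x hx y hy
      have h1 : refl s (refl s x ⊔ refl s y) =
          fun l => V11160.OP.med (x l) (y l) (g l) := by
        funext l
        have e1 := hx.2 l
        have e2 := hy.2 l
        simp only [refl, Pi.sup_apply]
        by_cases h : s l
        · simp only [h, if_true] at e1 e2 ⊢
          exact (med_le e1 e2).symm
        · simp only [h] at e1 e2 ⊢
          rw [med_ge e1 e2]
          show -(max (-x l) (-y l)) = min (x l) (y l)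
          rw [max_neg_neg, neg_neg]
      refine ⟨?_, fun l => ?_⟩
      · rw [h1]; exact hcl x hx.1 y hy.1 g hg
      · have e1 := hx.2 l
        have e2 := hy.2 l
        rw [h1]
        by_cases h : s l
        · simp only [h, if_true] at e1 e2 ⊢
          rw [med_le e1 e2]; exact max_le e1 e2
        · simp only [h] at e1 e2 ⊢
          rw [med_ge e1 e2]; exact le_min e1 e2

/-- A set which is closed under a nontrivial order operation. -/
theorem cl_of_op {ι : Type} {S : Set (ι → ℝ)} {m : ℕ} {f : (Fin m → ℝ) → ℝ}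
    (hf : V11160.OP.OrderOp f) (hnt : ¬ ∃ j, ∀ x, f x = x j)
    (h : ∀ x : Fin m → ι → ℝ, (∀ l, x l ∈ S) → (fun i => f (fun l => x l i)) ∈ S) : Cl S := by
  classical
  rcases V11160.OP.minors hf hnt with ⟨T, hT⟩ | ⟨T, hT⟩ | ⟨j, T, hT⟩
  · left
    intro x hx y hy
    have := h (fun l => if l ∈ T then x else y) (by intro l; split_ifs <;> assumption)
    convert this using 1
    funext i
    rw [Pi.inf_apply, ← hT]
    congr 1; funext l
    split_ifs <;> rfl
  · right; left
    intro x hx y hy
    have := h (fun l => if l ∈ T then x else y) (by intro l; split_ifs <;> assumption)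
    convert this using 1
    funext i
    rw [Pi.sup_apply, ← hT]
    congr 1; funext l
    split_ifs <;> rfl
  · right; right
    intro x hx y hy z hz
    have := h (fun l => if l = j then x else if l ∈ T then y else z)
      (by intro l; split_ifs <;> assumption)
    convert this using 1
    funext i
    rw [← hT]
    congr 1; funext l
    split_ifs <;> rfl

end Pool.Agent.V11222.KM
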