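import Mathlib

/-!
Two lines in the plane with sets of parameters: the pairs of points which are not comparable.
-/

set_option autoImplicit false

namespace Pool.Agent.V11222.KM

open Set Filter Topology MeasureTheory
open scoped ENNReal

/-- the Cauchy-Schwarz inequality for finitely many sets -/
theorem cs_sets {X ι : Type*} [MeasurableSpace X] (μ : Measure X) (I : Finset ι) (U : ι → Set X)
    {D : Set X} (hDf : μ D ≠ ∞) (hU : ∀ i ∈ I, MeasurableSet (U i))
    (hUD : ∀ i ∈ I, U i ⊆ D) :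
    (∑ i ∈ I, μ.real (U i)) ^ 2 ≤ μ.real D * ∑ i ∈ I, ∑ j ∈ I, μ.real (U i ∩ U j) := by
  classical
  obtain ⟨s, hs⟩ : ∃ s : ℝ, s = ∑ i ∈ I, μ.real (U i) := ⟨_, rfl⟩
  obtain ⟨q, hq⟩ : ∃ q : ℝ, q = ∑ i ∈ I, ∑ j ∈ I, μ.real (U i ∩ U j) := ⟨_, rfl⟩
  have : IsFiniteMeasure (μ.restrict D) := ⟨by rw [Measure.restrict_apply_univ]; exact hDf.lt_top⟩
  have hint : ∀ A : Set X, MeasurableSet A → Integrable (A.indicator fun _ => (1 : ℝ))
      (μ.restrict D) := fun A hA => (integrable_const (1 : ℝ)).indicator hA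
  have hval : ∀ A : Set X, MeasurableSet A → A ⊆ D →
      ∫ x, A.indicator (fun _ => (1 : ℝ)) x ∂(μ.restrict D) = μ.real A := by
    intro A hA hAD
    rw [integral_indicator hA, setIntegral_const, smul_eq_mul, mul_one, measureReal_def,
      measureReal_def, Measure.restrict_apply hA, inter_eq_left.2 hAD]
  have key : ∀ c : ℝ, 0 ≤ q - 2 * c * s + c ^ 2 * μ.real D := by
    intro c
    have h0 : 0 ≤ ∫ x, (∑ i ∈ I, (U i).indicator (fun _ => (1 : ℝ)) x - c) ^ 2 ∂(μ.restrict D) :=
      integral_nonneg fun x => sq_nonneg _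
    have h1 : ∀ x, (∑ i ∈ I, (U i).indicator (fun _ => (1 : ℝ)) x - c) ^ 2 =
        (∑ i ∈ I, ∑ j ∈ I, (U i ∩ U j).indicator (fun _ => (1 : ℝ)) x) +
          ((-2 * c) * (∑ i ∈ I, (U i).indicator (fun _ => (1 : ℝ)) x) + c ^ 2) := by
      intro x
      have h2 : (∑ i ∈ I, ∑ j ∈ I, (U i ∩ U j).indicator (fun _ => (1 : ℝ)) x) =
          (∑ i ∈ I, (U i).indicator (fun _ => (1 : ℝ)) x) *
            (∑ j ∈ I, (U j).indicator (fun _ => (1 : ℝ)) x) := by
        rw [Finset.sum_mul_sum]
        refine Finset.sum_congr rfl fun i _ => Finset.sum_congr rfl fun j _ => ?_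
        by_cases hi : x ∈ U i <;> by_cases hj : x ∈ U j <;> simp [hi, hj]
      rw [h2]; ring
    simp only [h1] at h0
    have i1 : Integrable (fun x => ∑ i ∈ I, ∑ j ∈ I, (U i ∩ U j).indicator (fun _ => (1 : ℝ)) x)
        (μ.restrict D) := integrable_finsetSum _ fun i hi => integrable_finsetSum _ fun j hj =>
          hint _ ((hU i hi).inter (hU j hj))
    have i2 : Integrable (fun x => ∑ i ∈ I, (U i).indicator (fun _ => (1 : ℝ)) x)
        (μ.restrict D) := integrable_finsetSum _ fun i hi => hint _ (hU i hi)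
    have i3 : Integrable (fun x => (-2 * c) * (∑ i ∈ I, (U i).indicator (fun _ => (1 : ℝ)) x) +
        c ^ 2) (μ.restrict D) := (i2.const_mul _).add (integrable_const _)
    rw [integral_add i1 i3,
      integral_add (i2.const_mul (-2 * c)) (integrable_const (c ^ 2)), integral_const_mul,
      integral_finsetSum _ (fun i hi => integrable_finsetSum _ fun j hj =>
          hint _ ((hU i hi).inter (hU j hj))), integral_finsetSum _ (fun i hi => hint _ (hU i hi)),
      integral_const] at h0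
    have e1 : ∑ i ∈ I, ∫ x, ∑ j ∈ I, (U i ∩ U j).indicator (fun _ => (1 : ℝ)) x ∂(μ.restrict D) =
        q := by
      rw [hq]
      refine Finset.sum_congr rfl fun i hi => ?_
      rw [integral_finsetSum _ (fun j hj => hint _ ((hU i hi).inter (hU j hj)))]
      exact Finset.sum_congr rfl fun j hj => hval _ ((hU i hi).inter (hU j hj))
        (inter_subset_left.trans (hUD i hi))
    have e2 : ∑ i ∈ I, ∫ x, (U i).indicator (fun _ => (1 : ℝ)) x ∂(μ.restrict D) = s := by
      rw [hs]
      exact Finset.sum_congr rfl fun i hi => hval _ (hU i hi) (hUD i hi)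
    have e3 : (μ.restrict D).real univ = μ.real D := by
      rw [measureReal_def, measureReal_def, Measure.restrict_apply_univ]
    rw [e1, e2, e3, smul_eq_mul] at h0
    linarith
  rw [← hs, ← hq]
  rcases (measureReal_nonneg (μ := μ) (s := D)).eq_or_lt with h0 | h0
  · have hs0 : s = 0 := by
      rw [hs]
      refine Finset.sum_eq_zero fun i hi => ?_
      have := measureReal_mono (hUD i hi) hDf
      have h1 := measureReal_nonneg (μ := μ) (s := U i)
      linarith
    rw [hs0, ← h0]; norm_num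
  · have := key (s / μ.real D)
    have h1 : q - 2 * (s / μ.real D) * s + (s / μ.real D) ^ 2 * μ.real D =
        q - s ^ 2 / μ.real D := by field_simp; ring
    rw [h1] at this
    have h2 : s ^ 2 / μ.real D ≤ q := by linarith
    rw [div_le_iff₀ h0] at h2
    linarith

/-- pairs of near points of a set -/
theorem near_pairs {S : Set ℝ} (hS : MeasurableSet S) {R ρ : ℝ} (hρ : 0 < ρ) (hρR : ρ ≤ R)
    (hSR : S ⊆ Icc (-R) R) :
    volume.real S ^ 2 ≤ (4 * R / ρ) * volume.real {p : ℝ × ℝ | p.1 ∈ S ∧ p.2 ∈ S ∧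
      |p.1 - p.2| < ρ} := by
  have hR : 0 < R := by linarith
  obtain ⟨m, hm⟩ : ∃ m : ℤ, m = ⌊R / ρ⌋ := ⟨_, rfl⟩
  have hm1 : (m : ℝ) ≤ R / ρ := by rw [hm]; exact Int.floor_le _
  have hm2 : R / ρ < m + 1 := by rw [hm]; exact Int.lt_floor_add_one _
  have hm0 : 1 ≤ m := by rw [hm, Int.le_floor]; push_cast; rw [le_div_iff₀ hρ]; linarith
  obtain ⟨J, hJ⟩ : ∃ J : ℤ → Set ℝ,
      J = fun k : ℤ => S ∩ Ico ((k : ℝ) * ρ) (((k : ℝ) + 1) * ρ) := ⟨_, rfl⟩
  have hJm : ∀ k, MeasurableSet (J k) := fun k => by rw [hJ]; exact hS.inter measurableSet_Ico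
  have hdisj : ∀ k l, k ≠ l → Disjoint (J k) (J l) := by
    intro k l hkl
    rw [hJ, Set.disjoint_left]
    rintro x ⟨-, h1, h2⟩ ⟨-, h3, h4⟩
    apply hkl
    have h5 : (k : ℝ) < l + 1 := lt_of_mul_lt_mul_right (h1.trans_lt h4) hρ.le
    have h6 : (l : ℝ) < k + 1 := lt_of_mul_lt_mul_right (h3.trans_lt h2) hρ.le
    have h7 : k < l + 1 := by exact_mod_cast h5
    have h8 : l < k + 1 := by exact_mod_cast h6
    omega
  have hfin : volume S ≠ ∞ := ne_top_of_le_ne_top (isCompact_Icc.measure_ne_top)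
    (measure_mono hSR)
  have hcov : S = ⋃ k ∈ Finset.Icc (-m - 1) m, J k := by
    apply Set.Subset.antisymm
    · intro x hx
      have hxR := hSR hx
      refine mem_iUnion₂.2 ⟨⌊x / ρ⌋, ?_, ?_⟩
      · rw [Finset.mem_Icc]
        constructor
        · rw [Int.le_floor]
          push_cast
          rw [le_div_iff₀ hρ]
          have h1 : R < (m + 1) * ρ := by rwa [div_lt_iff₀ hρ] at hm2
          linarith [hxR.1]
        · have h1 : x / ρ ≤ R / ρ := div_le_div_of_nonneg_right hxR.2 hρ.le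
          have h2 := Int.floor_le_floor h1
          rwa [← hm] at h2
      · rw [hJ]
        refine ⟨hx, ?_, ?_⟩
        · have := Int.floor_le (x / ρ)
          rwa [le_div_iff₀ hρ] at this
        · have := Int.lt_floor_add_one (x / ρ)
          rwa [div_lt_iff₀ hρ] at this
    · refine iUnion₂_subset fun k _ => ?_
      rw [hJ]; exact inter_subset_left
  have hsum : volume.real S = ∑ k ∈ Finset.Icc (-m - 1) m, volume.real (J k) := by
    conv_lhs => rw [hcov]
    rw [measureReal_biUnion_finset (fun k _ l _ hkl => hdisj k l hkl) (fun k _ => hJm k)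
      (fun k _ => ne_top_of_le_ne_top hfin (measure_mono (by rw [hJ]; exact inter_subset_left)))]
  have hcard : ((Finset.Icc (-m - 1) m).card : ℝ) ≤ 4 * R / ρ := by
    rw [Int.card_Icc]
    have h1 : ((m + 1 - (-m - 1)).toNat : ℝ) = 2 * m + 2 := by
      have : ((m + 1 - (-m - 1)).toNat : ℤ) = 2 * m + 2 := by
        rw [Int.toNat_of_nonneg (by omega)]; ring
      exact_mod_cast this
    rw [h1]
    have h2 : (1 : ℝ) ≤ m := by exact_mod_cast hm0
    have h3 : 4 * R / ρ = 4 * (R / ρ) := by ring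
    rw [h3]
    linarith
  have h1 : volume.real S ^ 2 ≤ (4 * R / ρ) * ∑ k ∈ Finset.Icc (-m - 1) m,
      volume.real (J k) ^ 2 := by
    rw [hsum]
    refine (sq_sum_le_card_mul_sum_sq).trans ?_
    exact mul_le_mul_of_nonneg_right hcard (Finset.sum_nonneg fun k _ => sq_nonneg _)
  refine h1.trans (mul_le_mul_of_nonneg_left ?_ (by positivity))
  have hfJ : ∀ k, volume (J k) ≠ ∞ := fun k =>
    ne_top_of_le_ne_top hfin (measure_mono (by rw [hJ]; exact inter_subset_left))
  have h2 : ∑ k ∈ Finset.Icc (-m - 1) m, volume.real (J k) ^ 2 =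
      volume.real (⋃ k ∈ Finset.Icc (-m - 1) m, J k ×ˢ J k) := by
    rw [measureReal_biUnion_finset (fun k _ l _ hkl => Set.disjoint_prod.2 (Or.inl (hdisj k l hkl)))
      (fun k _ => (hJm k).prod (hJm k)) (fun k _ => by
        rw [Measure.volume_eq_prod, Measure.prod_prod]
        exact ENNReal.mul_ne_top (hfJ k) (hfJ k))]
    refine Finset.sum_congr rfl fun k _ => ?_
    rw [Measure.volume_eq_prod, measureReal_prod_prod, sq]
  rw [h2]
  refine measureReal_mono ?_ ?_
  · refine iUnion₂_subset fun k _ => ?_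
    rintro ⟨x, y⟩ ⟨h3, h4⟩
    rw [hJ] at h3 h4
    refine ⟨h3.1, h4.1, ?_⟩
    have h5 := h3.2
    have h6 := h4.2
    simp only [mem_Ico] at h5 h6
    show |x - y| < ρ
    rw [abs_lt]
    constructor <;> nlinarith
  · refine ne_top_of_le_ne_top (b := volume (S ×ˢ S)) ?_ (measure_mono fun p hp => ⟨hp.1, hp.2.1⟩)
    rw [Measure.volume_eq_prod, Measure.prod_prod]
    exact ENNReal.mul_ne_top hfin hfin

end Pool.Agent.V11222.KM
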