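import Pool.Agent.V11222.KM.Pair

/-!
Two lines in the plane with sets of parameters: the pairs of points which are not comparable.
-/

set_option autoImplicit false

namespace Pool.Agent.V11222.KM

open Set Filter Topology MeasureTheory
open scoped ENNReal

theorem diag_null : (volume : Measure (ℝ × ℝ)) {p | p.1 = p.2} = 0 := by
  have hm : MeasurableSet {p : ℝ × ℝ | p.1 = p.2} :=
    measurableSet_eq_fun measurable_fst measurable_snd
  rw [Measure.volume_eq_prod, Measure.prod_apply hm]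
  have : ∀ x : ℝ, volume (Prod.mk x ⁻¹' {p : ℝ × ℝ | p.1 = p.2}) = 0 := by
    intro x
    have h : Prod.mk x ⁻¹' {p : ℝ × ℝ | p.1 = p.2} = {x} := by
      ext y; simp [eq_comm]
    rw [h, Real.volume_singleton]
  simp [this]

/-- the pairs near the diagonal whose first member lies in a set -/
theorem strip {Z : Set ℝ} (hZ : MeasurableSet Z) (ρ : ℝ) :
    (volume : Measure (ℝ × ℝ)) {p | p.1 ∈ Z ∧ |p.1 - p.2| < ρ} = volume Z * ENNReal.ofReal (2 * ρ) := by
  have hm : MeasurableSet {p : ℝ × ℝ | p.1 ∈ Z ∧ |p.1 - p.2| < ρ} :=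
    (measurable_fst hZ).inter (measurableSet_lt
      (show Measurable fun p : ℝ × ℝ => |p.1 - p.2| by fun_prop) measurable_const)
  rw [Measure.volume_eq_prod, Measure.prod_apply hm]
  have : ∀ x : ℝ, volume (Prod.mk x ⁻¹' {p : ℝ × ℝ | p.1 ∈ Z ∧ |p.1 - p.2| < ρ}) =
      Z.indicator (fun _ => ENNReal.ofReal (2 * ρ)) x := by
    intro x
    by_cases hx : x ∈ Z
    · rw [indicator_of_mem hx]
      have h : Prod.mk x ⁻¹' {p : ℝ × ℝ | p.1 ∈ Z ∧ |p.1 - p.2| < ρ} = Metric.ball x ρ := by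
        ext y
        simp only [mem_preimage, mem_setOf_eq, Metric.mem_ball, Real.dist_eq, abs_sub_comm y x]
        exact ⟨fun h => h.2, fun h => ⟨hx, h⟩⟩
      rw [h, Real.volume_ball]
    · rw [indicator_of_notMem hx]
      have h : Prod.mk x ⁻¹' {p : ℝ × ℝ | p.1 ∈ Z ∧ |p.1 - p.2| < ρ} = ∅ := by
        ext y
        simp [hx]
      rw [h, measure_empty]
  simp only [this]
  rw [lintegral_indicator_const hZ, mul_comm]

/-- the set where two lines are near each other -/
theorem near_set {s c σ τ : ℝ} (hσ : 0 < σ) (hs : σ ≤ |s|) :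
    volume {x : ℝ | |s * x + c| ≤ τ} ≤ ENNReal.ofReal (2 * (τ / σ)) := by
  have hs0 : s ≠ 0 := fun h => by rw [h, abs_zero] at hs; linarith
  refine (measure_mono ?_ : _ ≤ volume (Metric.closedBall (-c / s) (τ / σ))).trans
    (le_of_eq (Real.volume_closedBall _ _))
  intro x hx
  have hx' : |s * x + c| ≤ τ := hx
  rw [Metric.mem_closedBall, Real.dist_eq]
  have h1 : x - -c / s = (s * x + c) / s := by field_simp; ring
  rw [h1, abs_div]
  have hτ : 0 ≤ τ := (abs_nonneg _).trans hx'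
  exact div_le_div₀ hτ hx' hσ hs

/-- **pairs which are not comparable**, the first coordinates as parameters -/
theorem mix_x {s c s' c' Λ σ ρ : ℝ} (hΛ : 0 ≤ Λ) (hσ : 0 < σ) (hρ : 0 < ρ) (h's : |s| ≤ Λ)
    (h's' : |s'| ≤ Λ) (hss : σ ≤ |s - s'|) {S S' : Set ℝ} (hS : MeasurableSet S) (hS' : MeasurableSet S') :
    volume {p : ℝ × ℝ | p.1 ∈ S ∩ S' ∧ p.2 ∈ S ∩ S' ∧ |p.1 - p.2| < ρ} ≤
      2 * volume {p : ℝ × ℝ | p.1 ∈ S ∧ p.2 ∈ S' ∧
        (p.1 - p.2) * ((c + s * p.1) - (c' + s' * p.2)) < 0} +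
      ENNReal.ofReal (4 * Λ * ρ ^ 2 / σ) := by
  obtain ⟨M, hM⟩ : ∃ M : Set (ℝ × ℝ), M = {p : ℝ × ℝ | p.1 ∈ S ∧ p.2 ∈ S' ∧
        (p.1 - p.2) * ((c + s * p.1) - (c' + s' * p.2)) < 0} := ⟨_, rfl⟩
  have hMm : MeasurableSet M := by
    rw [hM]
    exact (measurable_fst hS).inter ((measurable_snd hS').inter
      (measurableSet_lt (show Measurable fun p : ℝ × ℝ =>
        (p.1 - p.2) * ((c + s * p.1) - (c' + s' * p.2)) by fun_prop) measurable_const))
  obtain ⟨Z, hZ⟩ : ∃ Z : Set ℝ, Z = {x : ℝ | |(s - s') * x + (c - c')| ≤ Λ * ρ} := ⟨_, rfl⟩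
  have hZm : MeasurableSet Z := by
    rw [hZ]
    exact measurableSet_le (show Measurable fun x : ℝ => |(s - s') * x + (c - c')| by fun_prop)
      measurable_const
  have hsub : {p : ℝ × ℝ | p.1 ∈ S ∩ S' ∧ p.2 ∈ S ∩ S' ∧ |p.1 - p.2| < ρ} ⊆
      (M ∪ Prod.swap ⁻¹' M) ∪ ({p | p.1 = p.2} ∪ {p | p.1 ∈ Z ∧ |p.1 - p.2| < ρ}) := by
    rintro ⟨x, X⟩ ⟨⟨hx, hx'⟩, ⟨hX, hX'⟩, hd⟩
    simp only at hx hx' hX hX' hd
    by_cases hxX : x = X
    · exact Or.inr (Or.inl hxX)
    by_cases hxZ : x ∈ Z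
    · exact Or.inr (Or.inr ⟨hxZ, hd⟩)
    left
    have hgap : Λ * ρ < |(s - s') * x + (c - c')| := by
      rw [hZ] at hxZ; exact not_le.1 hxZ
    -- the change of the second line
    have hvar : |s' * (x - X)| ≤ Λ * ρ := by
      rw [abs_mul]; exact mul_le_mul h's' hd.le (abs_nonneg _) hΛ
    have hvar' := abs_le.1 hvar
    have e1 : (c + s * x) - (c' + s' * X) = ((s - s') * x + (c - c')) + s' * (x - X) := by ring
    have hvar2 : |s * (X - x)| ≤ Λ * ρ := by
      rw [abs_mul, abs_sub_comm]; exact mul_le_mul h's hd.le (abs_nonneg _) hΛ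
    have hvar2' := abs_le.1 hvar2
    have e2 : (c + s * X) - (c' + s' * x) = ((s - s') * x + (c - c')) + s * (X - x) := by ring
    rcases lt_or_gt_of_ne hxX with hlt | hgt
    · -- x < X
      rcases lt_abs.1 hgap with hg | hg
      · left
        rw [hM]
        refine ⟨hx, hX', ?_⟩
        show (x - X) * ((c + s * x) - (c' + s' * X)) < 0
        rw [e1]
        exact mul_neg_of_neg_of_pos (by linarith) (by linarith)
      · right
        rw [hM]
        refine ⟨hX, hx', ?_⟩
        show (X - x) * ((c + s * X) - (c' + s' * x)) < 0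
        rw [e2]
        exact mul_neg_of_pos_of_neg (by linarith) (by linarith)
    · rcases lt_abs.1 hgap with hg | hg
      · right
        rw [hM]
        refine ⟨hX, hx', ?_⟩
        show (X - x) * ((c + s * X) - (c' + s' * x)) < 0
        rw [e2]
        exact mul_neg_of_neg_of_pos (by linarith) (by linarith)
      · left
        rw [hM]
        refine ⟨hx, hX', ?_⟩
        show (x - X) * ((c + s * x) - (c' + s' * X)) < 0
        rw [e1]
        exact mul_neg_of_pos_of_neg (by linarith) (by linarith)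
  refine (measure_mono hsub).trans ((measure_union_le _ _).trans (add_le_add ?_ ?_))
  · refine (measure_union_le _ _).trans ?_
    have hsw : volume (Prod.swap ⁻¹' M) = volume M :=
      (Measure.measurePreserving_swap (μ := (volume : Measure ℝ))
        (ν := (volume : Measure ℝ))).measure_preimage hMm.nullMeasurableSet
    rw [hsw, two_mul, ← hM]
  · refine (measure_union_le _ _).trans ?_
    rw [diag_null, zero_add, strip hZm, hZ]
    refine (mul_le_mul_left (near_set hσ hss) _).trans ?_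
    rw [← ENNReal.ofReal_mul (by positivity)]
    refine ENNReal.ofReal_le_ofReal (le_of_eq ?_)
    field_simp
    ring

/-- an affine change of the parameter does not decrease the measure -/
theorem map_affine {α β : ℝ} (hβ : β ≠ 0) :
    Measure.map (fun t : ℝ => α + β * t) volume = ENNReal.ofReal |β⁻¹| • volume := by
  have h : (fun t : ℝ => α + β * t) = (fun x => α + x) ∘ (fun t => β * t) := rfl
  rw [h, ← Measure.map_map (by fun_prop) (by fun_prop), Real.map_volume_mul_left hβ,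
    Measure.map_smul, map_add_left_eq_self]

theorem affine_prod {α β α' β' : ℝ} (hβ : β ≠ 0) (hβ' : β' ≠ 0) (h1 : |β| ≤ 1) (h1' : |β'| ≤ 1)
    {M : Set (ℝ × ℝ)} (hM : MeasurableSet M) :
    volume M ≤ volume {p : ℝ × ℝ | (α + β * p.1, α' + β' * p.2) ∈ M} := by
  have h2 : Measure.map (Prod.map (fun t : ℝ => α + β * t) (fun t : ℝ => α' + β' * t))
      (volume : Measure (ℝ × ℝ)) = ENNReal.ofReal |β⁻¹| • ENNReal.ofReal |β'⁻¹| •
        (volume : Measure (ℝ × ℝ)) := by
    rw [Measure.volume_eq_prod, ← Measure.map_prod_map _ _ (by fun_prop) (by fun_prop),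
      map_affine hβ, map_affine hβ', Measure.prod_smul_left, Measure.prod_smul_right]
  have h3 : volume {p : ℝ × ℝ | (α + β * p.1, α' + β' * p.2) ∈ M} =
      Measure.map (Prod.map (fun t : ℝ => α + β * t) (fun t : ℝ => α' + β' * t))
      (volume : Measure (ℝ × ℝ)) M := by
    rw [Measure.map_apply (by fun_prop) hM]
    rfl
  have hone : ∀ γ : ℝ, γ ≠ 0 → |γ| ≤ 1 → 1 ≤ ENNReal.ofReal |γ⁻¹| := by
    intro γ hγ hγ1
    rw [ENNReal.one_le_ofReal, abs_inv]
    exact (one_le_inv₀ (abs_pos.2 hγ)).2 hγ1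
  rw [h3, h2, Measure.smul_apply, Measure.smul_apply, smul_eq_mul, smul_eq_mul]
  calc volume M = 1 * (1 * volume M) := by rw [one_mul, one_mul]
    _ ≤ _ := mul_le_mul' (hone β hβ h1) (mul_le_mul' (hone β' hβ' h1') le_rfl)

end Pool.Agent.V11222.KM
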