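import Pool.Agent.V11222.KM.Cone

/-!
The restricted estimate for sets which are closed under an order operation.
-/

set_option autoImplicit false

namespace Pool.Agent.V11222.KM

open Set Filter Topology MeasureTheory Metric
open scoped ENNReal

theorem restricted (m : ℕ) : ∃ C : ℕ, 1 ≤ C ∧ ∀ L : E (m + 1) ≃L[ℝ] (Fin (m + 1) → ℝ),
    (∀ x l, |L x l| ≤ ‖x‖ / 2) → ∃ c : ℝ, 0 < c ∧ ∀ R : ℝ, 1 ≤ R →
      ∀ S : Set (E (m + 1)), MeasurableSet S → S ⊆ closedBall 0 R → Cl {y | L.symm y ∈ S} →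
      ∀ (Ω : Set (sphere (0 : E (m + 1)) 1)) (lam : ℝ), 0 < lam → lam ≤ 1 →
        (∀ e ∈ Ω, ∃ a : E (m + 1), lam ≤ volume.real {t : ℝ | t ∈ Icc (-(1 / 2) : ℝ) (1 / 2) ∧
          a + t • (e : E (m + 1)) ∈ S}) →
        c * (lam * (volume : Measure (E (m + 1))).toSphere.real Ω / R) ^ C ≤ volume.real S := by
  obtain ⟨C, hC⟩ := cl_main (m + 1)
  refine ⟨C + 1, by omega, fun L hL => ?_⟩
  obtain ⟨c1, hc1, hcone⟩ := cone_vol m
  obtain ⟨D, hD, hDvol⟩ := lin_vol L
  obtain ⟨σ, hσ⟩ : ∃ σ : Measure (sphere (0 : E (m + 1)) 1),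
    σ = (volume : Measure (E (m + 1))).toSphere := ⟨_, rfl⟩
  have hσf : IsFiniteMeasure σ := by rw [hσ]; infer_instance
  obtain ⟨s, hs⟩ : ∃ s : ℝ, s = σ.real univ := ⟨_, rfl⟩
  have hs0 : 0 ≤ s := by rw [hs]; exact measureReal_nonneg
  obtain ⟨c0, hc0⟩ : ∃ c0 : ℝ, c0 = min (1 / (2 * (s + 1))) (D * c1) := ⟨_, rfl⟩
  have hc00 : 0 < c0 := by rw [hc0]; positivity
  have hc01 : c0 * (s + 1) ≤ 1 / 2 := by
    have h1 : c0 ≤ 1 / (2 * (s + 1)) := by rw [hc0]; exact min_le_left _ _
    calc c0 * (s + 1) ≤ 1 / (2 * (s + 1)) * (s + 1) :=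
          mul_le_mul_of_nonneg_right h1 (by positivity)
      _ = 1 / 2 := by field_simp
  have hc02 : c0 ≤ D * c1 := by rw [hc0]; exact min_le_right _ _
  refine ⟨c0 ^ (C + 1) / D, by positivity, ?_⟩
  intro R hR S hS hSR hcl Ω lam hlam hlam1 hΩ
  rw [← hσ]
  obtain ⟨ω, hω⟩ : ∃ ω : ℝ, ω = σ.real Ω := ⟨_, rfl⟩
  rw [← hω]
  have hω0 : 0 ≤ ω := by rw [hω]; exact measureReal_nonneg
  have hωs : ω ≤ s := by
    rw [hω, hs]; exact measureReal_mono (subset_univ _) (measure_ne_top _ _)
  rcases hω0.eq_or_lt with h0 | hω1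
  · rw [← h0, mul_zero, zero_div, zero_pow (by omega), mul_zero]
    exact measureReal_nonneg
  have hR0 : 0 < R := by linarith
  obtain ⟨κ, hκ⟩ : ∃ κ : ℝ, κ = c0 * (lam * ω / R) := ⟨_, rfl⟩
  have hκ0 : 0 < κ := by rw [hκ]; positivity
  have hc0ω : c0 * ω ≤ 1 / 2 := by
    refine le_trans ?_ hc01
    exact mul_le_mul_of_nonneg_left (by linarith) hc00.le
  have hκR : κ * R ≤ lam / 2 := by
    have : κ * R = (c0 * ω) * lam := by rw [hκ]; field_simp
    rw [this]
    calc c0 * ω * lam ≤ 1 / 2 * lam := mul_le_mul_of_nonneg_right hc0ω hlam.le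
      _ = lam / 2 := by ring
  have hκlam : κ ≤ lam / 2 := by
    refine le_trans ?_ hκR
    nlinarith
  have hκ2 : κ ≤ 1 / 2 := by linarith
  have hκω : κ ≤ D * c1 * ω := by
    have h1 : lam * ω / R ≤ ω := by
      rw [div_le_iff₀ hR0]; nlinarith
    calc κ ≤ c0 * ω := by rw [hκ]; exact mul_le_mul_of_nonneg_left h1 hc00.le
      _ ≤ D * c1 * ω := mul_le_mul_of_nonneg_right hc02 hω1.le
  have hvolΩ : σ Ω = ENNReal.ofReal ω := by
    rw [hω, measureReal_def, ENNReal.ofReal_toReal (measure_ne_top _ _)]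
  have hSfin : volume S ≠ ∞ :=
    ne_top_of_le_ne_top (isCompact_closedBall _ _).measure_ne_top (measure_mono hSR)
  have hmeasE : MeasurableSet {y : Fin (m + 1) → ℝ | L.symm y ∈ S} :=
    L.symm.continuous.measurable hS
  have hmain := hC κ hκ0 hκ2 (Fin (m + 1)) (by simp) {y | L.symm y ∈ S} hmeasE hcl
    {y | L.symm y ∈ cone Ω} (by
      intro v hv l
      obtain ⟨e, he, r, hr1, hr2, hre⟩ := hv
      have h1 : v = L (r • (e : E (m + 1))) := by
        rw [← hre, L.apply_symm_apply]
      have h2 : ‖r • (e : E (m + 1))‖ = r := by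
        have h3 : ‖(e : E (m + 1))‖ = 1 := by simp
        rw [norm_smul, h3, Real.norm_eq_abs, abs_of_pos (by linarith), mul_one]
      rw [h1]
      refine (hL _ l).trans ?_
      rw [h2]; linarith) (by
      intro v hv
      obtain ⟨e, he, r, hr1, hr2, hre⟩ := hv
      have hr0 : 0 < r := by linarith
      have he1 : ‖(e : E (m + 1))‖ = 1 := by simp
      obtain ⟨a, ha⟩ := hΩ e he
      obtain ⟨T, hT⟩ : ∃ T : Set ℝ, T = {t : ℝ | t ∈ Icc (-(1 / 2) : ℝ) (1 / 2) ∧
          a + t • (e : E (m + 1)) ∈ S} := ⟨_, rfl⟩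
      rw [← hT] at ha
      have hTne : T.Nonempty := by
        rw [nonempty_iff_ne_empty]
        intro h
        rw [h, measureReal_empty] at ha
        linarith
      obtain ⟨t0, ht0⟩ := hTne
      rw [hT] at ht0
      have hna : ‖a - (1 / 2 : ℝ) • (e : E (m + 1))‖ ≤ R + 1 := by
        have h1 : a - (1 / 2 : ℝ) • (e : E (m + 1)) =
            (a + t0 • (e : E (m + 1))) - (t0 + 1 / 2) • (e : E (m + 1)) := by
          rw [add_smul]; abel
        rw [h1]
        refine (norm_sub_le _ _).trans (add_le_add ?_ ?_)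
        · exact mem_closedBall_zero_iff.1 (hSR ht0.2)
        · rw [norm_smul, he1, mul_one, Real.norm_eq_abs, abs_le]
          constructor <;> linarith [ht0.1.1, ht0.1.2]
      refine ⟨L (a - (1 / 2 : ℝ) • (e : E (m + 1))), fun l => ?_, ?_⟩
      · refine (hL _ l).trans ?_
        rw [le_div_iff₀ hκ0]
        have h1 : ‖a - (1 / 2 : ℝ) • (e : E (m + 1))‖ / 2 ≤ R := by linarith
        calc ‖a - (1 / 2 : ℝ) • (e : E (m + 1))‖ / 2 * κ ≤ R * κ :=
              mul_le_mul_of_nonneg_right h1 hκ0.le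
          _ ≤ 1 := by linarith
      · obtain ⟨U, hU⟩ : ∃ U : Set ℝ, U = {t : ℝ | t ∈ Icc (0 : ℝ) 1 ∧
            (fun l => L (a - (1 / 2 : ℝ) • (e : E (m + 1))) l + v l * t) ∈
              {y | L.symm y ∈ S}} := ⟨_, rfl⟩
        rw [← hU]
        have hUm : MeasurableSet U := by
          rw [hU]
          refine measurableSet_Icc.inter ?_
          exact (measurable_pi_iff.2 fun l =>
            (show Measurable fun t : ℝ => L (a - (1 / 2 : ℝ) • (e : E (m + 1))) l + v l * t by
              fun_prop)) hmeasE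
        have hpt : ∀ u : ℝ, L.symm (fun l => L (a - (1 / 2 : ℝ) • (e : E (m + 1))) l + v l * u) =
            a - (1 / 2 : ℝ) • (e : E (m + 1)) + (u * r) • (e : E (m + 1)) := by
          intro u
          have h1 : (fun l => L (a - (1 / 2 : ℝ) • (e : E (m + 1))) l + v l * u) =
              L (a - (1 / 2 : ℝ) • (e : E (m + 1))) + u • v := by
            funext l; simp [mul_comm]
          rw [h1, map_add, map_smul, L.symm_apply_apply, hre, smul_smul]
        have hβ : (1 / r : ℝ) ≠ 0 := by positivity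
        have hsub : T ⊆ (fun t : ℝ => 1 / (2 * r) + 1 / r * t) ⁻¹' U := by
          intro t ht
          rw [hT] at ht
          show 1 / (2 * r) + 1 / r * t ∈ U
          rw [hU]
          refine ⟨⟨?_, ?_⟩, ?_⟩
          · have : 1 / (2 * r) + 1 / r * t = (1 / 2 + t) / r := by field_simp
            rw [this]
            exact div_nonneg (by linarith [ht.1.1]) hr0.le
          · have : 1 / (2 * r) + 1 / r * t = (1 / 2 + t) / r := by field_simp
            rw [this, div_le_one hr0]; linarith [ht.1.2]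
          · show L.symm _ ∈ S
            rw [hpt]
            have h1 : (1 / (2 * r) + 1 / r * t) * r = 1 / 2 + t := by field_simp
            rw [h1]
            have h2 : a - (1 / 2 : ℝ) • (e : E (m + 1)) + (1 / 2 + t) • (e : E (m + 1)) =
                a + t • (e : E (m + 1)) := by rw [add_smul]; abel
            rw [h2]; exact ht.2
        have h5 : Measure.map (fun t : ℝ => 1 / (2 * r) + 1 / r * t) volume U =
            volume ((fun t : ℝ => 1 / (2 * r) + 1 / r * t) ⁻¹' U) :=
          Measure.map_apply (by fun_prop) hUm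
        rw [map_affine hβ] at h5
        have hUf : volume U ≠ ∞ := by
          refine ne_top_of_le_ne_top isCompact_Icc.measure_ne_top (measure_mono (?_ : U ⊆ Icc 0 1))
          rw [hU]; exact fun t ht => ht.1
        have h6 : volume T ≤ ENNReal.ofReal r * volume U := by
          refine (measure_mono hsub).trans (le_of_eq ?_)
          rw [← h5, Measure.smul_apply, smul_eq_mul, one_div, inv_inv, abs_of_pos hr0]
        have h7 : volume.real T ≤ r * volume.real U := by
          have := ENNReal.toReal_mono (ENNReal.mul_ne_top ENNReal.ofReal_ne_top hUf) h6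
          rwa [ENNReal.toReal_mul, ENNReal.toReal_ofReal hr0.le] at this
        have h8 : 0 ≤ volume.real U := measureReal_nonneg
        have h9 : lam ≤ 2 * volume.real U := by
          refine ha.trans (h7.trans ?_)
          exact mul_le_mul_of_nonneg_right hr2.le h8
        linarith) (by
      rw [hDvol, hcone, ← hσ, hvolΩ, ← mul_assoc, ← ENNReal.ofReal_mul hD.le,
        ← ENNReal.ofReal_mul (by positivity)]
      exact ENNReal.ofReal_le_ofReal hκω)
  rw [hDvol] at hmain
  have h10 : κ ^ C ≤ D * volume.real S := by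
    have := ENNReal.toReal_mono (ENNReal.mul_ne_top ENNReal.ofReal_ne_top hSfin) hmain
    rwa [ENNReal.toReal_ofReal (by positivity), ENNReal.toReal_mul,
      ENNReal.toReal_ofReal hD.le] at this
  have h11 : κ ^ (C + 1) ≤ κ ^ C := pow_le_pow_of_le_one hκ0.le (by linarith) (by omega)
  calc c0 ^ (C + 1) / D * (lam * ω / R) ^ (C + 1) = κ ^ (C + 1) / D := by
        rw [hκ, mul_pow]; ring
    _ ≤ κ ^ C / D := div_le_div_of_nonneg_right h11 hD.le
    _ ≤ volume.real S := by rw [div_le_iff₀ hD]; linarith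

end Pool.Agent.V11222.KM
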