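import Pool.Agent.V11222.KM.Total

/-!
Families of lines with sets of parameters: averaging and projections.
-/

set_option autoImplicit false

namespace Pool.Agent.V11222.KM

open Set Filter Topology MeasureTheory
open scoped ENNReal

theorem avg1 {Y : Type*} [MeasurableSpace Y] (μ : Measure Y) {φ : Y → ℝ≥0∞} (hφ : Measurable φ)
    {D : Set Y} (hD : MeasurableSet D) (hsupp : ∀ y, y ∉ D → φ y = 0) {m s : ℝ≥0∞}
    (hm : ∀ y, φ y ≤ m) : ∫⁻ y, φ y ∂μ ≤ m * μ {y | s ≤ φ y} + s * μ D := by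
  have hS : MeasurableSet {y | s ≤ φ y} := measurableSet_le measurable_const hφ
  have h1 : ∀ y, φ y ≤ ({y | s ≤ φ y}.indicator (fun _ => m) y) + (D.indicator (fun _ => s) y) := by
    intro y
    by_cases hy : s ≤ φ y
    · rw [indicator_of_mem (show y ∈ {y | s ≤ φ y} from hy)]
      exact (hm y).trans le_self_add
    · by_cases hyD : y ∈ D
      · rw [indicator_of_mem hyD]
        exact (not_le.1 hy).le.trans le_add_self
      · rw [hsupp y hyD]; exact zero_le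
  refine (lintegral_mono h1).trans (le_of_eq ?_)
  rw [lintegral_add_left (measurable_const.indicator hS), lintegral_indicator_const hS,
    lintegral_indicator_const hD]

theorem half_le {α x : ℝ≥0∞} (h : α ≤ x + α / 2) (hα : α ≠ ∞) : α / 2 ≤ x := by
  by_contra hcon
  push Not at hcon
  have h2 : α / 2 ≠ ∞ := ENNReal.div_ne_top hα (by norm_num)
  have h3 : x + α / 2 < α / 2 + α / 2 := ENNReal.add_lt_add_right h2 hcon
  rw [ENNReal.add_halves] at h3
  exact absurd h (not_le.2 h3)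

open Classical in
theorem many {J : Type*} (I : Finset J) (θ : J → ℝ) {s : ℝ} (hs : 0 ≤ s)
    (h1 : ∀ i ∈ I, θ i ≤ 1) (h : s * I.card ≤ ∑ i ∈ I, θ i) :
    s / 2 * I.card ≤ ((I.filter fun i => s / 2 ≤ θ i).card : ℝ) := by
  have h2 : ∑ i ∈ I, θ i ≤ ∑ i ∈ I, ((if s / 2 ≤ θ i then 1 else 0) + s / 2) := by
    refine Finset.sum_le_sum fun i hi => ?_
    split_ifs with hi2
    · have := h1 i hi; linarith
    · push Not at hi2; linarith
  rw [Finset.sum_add_distrib, Finset.sum_const, nsmul_eq_mul, Finset.sum_ite,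
    Finset.sum_const_zero, add_zero, Finset.sum_const, nsmul_eq_mul, mul_one] at h2
  linarith

theorem many' {J : Type*} (I : Finset J) (θ : J → ℝ) {s : ℝ} (hs : 0 ≤ s)
    (h1 : ∀ i ∈ I, θ i ≤ 1) (h : s * I.card ≤ ∑ i ∈ I, θ i) :
    ∃ I' ⊆ I, (∀ i ∈ I', s / 2 ≤ θ i) ∧ s / 2 * I.card ≤ (I'.card : ℝ) := by
  classical
  exact ⟨_, Finset.filter_subset _ _, fun i hi => (Finset.mem_filter.1 hi).2, many I θ hs h1 h⟩

/-- the point of the line number `i` with the parameter `t` -/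
def pt {ι J : Type} (a v : J → ι → ℝ) (i : J) (t : ℝ) : ι → ℝ := fun j => a i j + v i j * t

open Classical in
/-- a family of lines with sets of parameters for which the points lie in `E` -/
structure Fam (κ δ : ℝ) {ι J : Type} (I : Finset J) (a v : J → ι → ℝ) (B : J → Set ℝ)
    (E : Set (ι → ℝ)) : Prop where
  ne : I.Nonempty
  ha : ∀ i ∈ I, ∀ j, |a i j| ≤ 1 / κ
  hv : ∀ i ∈ I, ∀ j, κ ≤ |v i j| ∧ |v i j| ≤ 1
  hB : ∀ i ∈ I, MeasurableSet (B i)
  hB1 : ∀ i ∈ I, B i ⊆ Icc 0 1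
  hBκ : ∀ i ∈ I, κ ≤ volume.real (B i)
  hE : ∀ i ∈ I, ∀ t ∈ B i, pt a v i t ∈ E
  hG : ∀ j k, j ≠ k → ∀ w ∈ I, ∀ σ : ℝ, 0 < σ →
    (((I.filter fun i => |v i k * v w j - v i j * v w k| ≤ σ).card : ℕ) : ℝ) ≤
      κ⁻¹ * (σ + δ) * I.card

theorem Fam.sub {κ δ : ℝ} {ι J : Type} {I : Finset J} {a v : J → ι → ℝ} {B : J → Set ℝ}
    {E : Set (ι → ℝ)} (hF : Fam κ δ I a v B E) (hκ : 0 < κ) (hκ2 : κ ≤ 1 / 2) (hδ : 0 ≤ δ)
    (p : ι → Prop) {I' : Finset J} (hI' : I' ⊆ I) {c : ℕ}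
    (hcard : κ ^ c / 2 * I.card ≤ (I'.card : ℝ)) {B' : J → Set ℝ}
    (hB : ∀ i ∈ I', MeasurableSet (B' i)) (hB1 : ∀ i ∈ I', B' i ⊆ Icc 0 1)
    (hBκ : ∀ i ∈ I', κ ^ c / 2 ≤ volume.real (B' i)) {E' : Set ({l // p l} → ℝ)}
    (hE : ∀ i ∈ I', ∀ t ∈ B' i, (fun l : {l // p l} => pt a v i t l) ∈ E') :
    Fam (κ ^ (c + 2)) δ I' (fun i (l : {l // p l}) => a i l) (fun i (l : {l // p l}) => v i l)
      B' E' := by
  have hI0 : (0 : ℝ) < I.card := by exact_mod_cast hF.ne.card_pos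
  have hκc : 0 < κ ^ c := by positivity
  have hpow : κ ^ (c + 2) ≤ κ := by
    calc κ ^ (c + 2) = κ ^ (c + 1) * κ := by ring
      _ ≤ 1 * κ := mul_le_mul_of_nonneg_right (pow_le_one₀ hκ.le (by linarith)) hκ.le
      _ = κ := one_mul κ
  have hpow2 : κ ^ (c + 2) ≤ κ ^ c / 2 := by
    have h1 : κ ^ 2 ≤ 1 / 2 := by nlinarith
    calc κ ^ (c + 2) = κ ^ c * κ ^ 2 := by ring
      _ ≤ κ ^ c * (1 / 2) := mul_le_mul_of_nonneg_left h1 hκc.le
      _ = κ ^ c / 2 := by ring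
  refine ⟨?_, ?_, ?_, hB, hB1, fun i hi => hpow2.trans (hBκ i hi), fun i hi t ht => hE i hi t ht, ?_⟩
  · have h1 : (0 : ℝ) < I'.card := lt_of_lt_of_le (by positivity) hcard
    exact Finset.card_pos.1 (by exact_mod_cast h1)
  · intro i hi j
    refine (hF.ha i (hI' hi) j).trans ?_
    exact one_div_le_one_div_of_le (by positivity) hpow
  · intro i hi j
    exact ⟨hpow.trans (hF.hv i (hI' hi) j).1, (hF.hv i (hI' hi) j).2⟩
  · intro j k hjk w hw σ hσ
    have h1 := hF.hG j k (fun h => hjk (Subtype.ext h)) w (hI' hw) σ hσ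
    have h2 : (((I'.filter fun i => |v i k * v w j - v i j * v w k| ≤ σ).card : ℕ) : ℝ) ≤
        (((I.filter fun i => |v i k * v w j - v i j * v w k| ≤ σ).card : ℕ) : ℝ) := by
      exact_mod_cast Finset.card_le_card (Finset.filter_subset_filter _ hI')
    refine h2.trans (h1.trans ?_)
    have h3 : κ⁻¹ * (I.card : ℝ) ≤ (κ ^ (c + 2))⁻¹ * I'.card := by
      have h4 : (κ ^ (c + 2))⁻¹ * (κ ^ c / 2 * I.card) ≤ (κ ^ (c + 2))⁻¹ * (I'.card : ℝ) :=
        mul_le_mul_of_nonneg_left hcard (by positivity)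
      refine le_trans ?_ h4
      have h5 : (κ ^ (c + 2))⁻¹ * (κ ^ c / 2 * I.card) = κ⁻¹ * (I.card : ℝ) * (1 / (2 * κ)) := by
        rw [pow_add]; field_simp
      rw [h5]
      refine le_mul_of_one_le_right (by positivity) ?_
      rw [le_div_iff₀ (by positivity)]; linarith
    calc κ⁻¹ * (σ + δ) * (I.card : ℝ) = (κ⁻¹ * (I.card : ℝ)) * (σ + δ) := by ring
      _ ≤ ((κ ^ (c + 2))⁻¹ * I'.card) * (σ + δ) := mul_le_mul_of_nonneg_right h3 (by positivity)
      _ = _ := by ring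

/-- the point with the coordinates `x` and `y` -/
def gl {ι : Type} (p : ι → Prop) [DecidablePred p] (x : {l // p l} → ℝ) (y : {l // ¬ p l} → ℝ) :
    ι → ℝ := fun k => if h : p k then x ⟨k, h⟩ else y ⟨k, h⟩

theorem gl_sup {ι : Type} (p : ι → Prop) [DecidablePred p] (x x' : {l // p l} → ℝ)
    (y y' : {l // ¬ p l} → ℝ) : gl p (x ⊔ x') (y ⊔ y') = gl p x y ⊔ gl p x' y' := by
  funext k
  simp only [gl, Pi.sup_apply]
  split_ifs <;> rfl

theorem sup_gl {ι : Type} (p : ι → Prop) [DecidablePred p] {x y : ι → ℝ}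
    (h : ∀ l, p l ↔ y l < x l) : x ⊔ y = gl p (fun l => x l) (fun l => y l) := by
  funext k
  simp only [gl, Pi.sup_apply]
  split_ifs with hk
  · exact sup_eq_left.2 ((h k).1 hk).le
  · exact sup_eq_right.2 (not_lt.1 fun hlt => hk ((h k).2 hlt))

theorem gl_meas {ι Z : Type} [MeasurableSpace Z] (p : ι → Prop) [DecidablePred p]
    {f : Z → {l // p l} → ℝ} {g : Z → {l // ¬ p l} → ℝ} (hf : Measurable f) (hg : Measurable g) :
    Measurable fun z => gl p (f z) (g z) := by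
  rw [measurable_pi_iff]
  intro k
  by_cases h : p k
  · simp only [gl, dif_pos h]
    exact (measurable_pi_apply (⟨k, h⟩ : {l // p l})).comp hf
  · simp only [gl, dif_neg h]
    exact (measurable_pi_apply (⟨k, h⟩ : {l // ¬ p l})).comp hg

theorem gl_self {ι : Type} (p : ι → Prop) [DecidablePred p] (z : ι → ℝ) :
    gl p (fun l => z l) (fun l => z l) = z := by
  funext k
  simp only [gl]
  split_ifs <;> rfl

theorem vol_gl {ι : Type} [Fintype ι] (p : ι → Prop) [DecidablePred p] {E : Set (ι → ℝ)}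
    (hE : MeasurableSet E) : volume E = ∫⁻ x : {l // p l} → ℝ,
      volume {y : {l // ¬ p l} → ℝ | gl p x y ∈ E} := by
  have hm : Measurable fun q : ({l // p l} → ℝ) × ({l // ¬ p l} → ℝ) => gl p q.1 q.2 :=
    gl_meas p measurable_fst measurable_snd
  have h1 := (volume_preserving_piEquivPiSubtypeProd (fun _ : ι => ℝ) p).measure_preimage
    (s := {q | gl p q.1 q.2 ∈ E}) (hm hE).nullMeasurableSet
  have h2 : (MeasurableEquiv.piEquivPiSubtypeProd (fun _ : ι => ℝ) p) ⁻¹'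
      {q | gl p q.1 q.2 ∈ E} = E := by
    ext z
    show gl p (fun l => z l) (fun l => z l) ∈ E ↔ z ∈ E
    rw [gl_self]
  rw [h2] at h1
  rw [h1, Measure.volume_eq_prod]
  exact Measure.prod_apply (hm hE)

end Pool.Agent.V11222.KM
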