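import Pool.Agent.V11222.KM.Pair2

/-!
Many pairs of points on the lines of a family are not comparable.
-/

set_option autoImplicit false

namespace Pool.Agent.V11222.KM

open Set Filter Topology MeasureTheory
open scoped ENNReal

theorem kpow {κ : ℝ} (hκ : 0 < κ) (hκ2 : κ ≤ 1 / 2) (m n : ℕ) (c : ℝ) (hc : c * (1 / 2) ^ n ≤ 1)
    (hc0 : 0 ≤ c) : c * κ ^ (m + n) ≤ κ ^ m := by
  have h1 : κ ^ n ≤ (1 / 2) ^ n := pow_le_pow_left₀ hκ.le hκ2 n
  calc c * κ ^ (m + n) = κ ^ m * (c * κ ^ n) := by rw [pow_add]; ring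
    _ ≤ κ ^ m * 1 := mul_le_mul_of_nonneg_left
        ((mul_le_mul_of_nonneg_left h1 hc0).trans hc) (by positivity)
    _ = κ ^ m := mul_one _

open Classical in
theorem mixed_total {J : Type*} (I : Finset J) (a v c d : J → ℝ) (B : J → Set ℝ) {κ δ : ℝ}
    (hκ : 0 < κ) (hκ2 : κ ≤ 1 / 2) (hδκ : δ ≤ κ ^ 30)
    (hB : ∀ i ∈ I, MeasurableSet (B i)) (hB1 : ∀ i ∈ I, B i ⊆ Icc 0 1)
    (hBκ : ∀ i ∈ I, κ ≤ volume.real (B i)) (ha : ∀ i ∈ I, |a i| ≤ 1 / κ)
    (hv : ∀ i ∈ I, κ ≤ |v i| ∧ |v i| ≤ 1) (hd : ∀ i ∈ I, |d i| ≤ 1)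
    (hG : ∀ w ∈ I, (((I.filter fun i => |d i * v w - v i * d w| ≤ κ ^ 30).card : ℕ) : ℝ) ≤
      κ⁻¹ * (κ ^ 30 + δ) * I.card) :
    κ ^ 82 * (I.card : ℝ) ^ 2 ≤ ∑ i ∈ I, ∑ j ∈ I, volume.real {p : ℝ × ℝ | p.1 ∈ B i ∧ p.2 ∈ B j ∧
      ((a i + v i * p.1) - (a j + v j * p.2)) * ((c i + d i * p.1) - (c j + d j * p.2)) < 0} := by
  obtain ⟨M, hM⟩ : ∃ M : ℝ, M = I.card := ⟨_, rfl⟩
  have hM0 : 0 ≤ M := by rw [hM]; positivity
  obtain ⟨ρ, hρ⟩ : ∃ ρ : ℝ, ρ = κ ^ 60 := ⟨_, rfl⟩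
  have hρ0 : 0 < ρ := by rw [hρ]; positivity
  obtain ⟨mx, hmx⟩ : ∃ mx : J → J → Set (ℝ × ℝ), mx = fun i j => {p : ℝ × ℝ | p.1 ∈ B i ∧ p.2 ∈ B j ∧
      ((a i + v i * p.1) - (a j + v j * p.2)) * ((c i + d i * p.1) - (c j + d j * p.2)) < 0} :=
    ⟨_, rfl⟩
  have hv0 : ∀ i ∈ I, v i ≠ 0 := fun i hi h => by
    have := (hv i hi).1
    rw [h, abs_zero] at this
    linarith
  obtain ⟨S, hS⟩ : ∃ S : J → Set ℝ, S = fun i => {x | (x - a i) / v i ∈ B i} := ⟨_, rfl⟩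
  have hSm : ∀ i ∈ I, MeasurableSet (S i) := by
    intro i hi
    rw [hS]
    exact (show Measurable fun x : ℝ => (x - a i) / v i by fun_prop) (hB i hi)
  have hκ1 : 1 ≤ 1 / κ := by rw [le_div_iff₀ hκ]; linarith
  have hSR : ∀ i ∈ I, S i ⊆ Icc (-(2 / κ)) (2 / κ) := by
    intro i hi x hx
    rw [hS] at hx
    have ht := hB1 i hi hx
    have h1 : x = a i + v i * ((x - a i) / v i) := by
      rw [mul_div_cancel₀ _ (hv0 i hi)]; ring
    have h2 : |v i * ((x - a i) / v i)| ≤ 1 := by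
      rw [abs_mul]
      have : |(x - a i) / v i| ≤ 1 := abs_le.2 ⟨by linarith [ht.1], ht.2⟩
      calc |v i| * |(x - a i) / v i| ≤ 1 * 1 := mul_le_mul (hv i hi).2 this (abs_nonneg _) one_pos.le
        _ = 1 := one_mul 1
    have h3 := abs_le.1 (ha i hi)
    have h4 := abs_le.1 h2
    have h5 : 2 / κ = 1 / κ + 1 / κ := by ring
    rw [h5]
    constructor <;> linarith
  have hSvol : ∀ i ∈ I, κ ^ 2 ≤ volume.real (S i) := by
    intro i hi
    have h1 := congrArg (fun μ : Measure ℝ => μ (S i)) (map_affine (α := a i) (hv0 i hi))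
    rw [Measure.map_apply (by fun_prop) (hSm i hi), Measure.smul_apply, smul_eq_mul] at h1
    have h2 : (fun t : ℝ => a i + v i * t) ⁻¹' S i = B i := by
      ext t
      rw [hS]
      show (a i + v i * t - a i) / v i ∈ B i ↔ t ∈ B i
      rw [add_sub_cancel_left, mul_div_cancel_left₀ _ (hv0 i hi)]
    rw [h2] at h1
    have h3 : volume.real (B i) = |(v i)⁻¹| * volume.real (S i) := by
      rw [measureReal_def, h1, ENNReal.toReal_mul, ENNReal.toReal_ofReal (abs_nonneg _),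
        measureReal_def]
    have h4 := hBκ i hi
    rw [h3, abs_inv, inv_mul_eq_div, le_div_iff₀ (abs_pos.2 (hv0 i hi))] at h4
    nlinarith [(hv i hi).1]
  obtain ⟨U, hU⟩ : ∃ U : J → Set (ℝ × ℝ), U = fun i => {p | p.1 ∈ S i ∧ p.2 ∈ S i ∧
      |p.1 - p.2| < ρ} := ⟨_, rfl⟩
  have hUm : ∀ i ∈ I, MeasurableSet (U i) := by
    intro i hi
    rw [hU]
    exact (measurable_fst (hSm i hi)).inter ((measurable_snd (hSm i hi)).inter
      (measurableSet_lt (show Measurable fun p : ℝ × ℝ => |p.1 - p.2| by fun_prop)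
        measurable_const))
  obtain ⟨D, hD⟩ : ∃ D : Set (ℝ × ℝ), D = {p | p.1 ∈ Icc (-(2 / κ)) (2 / κ) ∧ |p.1 - p.2| < ρ} :=
    ⟨_, rfl⟩
  have hDv : volume D = ENNReal.ofReal (8 * ρ / κ) := by
    rw [hD, strip measurableSet_Icc, Real.volume_Icc, ← ENNReal.ofReal_mul (by
      have : 0 < 2 / κ := by positivity
      linarith)]
    congr 1
    ring
  have hDf : volume D ≠ ∞ := by rw [hDv]; exact ENNReal.ofReal_ne_top
  have hDr : volume.real D = 8 * ρ / κ := by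
    rw [measureReal_def, hDv, ENNReal.toReal_ofReal (by positivity)]
  have hUD : ∀ i ∈ I, U i ⊆ D := by
    intro i hi p hp
    rw [hU] at hp
    rw [hD]
    exact ⟨hSR i hi hp.1, hp.2.2⟩
  have hcs := cs_sets volume I U hDf hUm hUD
  rw [hDr] at hcs
  have hρle : ρ ≤ 2 / κ := by
    have h1 : ρ ≤ 1 := by rw [hρ]; exact pow_le_one₀ hκ.le (by linarith)
    have h2 : 2 / κ = 2 * (1 / κ) := by ring
    rw [h2]; linarith
  have hUvol : ∀ i ∈ I, ρ * κ ^ 5 / 8 ≤ volume.real (U i) := by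
    intro i hi
    have h1 := near_pairs (hSm i hi) hρ0 hρle (hSR i hi)
    have h2 : (κ ^ 2) ^ 2 ≤ volume.real (S i) ^ 2 := pow_le_pow_left₀ (by positivity) (hSvol i hi) 2
    have h3 : volume.real {p : ℝ × ℝ | p.1 ∈ S i ∧ p.2 ∈ S i ∧ |p.1 - p.2| < ρ} =
        volume.real (U i) := by rw [hU]
    rw [h3] at h1
    have h4 : 4 * (2 / κ) / ρ * volume.real (U i) = 8 * volume.real (U i) / (κ * ρ) := by
      field_simp; ring
    rw [h4] at h1
    have h5 := h2.trans h1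
    rw [le_div_iff₀ (by positivity)] at h5
    have h6 : (κ ^ 2) ^ 2 * (κ * ρ) = ρ * κ ^ 5 := by ring
    linarith
  obtain ⟨Q, hQ⟩ : ∃ Q : ℝ, Q = ∑ i ∈ I, ∑ j ∈ I, volume.real (U i ∩ U j) := ⟨_, rfl⟩
  rw [← hQ] at hcs
  have hQlow : M ^ 2 * ρ * κ ^ 11 / 512 ≤ Q := by
    have h1 : M * (ρ * κ ^ 5 / 8) ≤ ∑ i ∈ I, volume.real (U i) := by
      have := Finset.sum_le_sum hUvol
      rwa [Finset.sum_const, nsmul_eq_mul, ← hM] at this
    have h2 : (M * (ρ * κ ^ 5 / 8)) ^ 2 ≤ 8 * ρ / κ * Q :=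
      (pow_le_pow_left₀ (by positivity) h1 2).trans hcs
    have h3 : 8 * ρ / κ * Q = 8 * ρ * Q / κ := by ring
    rw [h3, le_div_iff₀ hκ] at h2
    have h4 : (M * (ρ * κ ^ 5 / 8)) ^ 2 * κ = 8 * ρ * (M ^ 2 * ρ * κ ^ 11 / 512) := by ring
    rw [h4] at h2
    exact le_of_mul_le_mul_left h2 (by positivity)
  -- upper bound
  have hmxf : ∀ i ∈ I, ∀ j ∈ I, volume (mx i j) ≠ ∞ := by
    intro i hi j hj
    refine ne_top_of_le_ne_top (b := volume (Icc (0 : ℝ) 1 ×ˢ Icc (0 : ℝ) 1)) ?_ (measure_mono ?_)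
    · rw [Measure.volume_eq_prod, Measure.prod_prod]
      exact ENNReal.mul_ne_top isCompact_Icc.measure_ne_top isCompact_Icc.measure_ne_top
    · intro p hp
      rw [hmx] at hp
      exact ⟨hB1 i hi hp.1, hB1 j hj hp.2.1⟩
  have hpair : ∀ i ∈ I, ∀ j ∈ I, volume.real (U i ∩ U j) ≤ 2 * volume.real (mx i j) +
      4 * ρ ^ 2 / (κ * κ ^ 30) +
        (if |d i * v j - v i * d j| ≤ κ ^ 30 then 8 * ρ / κ else 0) := by
    intro i hi j hj
    by_cases hbad : |d i * v j - v i * d j| ≤ κ ^ 30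
    · rw [if_pos hbad]
      have h1 : volume.real (U i ∩ U j) ≤ volume.real D :=
        measureReal_mono (inter_subset_left.trans (hUD i hi)) hDf
      rw [hDr] at h1
      have h2 : 0 ≤ 2 * volume.real (mx i j) := by positivity
      have h3 : 0 ≤ 4 * ρ ^ 2 / (κ * κ ^ 30) := by positivity
      linarith
    · rw [if_neg hbad, add_zero]
      push Not at hbad
      have hss : κ ^ 30 ≤ |d i / v i - d j / v j| := by
        have h1 : d i / v i - d j / v j = (d i * v j - v i * d j) / (v i * v j) := by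
          rw [div_sub_div _ _ (hv0 i hi) (hv0 j hj)]
        rw [h1, abs_div, le_div_iff₀ (abs_pos.2 (mul_ne_zero (hv0 i hi) (hv0 j hj)))]
        have h2 : |v i * v j| ≤ 1 := by
          rw [abs_mul]
          calc |v i| * |v j| ≤ 1 * 1 := mul_le_mul (hv i hi).2 (hv j hj).2 (abs_nonneg _) one_pos.le
            _ = 1 := one_mul 1
        have h3 : (0 : ℝ) < κ ^ 30 := by positivity
        nlinarith
      have hsl : ∀ k ∈ I, |d k / v k| ≤ 1 / κ := by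
        intro k hk
        rw [abs_div]
        exact div_le_div₀ one_pos.le (hd k hk) hκ (hv k hk).1
      have h1 := mix_x (c := c i - d i * a i / v i) (c' := c j - d j * a j / v j)
        (s := d i / v i) (s' := d j / v j) (Λ := 1 / κ) (σ := κ ^ 30) (ρ := ρ) (by positivity)
        (by positivity) hρ0 (hsl i hi) (hsl j hj) hss (hSm i hi) (hSm j hj)
      have hMm : MeasurableSet {p : ℝ × ℝ | p.1 ∈ S i ∧ p.2 ∈ S j ∧
        (p.1 - p.2) * ((c i - d i * a i / v i + d i / v i * p.1) -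
          (c j - d j * a j / v j + d j / v j * p.2)) < 0} :=
        (measurable_fst (hSm i hi)).inter ((measurable_snd (hSm j hj)).inter
          (measurableSet_lt (show Measurable fun p : ℝ × ℝ =>
            (p.1 - p.2) * ((c i - d i * a i / v i + d i / v i * p.1) -
          (c j - d j * a j / v j + d j / v j * p.2)) by fun_prop) measurable_const))
      have h2 := affine_prod (α := a i) (α' := a j) (hv0 i hi) (hv0 j hj) (hv i hi).2 (hv j hj).2 hMm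
      have h3 : {p : ℝ × ℝ | (a i + v i * p.1, a j + v j * p.2) ∈ {p : ℝ × ℝ | p.1 ∈ S i ∧ p.2 ∈ S j ∧
        (p.1 - p.2) * ((c i - d i * a i / v i + d i / v i * p.1) -
          (c j - d j * a j / v j + d j / v j * p.2)) < 0}} = mx i j := by
        rw [hmx, hS]
        ext p
        show ((a i + v i * p.1 - a i) / v i ∈ B i ∧ (a j + v j * p.2 - a j) / v j ∈ B j ∧
          ((a i + v i * p.1) - (a j + v j * p.2)) *
            ((c i - d i * a i / v i + d i / v i * (a i + v i * p.1)) -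
            (c j - d j * a j / v j + d j / v j * (a j + v j * p.2))) < 0) ↔ _
        have e1 : (a i + v i * p.1 - a i) / v i = p.1 := by
          rw [add_sub_cancel_left, mul_div_cancel_left₀ _ (hv0 i hi)]
        have e2 : (a j + v j * p.2 - a j) / v j = p.2 := by
          rw [add_sub_cancel_left, mul_div_cancel_left₀ _ (hv0 j hj)]
        have e3 : c i - d i * a i / v i + d i / v i * (a i + v i * p.1) = c i + d i * p.1 := by
          have := hv0 i hi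
          field_simp; ring
        have e4 : c j - d j * a j / v j + d j / v j * (a j + v j * p.2) = c j + d j * p.2 := by
          have := hv0 j hj
          field_simp; ring
        rw [e1, e2, e3, e4]
        rfl
      rw [h3] at h2
      have h4 : U i ∩ U j = {p : ℝ × ℝ | p.1 ∈ S i ∩ S j ∧ p.2 ∈ S i ∩ S j ∧ |p.1 - p.2| < ρ} := by
        rw [hU]
        ext p
        constructor
        · rintro ⟨⟨x1, x2, x3⟩, ⟨y1, y2, -⟩⟩
          exact ⟨⟨x1, y1⟩, ⟨x2, y2⟩, x3⟩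
        · rintro ⟨⟨x1, y1⟩, ⟨x2, y2⟩, x3⟩
          exact ⟨⟨x1, x2, x3⟩, ⟨y1, y2, x3⟩⟩
      rw [← h4] at h1
      have h5 : volume (U i ∩ U j) ≤ 2 * volume (mx i j) +
          ENNReal.ofReal (4 * (1 / κ) * ρ ^ 2 / κ ^ 30) :=
        h1.trans (add_le_add (mul_le_mul' le_rfl h2) le_rfl)
      have h6 := ENNReal.toReal_mono (ENNReal.add_ne_top.2 ⟨ENNReal.mul_ne_top (by norm_num)
        (hmxf i hi j hj), ENNReal.ofReal_ne_top⟩) h5
      rw [ENNReal.toReal_add (ENNReal.mul_ne_top (by norm_num) (hmxf i hi j hj))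
        ENNReal.ofReal_ne_top, ENNReal.toReal_mul, ENNReal.toReal_ofReal (by positivity)] at h6
      have h7 : 4 * (1 / κ) * ρ ^ 2 / κ ^ 30 = 4 * ρ ^ 2 / (κ * κ ^ 30) := by
        field_simp
      rw [h7] at h6
      simpa [measureReal_def] using h6
  obtain ⟨T, hT⟩ : ∃ T : ℝ, T = ∑ i ∈ I, ∑ j ∈ I, volume.real (mx i j) := ⟨_, rfl⟩
  have hQup : Q ≤ 2 * T + M ^ 2 * (4 * ρ ^ 2 / (κ * κ ^ 30)) +
      (8 * ρ / κ) * (M * (κ⁻¹ * (κ ^ 30 + δ) * M)) := by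
    have h1 : Q ≤ ∑ i ∈ I, ∑ j ∈ I, (2 * volume.real (mx i j) +
      4 * ρ ^ 2 / (κ * κ ^ 30) +
        (if |d i * v j - v i * d j| ≤ κ ^ 30 then 8 * ρ / κ else 0)) := by
      rw [hQ]
      exact Finset.sum_le_sum fun i hi => Finset.sum_le_sum fun j hj => hpair i hi j hj
    refine h1.trans ?_
    simp only [Finset.sum_add_distrib, Finset.sum_const, nsmul_eq_mul, ← Finset.mul_sum]
    rw [← hM, ← hT]
    have h2 : ∑ i ∈ I, ∑ j ∈ I, (if |d i * v j - v i * d j| ≤ κ ^ 30 then 8 * ρ / κ else 0) ≤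
        (8 * ρ / κ) * (M * (κ⁻¹ * (κ ^ 30 + δ) * M)) := by
      rw [Finset.sum_comm]
      have h3 : ∀ j ∈ I, ∑ i ∈ I, (if |d i * v j - v i * d j| ≤ κ ^ 30 then 8 * ρ / κ else 0) ≤
          (8 * ρ / κ) * (κ⁻¹ * (κ ^ 30 + δ) * M) := by
        intro j hj
        rw [← Finset.sum_filter, Finset.sum_const, nsmul_eq_mul, mul_comm]
        refine mul_le_mul_of_nonneg_left ?_ (by positivity)
        rw [hM]
        exact hG j hj
      refine (Finset.sum_le_sum h3).trans (le_of_eq ?_)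
      rw [Finset.sum_const, nsmul_eq_mul, ← hM]
      ring
    have h4 : M * (M * (4 * ρ ^ 2 / (κ * κ ^ 30))) = M ^ 2 * (4 * ρ ^ 2 / (κ * κ ^ 30)) := by ring
    linarith
  have hgoal : ∑ i ∈ I, ∑ j ∈ I, volume.real {p : ℝ × ℝ | p.1 ∈ B i ∧ p.2 ∈ B j ∧
      ((a i + v i * p.1) - (a j + v j * p.2)) * ((c i + d i * p.1) - (c j + d j * p.2)) < 0} = T := by
    rw [hT, hmx]
  rw [hgoal, ← hM]
  have e1 : M ^ 2 * (4 * ρ ^ 2 / (κ * κ ^ 30)) = M ^ 2 * (ρ * (4 * κ ^ 29)) := by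
    rw [hρ]; field_simp
  have e2 : (8 * ρ / κ) * (M * (κ⁻¹ * (κ ^ 30 + δ) * M)) ≤ M ^ 2 * (ρ * (16 * κ ^ 28)) := by
    have h1 : (8 * ρ / κ) * (M * (κ⁻¹ * (κ ^ 30 + δ) * M)) =
        M ^ 2 * (ρ * (8 * (κ ^ 30 + δ) / κ ^ 2)) := by field_simp
    rw [h1]
    refine mul_le_mul_of_nonneg_left (mul_le_mul_of_nonneg_left ?_ hρ0.le) (by positivity)
    rw [div_le_iff₀ (by positivity)]
    have h2 : 16 * κ ^ 28 * κ ^ 2 = 16 * κ ^ 30 := by ring
    rw [h2]; linarith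
  have e3 : 4096 * (4 * κ ^ (11 + 18)) ≤ κ ^ 11 := by
    have := kpow hκ hκ2 11 18 (4096 * 4) (by norm_num) (by norm_num)
    linarith
  have e4 : 4096 * (16 * κ ^ (11 + 17)) ≤ κ ^ 11 := by
    have := kpow hκ hκ2 11 17 (4096 * 16) (by norm_num) (by norm_num)
    linarith
  have e5 : M ^ 2 * (ρ * (κ ^ 11 / 1024)) ≤ 2 * T := by
    have h1 : M ^ 2 * (ρ * (4 * κ ^ 29)) ≤ M ^ 2 * (ρ * (κ ^ 11 / 4096)) :=
      mul_le_mul_of_nonneg_left (mul_le_mul_of_nonneg_left (by norm_num at e3; linarith) hρ0.le)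
        (by positivity)
    have h2 : M ^ 2 * (ρ * (16 * κ ^ 28)) ≤ M ^ 2 * (ρ * (κ ^ 11 / 4096)) :=
      mul_le_mul_of_nonneg_left (mul_le_mul_of_nonneg_left (by norm_num at e4; linarith) hρ0.le)
        (by positivity)
    have h3 : M ^ 2 * ρ * κ ^ 11 / 512 = M ^ 2 * (ρ * (κ ^ 11 / 1024)) +
      M ^ 2 * (ρ * (κ ^ 11 / 4096)) + M ^ 2 * (ρ * (κ ^ 11 / 4096)) +
        M ^ 2 * (ρ * (κ ^ 11 / 2048)) := by ring
    have h4 : 0 ≤ M ^ 2 * (ρ * (κ ^ 11 / 2048)) := by positivity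
    linarith
  have e6 : 2048 * κ ^ (71 + 11) ≤ κ ^ 71 := kpow hκ hκ2 71 11 2048 (by norm_num) (by norm_num)
  have e7 : ρ * (κ ^ 11 / 1024) = κ ^ 71 / 1024 := by rw [hρ]; ring
  rw [e7] at e5
  have e8 : M ^ 2 * (2048 * κ ^ (71 + 11)) ≤ M ^ 2 * κ ^ 71 :=
    mul_le_mul_of_nonneg_left e6 (by positivity)
  norm_num at e8
  nlinarith

end Pool.Agent.V11222.KM
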