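import Pool.Agent.V11222.KM.Restr

/-!
Averages over tubes and over line segments.
-/

set_option autoImplicit false

namespace Pool.Agent.V11222.KM

open Set Filter Topology MeasureTheory Metric
open scoped ENNReal

/-- The `δ`-tube with centre `a` and direction `e`. -/
def tube {n : ℕ} (δ : ℝ) (a e : E n) : Set (E n) :=
  {y | |inner ℝ (y - a) e| ≤ 1 / 2 ∧ ‖(y - a) - (inner ℝ (y - a) e) • e‖ ≤ δ}

/-- the supremum of the integrals over the unit segments in the direction `e` -/
noncomputable def lmax {n : ℕ} (f : E n → ℝ≥0∞) (e : E n) : ℝ≥0∞ :=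
  ⨆ a : E n, ∫⁻ t in Icc (-(1 / 2) : ℝ) (1 / 2), f (a + t • e)

theorem tube_meas {n : ℕ} (δ : ℝ) (a e : E n) : MeasurableSet (tube δ a e) := by
  have h1 : Measurable fun y : E n => |inner ℝ (y - a) e| := by fun_prop
  have h2 : Measurable fun y : E n => ‖(y - a) - (inner ℝ (y - a) e) • e‖ := by fun_prop
  exact (measurableSet_le h1 measurable_const).inter (measurableSet_le h2 measurable_const)

theorem tube_shift {n : ℕ} (δ : ℝ) (a w e : E n) :
    volume (tube δ (a + w) e) = volume (tube δ a e) := by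
  have h : tube δ (a + w) e = (fun y => y + (-w)) ⁻¹' tube δ a e := by
    ext y
    have : y - (a + w) = y + -w - a := by abel
    simp only [tube, mem_preimage, mem_setOf_eq, this]
  rw [h, measure_preimage_add_right]

theorem tube_le_line {n : ℕ} {f : E n → ℝ≥0∞} (hf : Measurable f) (δ : ℝ) (a : E n) {e : E n}
    (he : ‖e‖ = 1) :
    (volume (tube δ a e))⁻¹ * ∫⁻ y in tube δ a e, f y ≤ 2 * lmax f e := by
  have hT := tube_meas δ a e
  obtain ⟨g, hg⟩ : ∃ g : E n → ℝ≥0∞, g = (tube δ a e).indicator f := ⟨_, rfl⟩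
  have hgm : Measurable g := by rw [hg]; exact hf.indicator hT
  have h1 : ∫⁻ y in tube δ a e, f y = ∫⁻ y, g y := by rw [hg, lintegral_indicator hT]
  have hI : volume (Icc (-(1 / 2) : ℝ) (1 / 2)) = 1 := by rw [Real.volume_Icc]; norm_num
  have h2 : ∫⁻ y, g y = ∫⁻ s in Icc (-(1 / 2) : ℝ) (1 / 2), ∫⁻ y, g (y + s • e) := by
    have : ∀ s : ℝ, ∫⁻ y, g (y + s • e) = ∫⁻ y, g y := fun s =>
      lintegral_add_right_eq_self g (s • e)
    simp only [this]
    rw [setLIntegral_const, hI, mul_one]
  have hee : inner ℝ e e = (1 : ℝ) := by rw [real_inner_self_eq_norm_sq, he]; norm_num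
  have h3 : ∫⁻ s in Icc (-(1 / 2) : ℝ) (1 / 2), ∫⁻ y, g (y + s • e) =
      ∫⁻ y, ∫⁻ s in Icc (-(1 / 2) : ℝ) (1 / 2), g (y + s • e) := by
    refine lintegral_lintegral_swap ?_
    exact (hgm.comp (by fun_prop : Measurable fun p : ℝ × E n => p.2 + p.1 • e)).aemeasurable
  obtain ⟨T', hT'⟩ : ∃ T' : Set (E n), T' = tube δ (a + (1 / 2 : ℝ) • e) e ∪
      tube δ (a + (-(1 / 2) : ℝ) • e) e := ⟨_, rfl⟩
  have hT'm : MeasurableSet T' := by rw [hT']; exact (tube_meas _ _ _).union (tube_meas _ _ _)
  have h4 : ∀ y, ∫⁻ s in Icc (-(1 / 2) : ℝ) (1 / 2), g (y + s • e) ≤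
      T'.indicator (fun _ => lmax f e) y := by
    intro y
    by_cases hy : y ∈ T'
    · rw [indicator_of_mem hy]
      refine le_trans (lintegral_mono fun s => ?_) (le_iSup (fun a : E n =>
        ∫⁻ t in Icc (-(1 / 2) : ℝ) (1 / 2), f (a + t • e)) y)
      rw [hg]; exact indicator_le_self _ _ _
    · rw [indicator_of_notMem hy, nonpos_iff_eq_zero]
      refine (setLIntegral_congr_fun measurableSet_Icc (g := fun _ => (0 : ℝ≥0∞)) ?_).trans (by simp)
      intro s hs
      show g (y + s • e) = 0
      rw [hg, indicator_of_notMem]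
      intro hmem
      apply hy
      obtain ⟨h5, h6⟩ := hmem
      have e1 : y + s • e - a = (y - a) + s • e := by abel
      have e2 : inner ℝ (y + s • e - a) e = inner ℝ (y - a) e + s := by
        rw [e1, inner_add_left, inner_smul_left, hee]; simp
      rw [e2] at h5 h6
      have e3 : y + s • e - a - (inner ℝ (y - a) e + s) • e =
          (y - a) - inner ℝ (y - a) e • e := by
        rw [e1, add_smul]; abel
      rw [e3] at h6
      have e4 : ∀ r : ℝ, inner ℝ (y - (a + r • e)) e = inner ℝ (y - a) e - r := by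
        intro r
        have : y - (a + r • e) = (y - a) - r • e := by abel
        rw [this, inner_sub_left, inner_smul_left, hee]; simp
      have e5 : ∀ r : ℝ, y - (a + r • e) - (inner ℝ (y - (a + r • e)) e) • e =
          (y - a) - inner ℝ (y - a) e • e := by
        intro r
        rw [e4, sub_smul]; abel
      have h7 := abs_le.1 h5
      rw [hT']
      rcases le_total 0 (inner ℝ (y - a) e) with h8 | h8
      · left
        refine ⟨?_, by rw [e5]; exact h6⟩
        rw [e4, abs_le]
        constructor <;> linarith [hs.1, hs.2]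
      · right
        refine ⟨?_, by rw [e5]; exact h6⟩
        rw [e4, abs_le]
        constructor <;> linarith [hs.1, hs.2]
  have h9 : ∫⁻ y, g y ≤ lmax f e * (2 * volume (tube δ a e)) := by
    rw [h2, h3]
    refine (lintegral_mono h4).trans ?_
    rw [lintegral_indicator_const hT'm]
    refine mul_le_mul' le_rfl ?_
    rw [hT']
    refine (measure_union_le _ _).trans (le_of_eq ?_)
    rw [tube_shift, tube_shift, two_mul]
  rw [h1]
  calc (volume (tube δ a e))⁻¹ * ∫⁻ y, g y
      ≤ (volume (tube δ a e))⁻¹ * (lmax f e * (2 * volume (tube δ a e))) := mul_le_mul' le_rfl h9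
    _ = (volume (tube δ a e) * (volume (tube δ a e))⁻¹) * (2 * lmax f e) := by ring
    _ ≤ 1 * (2 * lmax f e) := mul_le_mul' (ENNReal.mul_inv_le_one _) le_rfl
    _ = 2 * lmax f e := one_mul _

end Pool.Agent.V11222.KM
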